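import Pool.Agent.Work.MP_d6d6e6_ag.LocalB

/-! Invariance of centers under affine changes of coordinates, and the trace condition. -/

open Finsupp Filter Topology
open scoped ENNReal NNReal

set_option linter.unusedSectionVars false
set_option linter.unusedVariables false

namespace Pool.Agent.Work.MP_d6d6e6_ag

theorem clm_comp_det (L₁ L₂ : (Fin 2 → ℂ) →L[ℂ] ℂ) (A : (Fin 2 → ℂ) →L[ℂ] (Fin 2 → ℂ)) :
    L₁ (A (Pi.single 0 1)) * L₂ (A (Pi.single 1 1)) -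
      L₁ (A (Pi.single 1 1)) * L₂ (A (Pi.single 0 1)) =
    (L₁ (Pi.single 0 1) * L₂ (Pi.single 1 1) - L₁ (Pi.single 1 1) * L₂ (Pi.single 0 1)) *
    (A (Pi.single 0 1) 0 * A (Pi.single 1 1) 1 - A (Pi.single 1 1) 0 * A (Pi.single 0 1) 1) := by
  rw [clm_apply L₁ (A (Pi.single 0 1)), clm_apply L₂ (A (Pi.single 0 1)),
    clm_apply L₁ (A (Pi.single 1 1)), clm_apply L₂ (A (Pi.single 1 1))]
  ring

theorem det_ne_zero_of_equiv (A : (Fin 2 → ℂ) ≃L[ℂ] (Fin 2 → ℂ)) :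
    A (Pi.single 0 1) 0 * A (Pi.single 1 1) 1 - A (Pi.single 1 1) 0 * A (Pi.single 0 1) 1 ≠ 0 := by
  intro h0
  have h := clm_comp_det (ContinuousLinearMap.proj 0 ∘L (A.symm : (Fin 2 → ℂ) →L[ℂ] (Fin 2 → ℂ)))
    (ContinuousLinearMap.proj 1 ∘L (A.symm : (Fin 2 → ℂ) →L[ℂ] (Fin 2 → ℂ)))
    (A : (Fin 2 → ℂ) →L[ℂ] (Fin 2 → ℂ))
  have h1 : ∀ x, (A : (Fin 2 → ℂ) →L[ℂ] (Fin 2 → ℂ)) x = A x := fun x => rfl
  simp only [h1] at h
  rw [h0, mul_zero] at h
  simp at h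

/-- Affine changes of coordinates preserve centers. -/
theorem HasCenter.affine {V V' : (Fin 2 → ℂ) → (Fin 2 → ℂ)} {p : Fin 2 → ℂ}
    (A : (Fin 2 → ℂ) ≃L[ℂ] (Fin 2 → ℂ)) {c : ℂ} (h : HasCenter V p)
    (hV : ∀ z, A (V' z) = c • V (p + A z)) : HasCenter V' 0 := by
  obtain ⟨u, v, ⟨hu, hv, hu0, hv0, hw⟩, hfi⟩ := h
  set L : (Fin 2 → ℂ) → (Fin 2 → ℂ) := fun z => p + A z with hL
  have hL0 : L 0 = p := by simp [hL]
  have hLan : ∀ z, AnalyticAt ℂ L z := fun z =>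
    analyticAt_const.add ((A : (Fin 2 → ℂ) →L[ℂ] (Fin 2 → ℂ)).analyticAt z)
  have hLd : ∀ z, HasFDerivAt L (A : (Fin 2 → ℂ) →L[ℂ] (Fin 2 → ℂ)) z := fun z =>
    ((A : (Fin 2 → ℂ) →L[ℂ] (Fin 2 → ℂ)).hasFDerivAt).const_add p
  have hcomp : ∀ {w : (Fin 2 → ℂ) → ℂ}, AnalyticAt ℂ w p → AnalyticAt ℂ (fun z => w (L z)) 0 := by
    intro w hw
    have : AnalyticAt ℂ w (L 0) := by rw [hL0]; exact hw
    exact this.comp (hLan 0)
  have hd : ∀ {w : (Fin 2 → ℂ) → ℂ}, AnalyticAt ℂ w p →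
      fderiv ℂ (fun z => w (L z)) 0 =
        (fderiv ℂ w p).comp (A : (Fin 2 → ℂ) →L[ℂ] (Fin 2 → ℂ)) := by
    intro w hw
    have h1 : HasFDerivAt w (fderiv ℂ w p) (L 0) := by
      rw [hL0]
      exact hw.differentiableAt.hasFDerivAt
    exact (h1.comp (0 : Fin 2 → ℂ) (hLd 0)).fderiv
  refine ⟨fun z => u (L z), fun z => v (L z), ⟨hcomp hu, hcomp hv, by simp only [hL0, hu0],
    by simp only [hL0, hv0], ?_⟩, ?_⟩
  · have h1 := clm_comp_det (fderiv ℂ u p) (fderiv ℂ v p) (A : (Fin 2 → ℂ) →L[ℂ] (Fin 2 → ℂ))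
    simp only [wedge, differential]
    rw [hd hu, hd hv]
    simp only [ContinuousLinearMap.comp_apply]
    rw [h1]
    exact mul_ne_zero hw (det_ne_zero_of_equiv A)
  · have hF : AnalyticAt ℂ (fun t => u t ^ 2 + v t ^ 2) p := (hu.pow 2).add (hv.pow 2)
    have hLc : Tendsto L (𝓝 0) (𝓝 p) := by
      have := (hLan 0).continuousAt.tendsto
      rwa [hL0] at this
    filter_upwards [hLc.eventually hfi, hLc.eventually hF.eventually_analyticAt] with z h1 h2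
    have h3 := (h2.differentiableAt.hasFDerivAt.comp z (hLd z)).fderiv
    have h4 : fderiv ℂ (fun t => u (L t) ^ 2 + v (L t) ^ 2) z =
        (fderiv ℂ (fun t => u t ^ 2 + v t ^ 2) (L z)).comp
          (A : (Fin 2 → ℂ) →L[ℂ] (Fin 2 → ℂ)) := h3
    rw [h4, ContinuousLinearMap.comp_apply]
    show fderiv ℂ (fun t => u t ^ 2 + v t ^ 2) (L z) (A (V' z)) = 0
    rw [hV, map_smul]
    show c • fderiv ℂ (fun t => u t ^ 2 + v t ^ 2) (L z) (V (L z)) = 0
    rw [h1, smul_zero]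

/-- Affine changes of coordinates preserve centers, converse direction. -/
theorem HasCenter.affine_symm {V V' : (Fin 2 → ℂ) → (Fin 2 → ℂ)} {p : Fin 2 → ℂ}
    (A : (Fin 2 → ℂ) ≃L[ℂ] (Fin 2 → ℂ)) {c : ℂ} (hc : c ≠ 0) (h : HasCenter V' 0)
    (hV : ∀ z, A (V' z) = c • V (p + A z)) : HasCenter V p := by
  obtain ⟨u, v, ⟨hu, hv, hu0, hv0, hw⟩, hfi⟩ := h
  set B : (Fin 2 → ℂ) →L[ℂ] (Fin 2 → ℂ) := (A.symm : (Fin 2 → ℂ) →L[ℂ] (Fin 2 → ℂ)) with hB
  set L : (Fin 2 → ℂ) → (Fin 2 → ℂ) := fun z => B (z - p) with hL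
  have hL0 : L p = 0 := by simp [hL]
  have hLan : ∀ z, AnalyticAt ℂ L z := fun z =>
    (B.analyticAt _).comp (analyticAt_id.sub analyticAt_const)
  have hLd : ∀ z, HasFDerivAt L B z := fun z => by
    have := (B.hasFDerivAt (x := z - p)).comp z ((hasFDerivAt_id (𝕜 := ℂ) z).sub_const p)
    rwa [ContinuousLinearMap.comp_id] at this
  have hcomp : ∀ {w : (Fin 2 → ℂ) → ℂ}, AnalyticAt ℂ w 0 → AnalyticAt ℂ (fun z => w (L z)) p := by
    intro w hw
    have : AnalyticAt ℂ w (L p) := by rw [hL0]; exact hw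
    exact this.comp (hLan p)
  have hd : ∀ {w : (Fin 2 → ℂ) → ℂ}, AnalyticAt ℂ w 0 →
      fderiv ℂ (fun z => w (L z)) p = (fderiv ℂ w 0).comp B := by
    intro w hw
    have h1 : HasFDerivAt w (fderiv ℂ w 0) (L p) := by
      rw [hL0]
      exact hw.differentiableAt.hasFDerivAt
    exact (h1.comp p (hLd p)).fderiv
  refine ⟨fun z => u (L z), fun z => v (L z), ⟨hcomp hu, hcomp hv, by simp only [hL0, hu0],
    by simp only [hL0, hv0], ?_⟩, ?_⟩
  · have h1 := clm_comp_det (fderiv ℂ u 0) (fderiv ℂ v 0) B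
    simp only [wedge, differential]
    rw [hd hu, hd hv]
    simp only [ContinuousLinearMap.comp_apply]
    rw [h1]
    exact mul_ne_zero hw (det_ne_zero_of_equiv A.symm)
  · have hF : AnalyticAt ℂ (fun t => u t ^ 2 + v t ^ 2) 0 := (hu.pow 2).add (hv.pow 2)
    have hLc : Tendsto L (𝓝 p) (𝓝 0) := by
      have := (hLan p).continuousAt.tendsto
      rwa [hL0] at this
    filter_upwards [hLc.eventually hfi, hLc.eventually hF.eventually_analyticAt] with z h1 h2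
    have h3 := (h2.differentiableAt.hasFDerivAt.comp z (hLd z)).fderiv
    have h4 : fderiv ℂ (fun t => u (L t) ^ 2 + v (L t) ^ 2) z =
        (fderiv ℂ (fun t => u t ^ 2 + v t ^ 2) (L z)).comp B := h3
    rw [h4, ContinuousLinearMap.comp_apply]
    have h5 : p + A (L z) = z := by
      simp [hL, hB]
    have h6 : c • B (V z) = V' (L z) := by
      have := hV (L z)
      rw [h5] at this
      rw [← map_smul, ← this]
      simp [hB]
    have h7 : c • fderiv ℂ (fun t => u t ^ 2 + v t ^ 2) (L z) (B (V z)) = 0 := by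
      rw [← map_smul, h6, h1]
    exact (smul_eq_zero.1 h7).resolve_left hc

/-- The trace of the linear part vanishes at a center. -/
theorem trace_eq_zero {V : (Fin 2 → ℂ) → (Fin 2 → ℂ)} {J : (Fin 2 → ℂ) →L[ℂ] (Fin 2 → ℂ)}
    {p : Fin 2 → ℂ} (hV : HasFDerivAt V J p) (hV0 : V p = 0) (h : HasCenter V p) :
    J (Pi.single 0 1) 0 + J (Pi.single 1 1) 1 = 0 := by
  obtain ⟨u, v, hc, hfi⟩ := h
  have hfo := first_order hV hV0 hc hfi
  obtain ⟨hu, hv, hu0, hv0, hw⟩ := hc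
  set e0 : Fin 2 → ℂ := Pi.single 0 1 with he0
  set e1 : Fin 2 → ℂ := Pi.single 1 1 with he1
  set ux := fderiv ℂ u p e0 with hux
  set uy := fderiv ℂ u p e1 with huy
  set vx := fderiv ℂ v p e0 with hvx
  set vy := fderiv ℂ v p e1 with hvy
  have hw' : ux * vy - uy * vx ≠ 0 := hw
  have hu' : ∀ x, fderiv ℂ u p x = x 0 * ux + x 1 * uy := fun x => clm_apply _ x
  have hv' : ∀ x, fderiv ℂ v p x = x 0 * vx + x 1 * vy := fun x => clm_apply _ x
  have h0 := hfo e0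
  have h1 := hfo e1
  have h2 := hfo (e0 + e1)
  have e00 : e0 0 = 1 := by simp [he0]
  have e01 : e0 1 = 0 := by simp [he0]
  have e10 : e1 0 = 0 := by simp [he1]
  have e11 : e1 1 = 1 := by simp [he1]
  rw [map_add J] at h2
  simp only [hu', hv', Pi.add_apply, e00, e01, e10, e11] at h0 h1 h2
  set a := J e0 0
  set c := J e0 1
  set b := J e1 0
  set d := J e1 1
  have key : (a + d) * (ux * vy - uy * vx) ^ 2 = 0 := by
    linear_combination (uy ^ 2 + vy ^ 2) * h0 + (ux ^ 2 + vx ^ 2) * h1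
      - (ux * uy + vx * vy) * (h2 - h0 - h1)
  exact (mul_eq_zero.1 key).resolve_right (pow_ne_zero 2 hw')

end Pool.Agent.Work.MP_d6d6e6_ag
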