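import Mathlib

open MvPolynomial

namespace Pool.Agent.Work.MP_d6d6e6_ag

universe u v

/-- The structure map of a square system with invertible Jacobian is open on spectra. -/
theorem isOpenMap_of_isUnit_jacobian {R : Type u} [CommRing R] {ι : Type v} [Fintype ι]
    [DecidableEq ι] (F : ι → MvPolynomial ι R)
    (hJ : IsUnit (Ideal.Quotient.mk (Ideal.span (Set.range F))
      (Matrix.det (Matrix.of fun i j => pderiv i (F j))))) :
    IsOpenMap (PrimeSpectrum.comap
      (algebraMap R (MvPolynomial ι R ⧸ Ideal.span (Set.range F)))) := by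
  let P : Algebra.SubmersivePresentation R (MvPolynomial ι R ⧸ Ideal.span (Set.range F)) ι ι :=
    { Algebra.PreSubmersivePresentation.naive (v := F) id Function.injective_id with
      jacobian_isUnit := by
        have : (Algebra.PreSubmersivePresentation.naive (v := F) id
            Function.injective_id).jacobiMatrix = Matrix.of fun i j => pderiv i (F j) := by
          apply Matrix.ext
          intro i j
          rw [Algebra.PreSubmersivePresentation.jacobiMatrix_naive]
          rfl
        rw [Algebra.PreSubmersivePresentation.jacobian_eq_jacobiMatrix_det, this]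
        exact hJ }
  have h1 : Algebra.IsStandardSmooth R (MvPolynomial ι R ⧸ Ideal.span (Set.range F)) :=
    P.isStandardSmooth
  have h2 : Algebra.Smooth R (MvPolynomial ι R ⧸ Ideal.span (Set.range F)) := inferInstance
  have h3 : Module.Flat R (MvPolynomial ι R ⧸ Ideal.span (Set.range F)) := inferInstance
  exact PrimeSpectrum.isOpenMap_comap_of_hasGoingDown_of_finitePresentation

/-- Evaluation of a polynomial in `ι` with coefficients polynomials in `τ`. -/
noncomputable def ev2 {τ : Type*} {ι : Type*} (a : τ → ℂ) (z : ι → ℂ) :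
    MvPolynomial ι (MvPolynomial τ ℂ) →+* ℂ :=
  eval₂Hom (eval a) z

theorem ev2_C {τ : Type*} {ι : Type*} (a : τ → ℂ) (z : ι → ℂ) (f : MvPolynomial τ ℂ) :
    ev2 a z (C f) = eval a f := by simp [ev2]

theorem ev2_X {τ : Type*} {ι : Type*} (a : τ → ℂ) (z : ι → ℂ) (i : ι) :
    ev2 a z (X i) = z i := by simp [ev2]

theorem ev2_eq_eval_map {τ : Type*} {ι : Type*} (a : τ → ℂ) (z : ι → ℂ)
    (f : MvPolynomial ι (MvPolynomial τ ℂ)) : ev2 a z f = eval z (map (eval a) f) := by
  rw [ev2, coe_eval₂Hom, eval_map]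

theorem ev2_rename {τ : Type*} {ι κ : Type*} (a : τ → ℂ) (e : ι → κ) (z : κ → ℂ)
    (f : MvPolynomial ι (MvPolynomial τ ℂ)) : ev2 a z (rename e f) = ev2 a (z ∘ e) f := by
  rw [ev2, coe_eval₂Hom, eval₂_rename]
  rfl

/-- First half of the description of `ℂ`-points of the image of a square system. -/
theorem exists_zero_of_comap {τ : Type u} {ι : Type v} [Finite ι] {S : Type*} [CommRing S]
    [Algebra (MvPolynomial τ ℂ) S]
    (F : ι → MvPolynomial ι (MvPolynomial τ ℂ)) (a : τ → ℂ)
    (π : MvPolynomial ι (MvPolynomial τ ℂ) →+* S)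
    (hπC : ∀ r, π (C r) = algebraMap (MvPolynomial τ ℂ) S r) (hπF : ∀ i, π (F i) = 0)
    (q : PrimeSpectrum S) (hq : PrimeSpectrum.comap (algebraMap (MvPolynomial τ ℂ) S) q
        = PrimeSpectrum.comap (eval a) ⊥) : ∃ z : ι → ℂ, ∀ i, ev2 a z (F i) = 0 := by
  by_contra hz
  push Not at hz
  have htop : Ideal.span (Set.range fun i => map (eval a) (F i)) = ⊤ := by
    have h1 : zeroLocus ℂ (Ideal.span (Set.range fun i => map (eval a) (F i))) = ∅ := by
      ext z
      simp only [Set.mem_empty_iff_false, iff_false]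
      intro hzl
      obtain ⟨i, hi⟩ := hz z
      apply hi
      have h2 := (mem_zeroLocus_iff.1 hzl) (map (eval a) (F i)) (Ideal.subset_span ⟨i, rfl⟩)
      rw [ev2_eq_eval_map]
      simpa [aeval_eq_eval] using h2
    have h3 := vanishingIdeal_zeroLocus_eq_radical (K := ℂ)
      (Ideal.span (Set.range fun i => map (eval a) (F i)))
    rw [h1, vanishingIdeal_empty] at h3
    exact Ideal.radical_eq_top.1 h3.symm
  let ψ : MvPolynomial ι ℂ →+* S ⧸ q.asIdeal :=
    eval₂Hom (((Ideal.Quotient.mk q.asIdeal).comp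
      (algebraMap (MvPolynomial τ ℂ) S)).comp C)
      (fun i => Ideal.Quotient.mk q.asIdeal (π (X i)))
  have hψ : ψ.comp (map (eval a)) = (Ideal.Quotient.mk q.asIdeal).comp π := by
    apply MvPolynomial.ringHom_ext
    · intro r
      simp only [RingHom.comp_apply, map_C, ψ, coe_eval₂Hom, eval₂_C]
      rw [hπC, ← sub_eq_zero, ← map_sub, Ideal.Quotient.eq_zero_iff_mem]
      have h1 : C (eval a r) - r ∈
          (PrimeSpectrum.comap (algebraMap (MvPolynomial τ ℂ) S) q).asIdeal := by
        rw [hq]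
        simp [PrimeSpectrum.comap_asIdeal, Ideal.mem_comap]
      rw [PrimeSpectrum.comap_asIdeal, Ideal.mem_comap, map_sub] at h1
      exact h1
    · intro i
      simp only [RingHom.comp_apply, map_X, ψ, coe_eval₂Hom, eval₂_X]
  have hle : Ideal.span (Set.range fun i => map (eval a) (F i)) ≤ RingHom.ker ψ := by
    rw [Ideal.span_le]
    rintro _ ⟨i, rfl⟩
    show ψ (map (eval a) (F i)) = 0
    rw [← RingHom.comp_apply, hψ, RingHom.comp_apply, hπF, map_zero]
  rw [htop] at hle
  have h1 : ψ 1 = 0 := hle (Submodule.mem_top)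
  rw [map_one] at h1
  have h2 : Nontrivial (S ⧸ q.asIdeal) := Ideal.Quotient.nontrivial_iff.2 q.isPrime.ne_top
  exact one_ne_zero h1

/-- `ℂ`-points of the image of a square system. -/
theorem exists_comap_iff {τ : Type u} {ι : Type v} [Finite ι]
    (F : ι → MvPolynomial ι (MvPolynomial τ ℂ)) (a : τ → ℂ) :
    (∃ q : PrimeSpectrum (MvPolynomial ι (MvPolynomial τ ℂ) ⧸ Ideal.span (Set.range F)),
      PrimeSpectrum.comap (algebraMap (MvPolynomial τ ℂ)
        (MvPolynomial ι (MvPolynomial τ ℂ) ⧸ Ideal.span (Set.range F))) q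
        = PrimeSpectrum.comap (eval a) ⊥) ↔
      ∃ z : ι → ℂ, ∀ i, ev2 a z (F i) = 0 := by
  constructor
  · rintro ⟨q, hq⟩
    exact exists_zero_of_comap (S := MvPolynomial ι (MvPolynomial τ ℂ) ⧸ Ideal.span (Set.range F))
      F a (Ideal.Quotient.mk (Ideal.span (Set.range F)))
      (fun r => rfl) (fun i => Ideal.Quotient.eq_zero_iff_mem.2 (Ideal.subset_span ⟨i, rfl⟩)) q hq
  · rintro ⟨z, hz⟩
    have hle : Ideal.span (Set.range F) ≤ RingHom.ker (ev2 a z) := by
      rw [Ideal.span_le]
      rintro _ ⟨i, rfl⟩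
      exact hz i
    let φ : (MvPolynomial ι (MvPolynomial τ ℂ) ⧸ Ideal.span (Set.range F)) →+* ℂ :=
      Ideal.Quotient.lift _ (ev2 a z) hle
    refine ⟨PrimeSpectrum.comap φ ⊥, ?_⟩
    rw [← PrimeSpectrum.comap_comp_apply]
    have : φ.comp (algebraMap (MvPolynomial τ ℂ)
        (MvPolynomial ι (MvPolynomial τ ℂ) ⧸ Ideal.span (Set.range F))) = eval a := by
      apply RingHom.ext
      intro r
      exact ev2_C a z r
    rw [this]

theorem isUnit_of_mul {S : Type*} [CommRing S] {a b : S} (h : a * b = 1) : IsUnit a :=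
  IsUnit.of_mul_eq_one b h

/-- **Open image.** The set of parameters for which a square polynomial system has a solution
with nonvanishing Jacobian and `h ≠ 0` is Zariski open. -/
theorem exists_zariski_open {τ : Type u} {ι : Type v} [Fintype ι] [DecidableEq ι]
    (F : ι → MvPolynomial ι (MvPolynomial τ ℂ)) (h : MvPolynomial ι (MvPolynomial τ ℂ)) :
    ∃ T : Set (MvPolynomial τ ℂ), ∀ a : τ → ℂ,
      (∃ z : ι → ℂ, (∀ i, ev2 a z (F i) = 0) ∧
        ev2 a z (Matrix.det (Matrix.of fun i j => pderiv i (F j))) ≠ 0 ∧ ev2 a z h ≠ 0) ↔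
      ∃ f ∈ T, eval a f ≠ 0 := by
  classical
  set J : MvPolynomial ι (MvPolynomial τ ℂ) :=
    Matrix.det (Matrix.of fun i j => pderiv i (F j)) with hJ
  let G : ι ⊕ Unit → MvPolynomial (ι ⊕ Unit) (MvPolynomial τ ℂ) :=
    Sum.elim (fun i => rename Sum.inl (F i)) (fun _ => X (Sum.inr ()) * rename Sum.inl (J * h) - 1)
  have hdet : Matrix.det (Matrix.of fun i j => pderiv i (G j)) =
      rename Sum.inl J * rename Sum.inl (J * h) := by
    have : (Matrix.of fun i j => pderiv i (G j)) = Matrix.fromBlocks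
        ((rename Sum.inl : MvPolynomial ι (MvPolynomial τ ℂ) →ₐ[MvPolynomial τ ℂ] _).toRingHom.mapMatrix
          (Matrix.of fun i j => pderiv i (F j)))
        (Matrix.of fun i _ => pderiv (Sum.inl i) (G (Sum.inr ()))) 0
        (Matrix.of fun (_ _ : Unit) => rename Sum.inl (J * h)) := by
      apply Matrix.ext
      rintro (i | i) (j | j)
      · simp [G, pderiv_rename Sum.inl_injective]
      · simp
      · simp only [Matrix.of_apply, Matrix.fromBlocks_apply₂₁, Matrix.zero_apply, G, Sum.elim_inl]
        apply pderiv_eq_zero_of_notMem_vars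
        intro hmem
        have := vars_rename _ _ hmem
        simp at this
      · simp only [Matrix.of_apply, Matrix.fromBlocks_apply₂₂, G, Sum.elim_inr, map_sub,
          Derivation.leibniz, pderiv_X_self, Derivation.map_one_eq_zero, sub_zero]
        rw [pderiv_eq_zero_of_notMem_vars (f := rename Sum.inl (J * h))]
        · simp
        · intro hmem
          have := vars_rename _ _ hmem
          simp at this
    rw [this, Matrix.det_fromBlocks_zero₂₁]
    congr 1
    · rw [← RingHom.map_det]
      rfl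
    · simp
  have hunit : IsUnit (Ideal.Quotient.mk (Ideal.span (Set.range G))
      (Matrix.det (Matrix.of fun i j => pderiv i (G j)))) := by
    rw [hdet]
    have h1 : Ideal.Quotient.mk (Ideal.span (Set.range G)) (G (Sum.inr ())) = 0 :=
      Ideal.Quotient.eq_zero_iff_mem.2 (Ideal.subset_span ⟨_, rfl⟩)
    simp only [G, Sum.elim_inr, map_sub, map_mul, map_one, sub_eq_zero] at h1
    rw [map_mul, map_mul, map_mul]
    refine IsUnit.mul ?_ ?_
    · refine isUnit_of_mul (b := Ideal.Quotient.mk (Ideal.span (Set.range G)) (X (Sum.inr ())) *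
        Ideal.Quotient.mk (Ideal.span (Set.range G)) (rename Sum.inl h)) ?_
      rw [← h1]
      ring
    · refine isUnit_of_mul (b := Ideal.Quotient.mk (Ideal.span (Set.range G)) (X (Sum.inr ()))) ?_
      rw [← h1]
      ring
  have hopen := (isOpenMap_of_isUnit_jacobian G hunit) Set.univ isOpen_univ
  obtain ⟨T, hT⟩ := (PrimeSpectrum.isOpen_iff _).1 hopen
  refine ⟨T, fun a => ?_⟩
  have h1 : (∃ f ∈ T, eval a f ≠ 0) ↔
      ∃ q : PrimeSpectrum (MvPolynomial (ι ⊕ Unit) (MvPolynomial τ ℂ) ⧸ Ideal.span (Set.range G)),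
      PrimeSpectrum.comap (algebraMap (MvPolynomial τ ℂ)
        (MvPolynomial (ι ⊕ Unit) (MvPolynomial τ ℂ) ⧸ Ideal.span (Set.range G))) q
        = PrimeSpectrum.comap (eval a) ⊥ := by
    have h2 : (PrimeSpectrum.comap (eval a) (⊥ : PrimeSpectrum ℂ)) ∈ PrimeSpectrum.zeroLocus T ↔
        ∀ f ∈ T, eval a f = 0 := by
      rw [PrimeSpectrum.mem_zeroLocus]
      constructor
      · intro h f hf
        have := h hf
        simpa [PrimeSpectrum.comap_asIdeal, Ideal.mem_comap] using this
      · intro h f hf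
        simpa [PrimeSpectrum.comap_asIdeal, Ideal.mem_comap] using h f hf
    rw [← hT] at h2
    rw [Set.mem_compl_iff] at h2
    constructor
    · intro h3
      have h4 : ¬ ∀ f ∈ T, eval a f = 0 := by
        push Not
        exact h3
      rw [← h2, not_not] at h4
      obtain ⟨q, -, hq⟩ := h4
      exact ⟨q, hq⟩
    · rintro ⟨q, hq⟩
      by_contra h3
      push Not at h3
      exact (h2.2 h3) ⟨q, Set.mem_univ _, hq⟩
  rw [h1, exists_comap_iff]
  constructor
  · rintro ⟨z, hz, hz1, hz2⟩
    refine ⟨Sum.elim z (fun _ => (ev2 a z (J * h))⁻¹), ?_⟩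
    rintro (i | i)
    · simp only [G, Sum.elim_inl, ev2_rename, Sum.elim_comp_inl]
      exact hz i
    · simp only [G, Sum.elim_inr, map_sub, map_mul, ev2_rename, Sum.elim_comp_inl, ev2_X, map_one]
      have : ev2 a z J * ev2 a z h ≠ 0 := mul_ne_zero hz1 hz2
      field_simp
      ring
  · rintro ⟨z, hz⟩
    refine ⟨z ∘ Sum.inl, fun i => ?_, ?_, ?_⟩
    · have := hz (Sum.inl i)
      simpa only [G, Sum.elim_inl, ev2_rename] using this
    · intro h0
      have := hz (Sum.inr ())
      simp only [G, Sum.elim_inr, map_sub, map_mul, ev2_rename, ev2_X, map_one] at this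
      rw [h0] at this
      simp at this
    · intro h0
      have := hz (Sum.inr ())
      simp only [G, Sum.elim_inr, map_sub, map_mul, ev2_rename, ev2_X, map_one] at this
      rw [h0] at this
      simp at this

end Pool.Agent.Work.MP_d6d6e6_ag
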