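import Pool.Agent.Work.MP_d6d6e6_ag.LocalC
import Pool.Agent.Work.MP_d6d6e6_ag.OpenImage

/-! Among reduced singularities, centers are described by polynomial equations in the
coefficients of the form and the coordinates of the point. -/

open Finsupp Filter Topology MvPolynomial

set_option linter.unusedSectionVars false
set_option linter.unusedVariables false

namespace Pool.Agent.Work.MP_d6d6e6_ag

/-! ### Centers of forms and centers of vector fields -/

theorem wedge_eq {d : ℕ} (ω : Form d) (f : (Fin 2 → ℂ) → ℂ) (z : Fin 2 → ℂ) :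
    wedge (valueAt ω z) (differential f z) = -(fderiv ℂ f z (pvf (poly ω) z)) := by
  rw [clm_apply (fderiv ℂ f z) (pvf (poly ω) z)]
  simp only [wedge, valueAt, differential, pvf, Matrix.cons_val_zero, Matrix.cons_val_one]
  ring

theorem isCenter_iff {d : ℕ} (ω : Form d) (p : Fin 2 → ℂ) :
    IsCenter ω p ↔ IsReducedSingularity ω p ∧ HasCenter (pvf (poly ω)) p := by
  rw [IsCenter, HasCenter]
  refine and_congr_right fun _ => ?_
  refine exists_congr fun u => exists_congr fun v => and_congr_right fun _ => ?_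
  refine eventually_congr (Eventually.of_forall fun z => ?_)
  rw [wedge_eq, neg_eq_zero]

theorem dl_eq {d : ℕ} (ω : Form d) (p : Fin 2 → ℂ) :
    eval p (pderiv 0 (poly ω 0) * pderiv 1 (poly ω 1) -
      pderiv 1 (poly ω 0) * pderiv 0 (poly ω 1)) = dl (poly ω) p := by
  rw [dl, map_sub, map_mul, map_mul]
  rfl

theorem isReduced_iff {d : ℕ} (ω : Form d) (p : Fin 2 → ℂ) :
    IsReducedSingularity ω p ↔ (∀ i, eval p (poly ω i) = 0) ∧ dl (poly ω) p ≠ 0 := by
  rw [IsReducedSingularity, dl_eq, IsSingularity, Fin.forall_fin_two]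

theorem hasFDerivAt_pvf (V : Fin 2 → MvPolynomial (Fin 2) ℂ) (p : Fin 2 → ℂ) :
    ∃ J : (Fin 2 → ℂ) →L[ℂ] (Fin 2 → ℂ), HasFDerivAt (pvf V) J p ∧
      ∀ v, J v = ![jac V p 0 0 * v 0 + jac V p 0 1 * v 1,
        jac V p 1 0 * v 0 + jac V p 1 1 * v 1] := by
  refine ⟨ContinuousLinearMap.pi fun i => ∑ j, eval p (pderiv j (V i)) •
    (ContinuousLinearMap.proj j : (Fin 2 → ℂ) →L[ℂ] ℂ), ?_, ?_⟩
  · rw [hasFDerivAt_pi']
    intro i
    have := hasFDerivAt_eval (V i) p
    fin_cases i
    · exact this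
    · exact this
  · intro v
    ext i
    have : ∀ i, (ContinuousLinearMap.pi fun i => ∑ j, eval p (pderiv j (V i)) •
        (ContinuousLinearMap.proj j : (Fin 2 → ℂ) →L[ℂ] ℂ)) v i =
        jac V p i 0 * v 0 + jac V p i 1 * v 1 := by
      intro i
      rw [ContinuousLinearMap.pi_apply, _root_.sum_apply, Fin.sum_univ_two]
      rfl
    fin_cases i
    · exact this 0
    · exact this 1

theorem trace_eq_zero_of_center (V : Fin 2 → MvPolynomial (Fin 2) ℂ) (p : Fin 2 → ℂ)
    (hV0 : ∀ i, eval p (V i) = 0) (h : HasCenter (pvf V) p) :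
    jac V p 0 0 + jac V p 1 1 = 0 := by
  obtain ⟨J, hJ, hJv⟩ := hasFDerivAt_pvf V p
  have h0 : pvf V p = 0 := by
    rw [pvf, hV0, hV0]
    ext i
    fin_cases i <;> rfl
  have := trace_eq_zero hJ h0 h
  rw [hJv, hJv] at this
  simpa using this

/-! ### Universal objects -/

/-- Polynomials in the point with coefficients polynomials in the coefficients of the form. -/
abbrev UA (d : ℕ) : Type := MvPolynomial (Fin 2) (MvPolynomial (Fin 2 × Mon d) ℂ)

/-- Polynomials in the eigenvalue. -/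
abbrev UO (d : ℕ) : Type := Polynomial (UA d)

/-- the universal polynomials -/
noncomputable def upoly (d : ℕ) (k : Fin 2) : UA d :=
  ∑ m : Mon d, C (X (k, m)) * (X 0 ^ (m.1.1 : ℕ) * X 1 ^ (m.1.2 : ℕ))

theorem map_upoly {d : ℕ} (ω : Form d) (k : Fin 2) : map (eval ω) (upoly d k) = poly ω k := by
  rw [upoly, poly, map_sum]
  refine Finset.sum_congr rfl fun m _ => ?_
  rw [map_mul, map_mul, map_pow, map_pow, map_X, map_X, map_C, eval_X]

theorem ev2_upoly {d : ℕ} (ω : Form d) (p : Fin 2 → ℂ) (k : Fin 2) :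
    ev2 ω p (upoly d k) = eval p (poly ω k) := by
  rw [ev2_eq_eval_map, map_upoly]

/-- the evaluation at a form, a point and an eigenvalue -/
noncomputable def evO {d : ℕ} (ω : Form d) (p : Fin 2 → ℂ) (l : ℂ) : UO d →ₐ[ℂ] ℂ :=
  { Polynomial.eval₂RingHom (ev2 ω p) l with
    commutes' := by
      intro c
      show Polynomial.eval₂ (ev2 ω p) l (algebraMap ℂ (UO d) c) = c
      have : algebraMap ℂ (UO d) c = Polynomial.C (C (C c)) := rfl
      rw [this, Polynomial.eval₂_C, ev2_C, eval_C] }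

theorem evO_apply {d : ℕ} (ω : Form d) (p : Fin 2 → ℂ) (l : ℂ) (f : UO d) :
    evO ω p l f = Polynomial.eval₂ (ev2 ω p) l f := rfl

theorem evO_coe {d : ℕ} (ω : Form d) (p : Fin 2 → ℂ) (l : ℂ) (f : UO d) :
    (evO ω p l : UO d →+* ℂ) f = Polynomial.eval₂ (ev2 ω p) l f := rfl

/-- universal vector field over `UO d` -/
noncomputable def uV (d : ℕ) (k : Fin 2) : MvPolynomial (Fin 2) (UO d) :=
  map ((Polynomial.C : UA d →+* UO d).comp C) (upoly d k)

/-- universal point -/
noncomputable def uP (d : ℕ) (i : Fin 2) : UO d := Polynomial.C (X i)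

/-- universal obstruction -/
noncomputable def uobs (d : ℕ) (w : Fin 2 → ℂ) : PS (UO d) :=
  obs (H0 (uV d) (uP d) Polynomial.X (fun i => algebraMap ℂ (UO d) (w i)))
    (H1 (uV d) (uP d) Polynomial.X (fun i => algebraMap ℂ (UO d) (w i)))

theorem map_uobs {d : ℕ} (ω : Form d) (p : Fin 2 → ℂ) (l : ℂ) (w : Fin 2 → ℂ) :
    MvPowerSeries.map (evO ω p l : UO d →+* ℂ) (uobs d w) =
      obs (H0 (poly ω) p l w) (H1 (poly ω) p l w) := by
  have hV : (fun k => map (evO ω p l : UO d →+* ℂ) (uV d k)) = poly ω := by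
    funext k
    rw [uV, MvPolynomial.map_map]
    have : ((evO ω p l : UO d →+* ℂ)).comp ((Polynomial.C : UA d →+* UO d).comp C) =
        eval ω := by
      apply RingHom.ext
      intro r
      rw [RingHom.comp_apply, RingHom.comp_apply, evO_coe, Polynomial.eval₂_C, ev2_C]
    rw [this, map_upoly]
  have hP : (fun k => (evO ω p l : UO d →+* ℂ) (uP d k)) = p := by
    funext k
    rw [evO_coe, uP, Polynomial.eval₂_C, ev2_X]
  have hl : (evO ω p l : UO d →+* ℂ) Polynomial.X = l := by
    rw [evO_coe, Polynomial.eval₂_X]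
  have hw : (fun k => (evO ω p l : UO d →+* ℂ) (algebraMap ℂ (UO d) (w k))) = w := by
    funext k
    exact (evO ω p l).commutes (w k)
  have h1 := obs_map (evO ω p l)
    (H0 (uV d) (uP d) Polynomial.X (fun i => algebraMap ℂ (UO d) (w i)))
    (H1 (uV d) (uP d) Polynomial.X (fun i => algebraMap ℂ (UO d) (w i)))
  rw [uobs]
  refine h1.symm.trans ?_
  rw [← map_H0, ← map_H1, hV, hP, hl, hw]

/-- universal discriminant -/
noncomputable def udl (d : ℕ) : UA d :=
  pderiv 0 (upoly d 0) * pderiv 1 (upoly d 1) - pderiv 1 (upoly d 0) * pderiv 0 (upoly d 1)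

theorem ev2_pderiv_upoly {d : ℕ} (ω : Form d) (p : Fin 2 → ℂ) (i j : Fin 2) :
    ev2 ω p (pderiv j (upoly d i)) = jac (poly ω) p i j := by
  rw [ev2_eq_eval_map, ← pderiv_map, map_upoly]
  rfl

theorem ev2_udl {d : ℕ} (ω : Form d) (p : Fin 2 → ℂ) : ev2 ω p (udl d) = dl (poly ω) p := by
  rw [udl, dl, map_sub, map_mul, map_mul, ev2_pderiv_upoly, ev2_pderiv_upoly, ev2_pderiv_upoly,
    ev2_pderiv_upoly]

/-- universal trace -/
noncomputable def utr (d : ℕ) : UA d := pderiv 0 (upoly d 0) + pderiv 1 (upoly d 1)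

theorem ev2_utr {d : ℕ} (ω : Form d) (p : Fin 2 → ℂ) :
    ev2 ω p (utr d) = jac (poly ω) p 0 0 + jac (poly ω) p 1 1 := by
  rw [utr, map_add, ev2_pderiv_upoly, ev2_pderiv_upoly]

/-- universal determinant `det (M w, w)` -/
noncomputable def uqq (d : ℕ) (w : Fin 2 → ℂ) : UA d :=
  (pderiv 0 (upoly d 0) * C (C (w 0)) + pderiv 1 (upoly d 0) * C (C (w 1))) * C (C (w 1)) -
    (pderiv 0 (upoly d 1) * C (C (w 0)) + pderiv 1 (upoly d 1) * C (C (w 1))) * C (C (w 0))

theorem ev2_uqq {d : ℕ} (ω : Form d) (p : Fin 2 → ℂ) (w : Fin 2 → ℂ) :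
    ev2 ω p (uqq d w) = qq (poly ω) p w := by
  rw [uqq, qq, jw, jw]
  simp only [map_sub, map_mul, map_add, ev2_pderiv_upoly, ev2_C, eval_C]

/-- remainder modulo `l ^ 2 + δ` of the coefficients of the universal obstruction -/
noncomputable def urem (d : ℕ) (w : Fin 2 → ℂ) (m : Fin 2 →₀ ℕ) : UO d :=
  MvPowerSeries.coeff m (uobs d w) %ₘ (Polynomial.X ^ 2 + Polynomial.C (udl d))

theorem evO_urem {d : ℕ} (ω : Form d) (p : Fin 2 → ℂ) (l : ℂ) (hl : l ^ 2 = -dl (poly ω) p)
    (w : Fin 2 → ℂ) (m : Fin 2 →₀ ℕ) :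
    evO ω p l (MvPowerSeries.coeff m (uobs d w)) =
      ev2 ω p ((urem d w m).coeff 0) + ev2 ω p ((urem d w m).coeff 1) * l := by
  have hm : (Polynomial.X ^ 2 + Polynomial.C (udl d) : UO d).Monic :=
    Polynomial.monic_X_pow_add_C _ two_ne_zero
  have hdeg : (Polynomial.X ^ 2 + Polynomial.C (udl d) : UO d).natDegree = 2 :=
    Polynomial.natDegree_X_pow_add_C
  have h1 := Polynomial.modByMonic_add_div (MvPowerSeries.coeff m (uobs d w))
    (Polynomial.X ^ 2 + Polynomial.C (udl d))
  have h2 : (urem d w m).natDegree < 2 := by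
    have := Polynomial.natDegree_modByMonic_lt (MvPowerSeries.coeff m (uobs d w)) hm (by
      intro h
      rw [h] at hdeg
      simp at hdeg)
    rwa [hdeg] at this
  have h3 : urem d w m = Polynomial.C ((urem d w m).coeff 1) * Polynomial.X +
      Polynomial.C ((urem d w m).coeff 0) :=
    Polynomial.eq_X_add_C_of_natDegree_le_one (by omega)
  rw [← h1, evO_apply, Polynomial.eval₂_add, Polynomial.eval₂_mul, Polynomial.eval₂_add,
    Polynomial.eval₂_X_pow, Polynomial.eval₂_C, ev2_udl, hl]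
  show Polynomial.eval₂ (ev2 ω p) l (urem d w m) + _ = _
  rw [h3, Polynomial.eval₂_add, Polynomial.eval₂_mul, Polynomial.eval₂_X, Polynomial.eval₂_C,
    Polynomial.eval₂_C, ← h3]
  ring

/-- The polynomials vanishing at centers. -/
def centerEqs (d : ℕ) : Set (UA d) :=
  {utr d} ∪ {g | ∃ w m k, g = uqq d w * (urem d w m).coeff k}

theorem exists_qq_ne_zero (V : Fin 2 → MvPolynomial (Fin 2) ℂ) (p : Fin 2 → ℂ)
    (htr : jac V p 0 0 + jac V p 1 1 = 0) (hdl : dl V p ≠ 0) : ∃ w, qq V p w ≠ 0 := by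
  by_contra h
  push Not at h
  have h1 := h ![1, 0]
  have h2 := h ![0, 1]
  have h3 := h ![1, 1]
  simp only [qq, jw, Matrix.cons_val_zero, Matrix.cons_val_one] at h1 h2 h3
  apply hdl
  rw [dl]
  have h4 : jac V p 1 0 = 0 := by linear_combination -h1
  have h5 : jac V p 0 1 = 0 := by linear_combination h2
  rw [h4, h5] at h3 ⊢
  have h6 : jac V p 0 0 = 0 := by linear_combination (1 / 2) * h3 + (1 / 2) * htr
  rw [h6]
  ring

theorem isCenter_iff_eqs {d : ℕ} (ω : Form d) (p : Fin 2 → ℂ) (h : IsReducedSingularity ω p) :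
    IsCenter ω p ↔ ∀ g ∈ centerEqs d, ev2 ω p g = 0 := by
  rw [isCenter_iff, and_iff_right h]
  obtain ⟨hV0, hdl⟩ := (isReduced_iff ω p).1 h
  obtain ⟨l, hl⟩ : ∃ l : ℂ, l ^ 2 = -dl (poly ω) p :=
    IsAlgClosed.exists_pow_nat_eq _ (by norm_num)
  have hl0 : l ≠ 0 := by
    rintro rfl
    apply hdl
    linear_combination hl
  have key : ∀ (l : ℂ), l ^ 2 = -dl (poly ω) p → ∀ w, jac (poly ω) p 0 0 + jac (poly ω) p 1 1 = 0 →
      qq (poly ω) p w ≠ 0 → (HasCenter (pvf (poly ω)) p ↔ ∀ m,
        ev2 ω p ((urem d w m).coeff 0) + ev2 ω p ((urem d w m).coeff 1) * l = 0) := by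
    intro l hl w htr hqq
    rw [hasCenter_iff_obs (poly ω) p l w hV0 htr hl hdl hqq, ← map_uobs, MvPowerSeries.ext_iff]
    refine forall_congr' fun m => ?_
    rw [MvPowerSeries.coeff_map, map_zero, ← evO_urem ω p l hl w m]
    rfl
  constructor
  · intro hc g hg
    have htr := trace_eq_zero_of_center (poly ω) p hV0 hc
    rcases hg with hg | ⟨w, m, k, rfl⟩
    · rw [Set.mem_singleton_iff.1 hg, ev2_utr, htr]
    · rw [map_mul, ev2_uqq]
      by_cases hqq : qq (poly ω) p w = 0
      · rw [hqq, zero_mul]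
      · have h1 := (key l hl w htr hqq).1 hc m
        have h2 := (key (-l) (by rw [neg_pow_two]; exact hl) w htr hqq).1 hc m
        have h3 : ev2 ω p ((urem d w m).coeff 0) = 0 := by
          linear_combination (1 / 2) * h1 + (1 / 2) * h2
        have h4 : ev2 ω p ((urem d w m).coeff 1) = 0 := by
          have : ev2 ω p ((urem d w m).coeff 1) * l = 0 := by
            linear_combination (1 / 2) * h1 - (1 / 2) * h2
          exact (mul_eq_zero.1 this).resolve_right hl0
        have h5 : ev2 ω p ((urem d w m).coeff k) = 0 := by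
          by_cases hk : k < 2
          · interval_cases k
            · exact h3
            · exact h4
          · have : (urem d w m).coeff k = 0 := by
              apply Polynomial.coeff_eq_zero_of_natDegree_lt
              have hm : (Polynomial.X ^ 2 + Polynomial.C (udl d) : UO d).Monic :=
                Polynomial.monic_X_pow_add_C _ two_ne_zero
              have hdeg : (Polynomial.X ^ 2 + Polynomial.C (udl d) : UO d).natDegree = 2 :=
                Polynomial.natDegree_X_pow_add_C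
              have := Polynomial.natDegree_modByMonic_lt
                (MvPowerSeries.coeff m (uobs d w)) hm (by
                intro h
                rw [h] at hdeg
                simp at hdeg)
              rw [hdeg] at this
              exact lt_of_lt_of_le this (not_lt.1 hk)
            rw [this, map_zero]
        rw [h5, mul_zero]
  · intro hI
    have htr : jac (poly ω) p 0 0 + jac (poly ω) p 1 1 = 0 := by
      rw [← ev2_utr]
      exact hI _ (Or.inl rfl)
    obtain ⟨w, hqq⟩ := exists_qq_ne_zero (poly ω) p htr hdl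
    rw [key l hl w htr hqq]
    intro m
    have h1 : ∀ k, ev2 ω p ((urem d w m).coeff k) = 0 := by
      intro k
      have := hI _ (Or.inr ⟨w, m, k, rfl⟩)
      rw [map_mul, ev2_uqq] at this
      exact (mul_eq_zero.1 this).resolve_left hqq
    rw [h1, h1, zero_mul, add_zero]

end Pool.Agent.Work.MP_d6d6e6_ag
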