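import Pool.Agent.Work.MP_d6d6e6_ag.PolyDeriv

/-!
A cheap Bezout inequality for nondegenerate zeros over the complex numbers
(the complex version of the inequality of helper87 for real polynomials).
-/

open MvPolynomial Filter Topology

namespace Pool.Agent.Work.MP_d6d6e6_ag

variable {σ : Type*} [Fintype σ]

/-- The polynomial map attached to a tuple of polynomials. -/
noncomputable def polyMap (P : σ → MvPolynomial σ ℂ) (y : σ → ℂ) : σ → ℂ := fun i => eval y (P i)

theorem differentiable_polyMap (P : σ → MvPolynomial σ ℂ) : Differentiable ℂ (polyMap P) :=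
  differentiable_pi.2 fun i => differentiable_eval (P i)

/-- A polynomial which is nonzero at `z` and vanishes at the other points of `Z`. -/
theorem exists_interp (Z : Finset (σ → ℂ)) (z : σ → ℂ) :
    ∃ g : MvPolynomial σ ℂ, eval z g ≠ 0 ∧ ∀ z' ∈ Z, z' ≠ z → eval z' g = 0 := by
  classical
  have h : ∀ z' : σ → ℂ, ∃ g : MvPolynomial σ ℂ, eval z g ≠ 0 ∧ (z' ≠ z → eval z' g = 0) := by
    intro z'
    by_cases hz : z' = z
    · exact ⟨1, by simp, fun h => absurd hz h⟩
    · obtain ⟨i, hi⟩ := Function.ne_iff.1 hz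
      refine ⟨X i - C (z' i), ?_, fun _ => by simp⟩
      simp only [map_sub, eval_X, eval_C]
      exact sub_ne_zero.2 (Ne.symm hi)
  choose g hg1 hg2 using h
  refine ⟨∏ z' ∈ Z, g z', ?_, ?_⟩
  · rw [map_prod]
    exact Finset.prod_ne_zero_iff.2 fun z' _ => hg1 z'
  · intro z' hz' hne
    rw [map_prod]
    exact Finset.prod_eq_zero hz' (hg2 z' hne)

/-- Key linear independence statement. -/
theorem key_indep [DecidableEq σ] (P : σ → MvPolynomial σ ℂ) (Z : Finset (σ → ℂ))
    (hZ : ∀ z ∈ Z, ∀ i, eval z (P i) = 0)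
    (hJ : ∀ z ∈ Z, (fderiv ℂ (polyMap P) z).det ≠ 0)
    (g : (σ → ℂ) → MvPolynomial σ ℂ) (hg1 : ∀ z ∈ Z, eval z (g z) ≠ 0)
    (hg2 : ∀ z ∈ Z, ∀ z' ∈ Z, z' ≠ z → eval z' (g z) = 0) (t : ℕ)
    (c : Z × (σ → Fin t) → ℂ)
    (hc : ∑ k, c k • (g k.1 * ∏ i, P i ^ (k.2 i : ℕ)) = 0) : ∀ k, c k = 0 := by
  classical
  -- strong induction on the order
  suffices H : ∀ r : ℕ, ∀ k : Z × (σ → Fin t), ∑ i, (k.2 i : ℕ) = r → c k = 0 from
    fun k => H _ k rfl
  intro r
  induction r using Nat.strong_induction_on with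
  | _ r ih =>
  -- the homogeneous part at `z0` vanishes
  have main : ∀ z0 : Z, ∀ u : σ → ℂ,
      ∑ a : σ → Fin t, (if ∑ i, (a i : ℕ) = r then
        c (z0, a) * eval z0.1 (g z0.1) * ∏ i, u i ^ (a i : ℕ) else 0) = 0 := by
    intro z0 u
    set A := fderiv ℂ (polyMap P) z0.1 with hA
    have hdet : A.det ≠ 0 := hJ z0.1 z0.2
    -- a preimage of `u`
    obtain ⟨w, hw⟩ : ∃ w, A w = u := by
      have hunit : IsUnit (LinearMap.det (A : (σ → ℂ) →ₗ[ℂ] (σ → ℂ))) :=
        isUnit_iff_ne_zero.2 hdet
      have hsurj := (LinearEquiv.ofIsUnitDet (f := (A : (σ → ℂ) →ₗ[ℂ] (σ → ℂ)))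
        (v := Pi.basisFun ℂ σ) (v' := Pi.basisFun ℂ σ) (by
          rw [LinearMap.det_toMatrix]; exact hunit)).surjective
      obtain ⟨w, hw⟩ := hsurj u
      exact ⟨w, hw⟩
    -- restriction to the line
    set q : σ → ℂ → ℂ := fun i τ => eval (z0.1 + τ • w) (P i) with hq
    have hline : HasDerivAt (fun τ : ℂ => z0.1 + τ • w) w 0 := by
      simpa using ((hasDerivAt_id (0:ℂ)).smul_const w).const_add z0.1
    have hqd : ∀ i, HasDerivAt (q i) (u i) 0 := by
      intro i
      have h1 : HasFDerivAt (polyMap P) A (z0.1 + (0:ℂ) • w) := by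
        rw [zero_smul, add_zero]
        exact (differentiable_polyMap P z0.1).hasFDerivAt
      have h2 : HasDerivAt (polyMap P ∘ fun τ : ℂ => z0.1 + τ • w) (A w) 0 :=
        h1.comp_hasDerivAt (0:ℂ) hline
      have h3 := (hasDerivAt_pi.1 h2) i
      rw [hw] at h3
      exact h3
    have hq0 : ∀ i, q i 0 = 0 := by
      intro i
      simp only [hq, zero_smul, add_zero]
      exact hZ z0.1 z0.2 i
    set Q : σ → ℂ → ℂ := fun i => dslope (q i) 0 with hQ
    have hQ0 : ∀ i, Q i 0 = u i := fun i => by
      simp only [hQ, dslope_same]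
      exact (hqd i).deriv
    have hQc : ∀ i, ContinuousAt (Q i) 0 := fun i =>
      continuousAt_dslope_same.2 (hqd i).differentiableAt
    have hqQ : ∀ i τ, q i τ = τ * Q i τ := by
      intro i τ
      have := sub_smul_dslope (q i) 0 τ
      rw [hq0, sub_zero, sub_zero, smul_eq_mul] at this
      exact this.symm
    -- the auxiliary function
    set S : ℂ → ℂ := fun τ => ∑ k : Z × (σ → Fin t),
      (if r ≤ ∑ i, (k.2 i : ℕ) then
        c k * eval (z0.1 + τ • w) (g k.1) * τ ^ (∑ i, (k.2 i : ℕ) - r) *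
          ∏ i, Q i τ ^ (k.2 i : ℕ) else 0) with hS
    have hSzero : ∀ τ : ℂ, τ ≠ 0 → S τ = 0 := by
      intro τ hτ
      have h1 : τ ^ r * S τ = 0 := by
        have h2 := congrArg (eval (z0.1 + τ • w)) hc
        rw [map_zero, map_sum] at h2
        rw [← h2, hS]
        simp only
        rw [Finset.mul_sum]
        refine Finset.sum_congr rfl fun k _ => ?_
        rw [smul_eval, map_mul, map_prod]
        by_cases hk : r ≤ ∑ i, (k.2 i : ℕ)
        · rw [if_pos hk]
          have h3 : ∏ i, (eval (z0.1 + τ • w)) (P i ^ (k.2 i : ℕ))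
              = τ ^ (∑ i, (k.2 i : ℕ)) * ∏ i, Q i τ ^ (k.2 i : ℕ) := by
            rw [← Finset.prod_pow_eq_pow_sum, ← Finset.prod_mul_distrib]
            refine Finset.prod_congr rfl fun i _ => ?_
            rw [map_pow, ← mul_pow, ← hqQ]
          rw [h3]
          have h4 : τ ^ (∑ i, (k.2 i : ℕ)) = τ ^ r * τ ^ (∑ i, (k.2 i : ℕ) - r) := by
            rw [← pow_add, Nat.add_sub_cancel' hk]
          rw [h4]
          ring
        · rw [if_neg hk, ih _ (not_le.1 hk) k rfl]
          simp
      rcases mul_eq_zero.1 h1 with h | h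
      · exact absurd h (pow_ne_zero r hτ)
      · exact h
    have hScont : ContinuousAt S 0 := by
      rw [hS]
      refine tendsto_finsetSum _ fun k _ => ?_
      by_cases hk : r ≤ ∑ i, (k.2 i : ℕ)
      · simp only [if_pos hk]
        refine ContinuousAt.mul (ContinuousAt.mul (ContinuousAt.mul continuousAt_const ?_) ?_) ?_
        · have h1 : Continuous (fun τ : ℂ => eval (z0.1 + τ • w) (g k.1)) :=
            (MvPolynomial.continuous_eval (g k.1)).comp (by fun_prop)
          exact h1.continuousAt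
        · exact (continuous_pow _).continuousAt
        · exact tendsto_finsetProd _ fun i _ => (hQc i).pow _
      · simp only [if_neg hk]
        exact tendsto_const_nhds
    have hS0 : S 0 = 0 := by
      have h1 : Tendsto S (𝓝[≠] 0) (𝓝 (S 0)) := hScont.tendsto.mono_left nhdsWithin_le_nhds
      have h2 : Tendsto S (𝓝[≠] 0) (𝓝 0) := by
        refine tendsto_const_nhds.congr' ?_
        filter_upwards [self_mem_nhdsWithin] with τ hτ
        exact (hSzero τ hτ).symm
      exact tendsto_nhds_unique h1 h2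
    refine Eq.trans ?_ hS0
    rw [hS]
    simp only
    rw [Fintype.sum_prod_type, Finset.sum_eq_single z0]
    · refine Finset.sum_congr rfl fun a _ => ?_
      by_cases ha : ∑ i, (a i : ℕ) = r
      · rw [if_pos ha, if_pos (le_of_eq ha.symm)]
        simp only [ha, Nat.sub_self, pow_zero, mul_one, zero_smul, add_zero, hQ0]
      · rw [if_neg ha]
        by_cases ha' : r ≤ ∑ i, (a i : ℕ)
        · rw [if_pos ha']
          have : ∑ i, (a i : ℕ) - r ≠ 0 := by omega
          rw [zero_pow this]
          simp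
        · rw [if_neg ha']
    · intro z _ hz
      refine Finset.sum_eq_zero fun a _ => ?_
      have h0 : eval (z0.1 + (0:ℂ) • w) (g z.1) = 0 := by
        rw [zero_smul, add_zero]
        exact hg2 z.1 z.2 z0.1 z0.2 (fun h => hz (Subtype.ext h.symm))
      simp only [h0, mul_zero, zero_mul, ite_self]
    · intro h
      exact absurd (Finset.mem_univ _) h
  -- conclude by identity of polynomials
  intro k hk
  obtain ⟨z0, a0⟩ := k
  set T : MvPolynomial σ ℂ := ∑ a : σ → Fin t, (if ∑ i, (a i : ℕ) = r then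
        monomial (Finsupp.equivFunOnFinite.symm fun i => (a i : ℕ))
          (c (z0, a) * eval z0.1 (g z0.1)) else 0) with hT
  have hT0 : T = 0 := by
    apply MvPolynomial.funext
    intro u
    rw [map_zero]
    refine Eq.trans ?_ (main z0 u)
    rw [hT, map_sum]
    refine Finset.sum_congr rfl fun a _ => ?_
    by_cases ha : ∑ i, (a i : ℕ) = r
    · rw [if_pos ha, if_pos ha, eval_monomial]
      congr 1
      rw [Finsupp.prod_fintype _ _ (by simp)]
      simp
    · rw [if_neg ha, if_neg ha, map_zero]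
  have h1 := congrArg (coeff (Finsupp.equivFunOnFinite.symm fun i => (a0 i : ℕ))) hT0
  rw [hT, coeff_sum, coeff_zero, Finset.sum_eq_single a0] at h1
  · rw [if_pos hk, coeff_monomial, if_pos rfl] at h1
    rcases mul_eq_zero.1 h1 with h | h
    · exact h
    · exact absurd h (hg1 z0.1 z0.2)
  · intro a _ ha
    by_cases hr : ∑ i, (a i : ℕ) = r
    · rw [if_pos hr, coeff_monomial, if_neg]
      intro h
      apply ha
      funext i
      have := congrFun (Finsupp.equivFunOnFinite.symm.injective h) i
      exact Fin.ext this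
    · rw [if_neg hr, coeff_zero]
  · intro h
    exact absurd (Finset.mem_univ _) h

/-- **Cheap Bezout inequality.** A square system of complex polynomials of degree at most `d` has
at most `(1 + d * card σ) ^ card σ` nondegenerate zeros. -/
theorem card_nondegenerate_zeros_le (P : σ → MvPolynomial σ ℂ) (d : ℕ)
    (hd : ∀ i, (P i).totalDegree ≤ d) (Z : Finset (σ → ℂ))
    (hZ : ∀ z ∈ Z, ∀ i, eval z (P i) = 0)
    (hJ : ∀ z ∈ Z, (fderiv ℂ (polyMap P) z).det ≠ 0) :
    Z.card ≤ (1 + d * Fintype.card σ) ^ Fintype.card σ := by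
  classical
  choose g hg1 hg2 using exists_interp Z
  set e : ℕ := Z.sup fun z => (g z).totalDegree with he
  set D := Fintype.card σ with hD
  set t : ℕ := e + 1 with ht
  set T : ℕ := e + d * D * (t - 1) with hT
  set v : Z × (σ → Fin t) → MvPolynomial σ ℂ :=
    fun k => g k.1 * ∏ i, P i ^ (k.2 i : ℕ) with hv
  have hvdeg : ∀ k, (v k).totalDegree ≤ T := by
    intro k
    refine (totalDegree_mul _ _).trans ?_
    refine Nat.add_le_add ?_ ?_
    · exact Finset.le_sup (f := fun z => (g z).totalDegree) k.1.2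
    · refine (totalDegree_finsetProd _ _).trans ?_
      calc ∑ i, (P i ^ (k.2 i : ℕ)).totalDegree ≤ ∑ _i : σ, d * (t - 1) := by
            refine Finset.sum_le_sum fun i _ => ?_
            refine (totalDegree_pow _ _).trans ?_
            rw [mul_comm]
            exact Nat.mul_le_mul (hd i) (by have := (k.2 i).2; omega)
        _ = d * D * (t - 1) := by
            rw [Finset.sum_const, Finset.card_univ, smul_eq_mul]
            ring
  set φ : MvPolynomial σ ℂ → ((σ → Fin (T + 1)) → ℂ) :=
    fun p b => coeff (Finsupp.equivFunOnFinite.symm fun i => (b i : ℕ)) p with hφ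
  have hli : LinearIndependent ℂ (fun k => φ (v k)) := by
    rw [Fintype.linearIndependent_iff]
    intro c hc
    refine key_indep P Z hZ hJ g (fun z _ => hg1 z) (fun z _ z' hz' hne => hg2 z z' hz' hne) t c ?_
    ext s
    rw [coeff_zero, coeff_sum]
    by_cases hs : ∀ i, s i < T + 1
    · have h1 := congrFun hc (fun i => ⟨s i, hs i⟩)
      rw [Finset.sum_apply] at h1
      have h2 : (Finsupp.equivFunOnFinite.symm fun i =>
          (((fun i => ⟨s i, hs i⟩ : σ → Fin (T + 1)) i : Fin (T + 1)) : ℕ)) = s := by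
        ext i
        simp
      simp only [Pi.smul_apply, smul_eq_mul, hφ, Pi.zero_apply] at h1
      rw [h2] at h1
      simpa [coeff_smul, smul_eq_mul, hv] using h1
    · push Not at hs
      obtain ⟨i, hi⟩ := hs
      refine Finset.sum_eq_zero fun k _ => ?_
      rw [coeff_smul]
      have : coeff s (v k) = 0 := by
        apply coeff_eq_zero_of_totalDegree_lt
        refine lt_of_le_of_lt (hvdeg k) ?_
        refine lt_of_lt_of_le (Nat.lt_of_succ_le hi) ?_
        by_cases hsi : i ∈ s.support
        · exact Finset.single_le_sum (f := fun i => s i) (fun _ _ => Nat.zero_le _) hsi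
        · rw [Finsupp.notMem_support_iff] at hsi
          omega
      simp only [hv] at this
      rw [this, smul_zero]
  have hcard := hli.fintype_card_le_finrank
  rw [Module.finrank_fintype_fun_eq_card, Fintype.card_prod, Fintype.card_fun, Fintype.card_fun,
    Fintype.card_fin, Fintype.card_fin, Fintype.card_coe] at hcard
  have h1 : T + 1 ≤ t * (1 + d * D) := by
    rw [hT, ht]
    simp only [Nat.add_sub_cancel]
    nlinarith [Nat.zero_le (d * D)]
  have h2 : Z.card * t ^ D ≤ (1 + d * D) ^ D * t ^ D := by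
    calc Z.card * t ^ D ≤ (T + 1) ^ D := hcard
      _ ≤ (t * (1 + d * D)) ^ D := Nat.pow_le_pow_left h1 D
      _ = (1 + d * D) ^ D * t ^ D := by rw [mul_pow, mul_comm]
  exact Nat.le_of_mul_le_mul_right h2 (Nat.pow_pos (by omega))

end Pool.Agent.Work.MP_d6d6e6_ag
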