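import Pool.Agent.Work.MP_d6d6e6_ag.Norm

/-! Convergence of the normal form. -/

open Finsupp
open scoped ENNReal

set_option linter.unusedSectionVars false
set_option linter.unusedVariables false

namespace Pool.Agent.Work.MP_d6d6e6_ag

variable {ρ : ℝ≥0∞}

/-- sum of the norms of the coefficients -/
noncomputable def csum (p : MvPolynomial (Fin 2) ℂ) : ℝ≥0∞ :=
  ∑ m ∈ p.support, ‖p.coeff m‖ₑ

theorem csum_ne_top (p : MvPolynomial (Fin 2) ℂ) : csum p ≠ ⊤ := by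
  rw [csum]
  exact (ENNReal.sum_lt_top.2 fun m _ => enorm_lt_top).ne

theorem aeval_eq_sum (Φ : Fin 2 → PS ℂ) (p : MvPolynomial (Fin 2) ℂ) :
    MvPolynomial.aeval Φ p =
      ∑ m ∈ p.support, MvPowerSeries.C (p.coeff m) * (Φ 0 ^ m 0 * Φ 1 ^ m 1) := by
  rw [MvPolynomial.aeval_def, MvPolynomial.eval₂_eq']
  refine Finset.sum_congr rfl fun m _ => ?_
  rw [Fin.prod_univ_two]
  rfl

theorem nrm_aeval_le {Φ : Fin 2 → PS ℂ} {τ : ℝ≥0∞} (hΦ : ∀ i, nrm ρ (Φ i) ≤ τ) (hτ : τ ≤ 1)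
    {p : MvPolynomial (Fin 2) ℂ} (hp : Ord2 p) :
    nrm ρ (MvPolynomial.aeval Φ p) ≤ csum p * τ ^ 2 := by
  rw [aeval_eq_sum, csum, Finset.sum_mul]
  refine (nrm_sum_le _ _).trans (Finset.sum_le_sum fun m hm => ?_)
  refine (nrm_mul_le _ _).trans ?_
  rw [nrm_C]
  gcongr
  refine (nrm_mul_le _ _).trans ?_
  have hdeg : 2 ≤ m.degree := by
    by_contra hlt
    exact (MvPolynomial.mem_support_iff.1 hm) (hp m (by omega))
  have hdeg' : m.degree = m 0 + m 1 := by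
    rw [Finsupp.degree_eq_sum, Fin.sum_univ_two]
  calc nrm ρ (Φ 0 ^ m 0) * nrm ρ (Φ 1 ^ m 1)
      ≤ nrm ρ (Φ 0) ^ m 0 * nrm ρ (Φ 1) ^ m 1 := by
        gcongr
        · exact nrm_pow_le _ _
        · exact nrm_pow_le _ _
    _ ≤ τ ^ m 0 * τ ^ m 1 := by
        gcongr
        · exact hΦ 0
        · exact hΦ 1
    _ = τ ^ (m 0 + m 1) := by rw [pow_add]
    _ ≤ τ ^ 2 := pow_le_pow_right_of_le_one' hτ (by omega)

theorem enorm_inv_int_le {k : ℤ} (hk : k ≠ 0) : ‖((k : ℂ))⁻¹‖ₑ ≤ 1 := by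
  have h1 : (1 : ℝ) ≤ ‖(k : ℂ)‖ := by
    rw [Complex.norm_intCast]
    exact_mod_cast Int.one_le_abs hk
  have h2 : ‖((k : ℂ))⁻¹‖ ≤ 1 := by
    rw [norm_inv]
    exact inv_le_one_of_one_le₀ h1
  rw [← ofReal_norm]
  calc ENNReal.ofReal ‖((k : ℂ))⁻¹‖ ≤ ENNReal.ofReal 1 := ENNReal.ofReal_le_ofReal h2
    _ = 1 := ENNReal.ofReal_one

theorem wD_int (m : Fin 2 →₀ ℕ) : wD m = (((m 0 : ℤ) - m 1 : ℤ) : ℂ) := by
  rw [wD]
  push_cast
  rfl

theorem enorm_w1_le (m : Fin 2 →₀ ℕ) : ‖w1 m‖ₑ ≤ 1 := by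
  rw [w1]
  split_ifs with h
  · simp
  · have : wD m - 1 = (((m 0 : ℤ) - m 1 - 1 : ℤ) : ℂ) := by
      rw [wD_int]
      push_cast
      ring
    rw [this]
    exact enorm_inv_int_le (by omega)

theorem enorm_w2_le (m : Fin 2 →₀ ℕ) : ‖w2 m‖ₑ ≤ 1 := by
  rw [w2]
  split_ifs with h
  · simp
  · have : wD m + 1 = (((m 0 : ℤ) - m 1 + 1 : ℤ) : ℂ) := by
      rw [wD_int]
      push_cast
      ring
    rw [this]
    exact enorm_inv_int_le (by omega)

theorem enorm_wD_w1_le (m : Fin 2 →₀ ℕ) : ‖wD m * w1 m‖ₑ ≤ 2 := by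
  have h1 := enorm_w1_le m
  rw [w1] at *
  split_ifs with h
  · simp
  · rw [if_neg h] at h1
    have hne : wD m - 1 ≠ 0 := by
      have : wD m - 1 = (((m 0 : ℤ) - m 1 - 1 : ℤ) : ℂ) := by
        rw [wD_int]
        push_cast
        ring
      rw [this]
      exact_mod_cast (by omega : (m 0 : ℤ) - m 1 - 1 ≠ 0)
    have e : wD m * (wD m - 1)⁻¹ = 1 + (wD m - 1)⁻¹ := by
      field_simp
      ring
    rw [e]
    refine (enorm_add_le _ _).trans ?_
    calc ‖(1 : ℂ)‖ₑ + ‖(wD m - 1)⁻¹‖ₑ ≤ 1 + 1 := by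
          gcongr
          simp
      _ = 2 := by norm_num

theorem enorm_wD_w2_le (m : Fin 2 →₀ ℕ) : ‖wD m * w2 m‖ₑ ≤ 2 := by
  have h1 := enorm_w2_le m
  rw [w2] at *
  split_ifs with h
  · simp
  · rw [if_neg h] at h1
    have hne : wD m + 1 ≠ 0 := by
      have : wD m + 1 = (((m 0 : ℤ) - m 1 + 1 : ℤ) : ℂ) := by
        rw [wD_int]
        push_cast
        ring
      rw [this]
      exact_mod_cast (by omega : (m 0 : ℤ) - m 1 + 1 ≠ 0)
    have e : wD m * (wD m + 1)⁻¹ = 1 + -(wD m + 1)⁻¹ := by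
      field_simp
      ring
    rw [e]
    refine (enorm_add_le _ _).trans ?_
    rw [enorm_neg]
    calc ‖(1 : ℂ)‖ₑ + ‖(wD m + 1)⁻¹‖ₑ ≤ 1 + 1 := by
          gcongr
          simp
      _ = 2 := by norm_num

theorem scale_scale {O : Type*} [CommRing O] [Algebra ℂ O] (w w' : (Fin 2 →₀ ℕ) → ℂ) (f : PS O) :
    scale w (scale w' f) = scale (fun m => w m * w' m) f := by
  apply MvPowerSeries.ext
  intro m
  rw [coeff_scale, coeff_scale, coeff_scale, smul_smul]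

/-- The bounds preserved by the iteration. -/
structure Inv (ρ : ℝ≥0∞) (s : St ℂ) : Prop where
  al : 4 * nrm ρ s.al ≤ ρ
  be : 4 * nrm ρ s.be ≤ ρ
  dal : 2 * nrm ρ (scale wD s.al) ≤ ρ
  dbe : 2 * nrm ρ (scale wD s.be) ≤ ρ
  a : 4 * nrm ρ s.a ≤ 1

theorem Inv.phi {s : St ℂ} (h : Inv ρ s) (i : Fin 2) : nrm ρ (Phi s i) ≤ 2 * ρ := by
  have key : ∀ f : PS ℂ, 4 * nrm ρ f ≤ ρ → nrm ρ f ≤ ρ := fun f hf => by
    refine le_trans ?_ hf
    calc nrm ρ f = 1 * nrm ρ f := (one_mul _).symm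
      _ ≤ 4 * nrm ρ f := by
        gcongr
        norm_num
  fin_cases i
  · show nrm ρ (MvPowerSeries.X 0 + s.al) ≤ 2 * ρ
    refine (nrm_add_le _ _).trans ?_
    rw [nrm_X, two_mul]
    gcongr
    exact key _ h.al
  · show nrm ρ (MvPowerSeries.X 1 + s.be) ≤ 2 * ρ
    refine (nrm_add_le _ _).trans ?_
    rw [nrm_X, two_mul]
    gcongr
    exact key _ h.be

theorem inv_aux {s : St ℂ} {f : PS ℂ} (hf : 2 * nrm ρ (scale wD f) ≤ ρ) (ha : 4 * nrm ρ s.a ≤ 1)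
    {P : PS ℂ} {c : ℝ≥0∞} (hP : nrm ρ P ≤ c * (2 * ρ) ^ 2) (hc : 32 * c * ρ ≤ 1) :
    4 * nrm ρ (P - s.a * scale wD f) ≤ ρ := by
  have h1 : 8 * nrm ρ (P - s.a * scale wD f) ≤ 2 * ρ := by
    calc 8 * nrm ρ (P - s.a * scale wD f)
        ≤ 8 * (nrm ρ P + nrm ρ s.a * nrm ρ (scale wD f)) := by
          gcongr
          refine (nrm_sub_le _ _).trans ?_
          gcongr
          exact nrm_mul_le _ _
      _ = 8 * nrm ρ P + (4 * nrm ρ s.a) * (2 * nrm ρ (scale wD f)) := by ring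
      _ ≤ 8 * (c * (2 * ρ) ^ 2) + 1 * ρ := by gcongr
      _ = 32 * c * ρ * ρ + ρ := by ring
      _ ≤ 1 * ρ + ρ := by gcongr
      _ = 2 * ρ := by ring
  have h2 : 2 * (4 * nrm ρ (P - s.a * scale wD f)) ≤ 2 * ρ := by
    calc 2 * (4 * nrm ρ (P - s.a * scale wD f)) = 8 * nrm ρ (P - s.a * scale wD f) := by ring
      _ ≤ 2 * ρ := h1
  exact (ENNReal.mul_le_mul_iff_right (by norm_num) (by norm_num)).1 h2

theorem Inv.step {s : St ℂ} (h : Inv ρ s) {p q : MvPolynomial (Fin 2) ℂ} (hp : Ord2 p)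
    (hq : Ord2 q) (hρ0 : ρ ≠ 0) (hρt : ρ ≠ ⊤) (hρ : 2 * ρ ≤ 1) (hcp : 32 * csum p * ρ ≤ 1)
    (hcq : 32 * csum q * ρ ≤ 1) : Inv ρ (step p q s) := by
  have hP := nrm_aeval_le h.phi hρ hp
  have hQ := nrm_aeval_le h.phi hρ hq
  have g1 := inv_aux (s := s) h.dal h.a hP hcp
  have g2 := inv_aux (s := s) h.dbe h.a hQ hcq
  set P := MvPolynomial.aeval (Phi s) p with hPdef
  set Q := MvPolynomial.aeval (Phi s) q with hQdef
  refine ⟨?_, ?_, ?_, ?_, ?_⟩
  · show 4 * nrm ρ (scale w1 (P - s.a * scale wD s.al)) ≤ ρ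
    refine le_trans ?_ g1
    gcongr
    refine (nrm_scale_le enorm_w1_le _).trans ?_
    rw [one_mul]
  · show 4 * nrm ρ (scale w2 (Q - s.a * scale wD s.be)) ≤ ρ
    refine le_trans ?_ g2
    gcongr
    refine (nrm_scale_le enorm_w2_le _).trans ?_
    rw [one_mul]
  · show 2 * nrm ρ (scale wD (scale w1 (P - s.a * scale wD s.al))) ≤ ρ
    refine le_trans ?_ g1
    rw [scale_scale]
    calc 2 * nrm ρ (scale (fun m => wD m * w1 m) (P - s.a * scale wD s.al))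
        ≤ 2 * (2 * nrm ρ (P - s.a * scale wD s.al)) := by
          gcongr
          exact nrm_scale_le enorm_wD_w1_le _
      _ = 4 * nrm ρ (P - s.a * scale wD s.al) := by ring
  · show 2 * nrm ρ (scale wD (scale w2 (Q - s.a * scale wD s.be))) ≤ ρ
    refine le_trans ?_ g2
    rw [scale_scale]
    calc 2 * nrm ρ (scale (fun m => wD m * w2 m) (Q - s.a * scale wD s.be))
        ≤ 2 * (2 * nrm ρ (Q - s.a * scale wD s.be)) := by
          gcongr
          exact nrm_scale_le enorm_wD_w2_le _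
      _ = 4 * nrm ρ (Q - s.a * scale wD s.be) := by ring
  · show 4 * nrm ρ (diagPart (single 0 1) P) ≤ 1
    have h1 : ρ * nrm ρ (diagPart (single 0 1) P) ≤ csum p * (2 * ρ) ^ 2 :=
      (nrm_diagPart_le (by simp) P).trans hP
    have h2 : ρ * (4 * nrm ρ (diagPart (single 0 1) P)) ≤ ρ * 1 := by
      calc ρ * (4 * nrm ρ (diagPart (single 0 1) P))
          = 4 * (ρ * nrm ρ (diagPart (single 0 1) P)) := by ring
        _ ≤ 4 * (csum p * (2 * ρ) ^ 2) := by gcongr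
        _ = 16 * csum p * ρ * ρ := by ring
        _ ≤ 32 * csum p * ρ * ρ := by
            gcongr
            norm_num
        _ ≤ 1 * ρ := by gcongr
        _ = ρ * 1 := by ring
    exact (ENNReal.mul_le_mul_iff_right hρ0 hρt).1 h2

theorem inv_iter {p q : MvPolynomial (Fin 2) ℂ} (hp : Ord2 p)
    (hq : Ord2 q) (hρ0 : ρ ≠ 0) (hρt : ρ ≠ ⊤) (hρ : 2 * ρ ≤ 1) (hcp : 32 * csum p * ρ ≤ 1)
    (hcq : 32 * csum q * ρ ≤ 1) (n : ℕ) : Inv ρ (iter p q n) := by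
  induction n with
  | zero =>
    have h0 : scale wD (0 : PS ℂ) = 0 := by
      apply MvPowerSeries.ext
      intro m
      rw [coeff_scale]
      simp
    refine ⟨?_, ?_, ?_, ?_, ?_⟩
    · show 4 * nrm ρ 0 ≤ ρ
      rw [nrm_zero]
      simp
    · show 4 * nrm ρ 0 ≤ ρ
      rw [nrm_zero]
      simp
    · show 2 * nrm ρ (scale wD 0) ≤ ρ
      rw [h0, nrm_zero]
      simp
    · show 2 * nrm ρ (scale wD 0) ≤ ρ
      rw [h0, nrm_zero]
      simp
    · show 4 * nrm ρ 0 ≤ 1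
      rw [nrm_zero]
      simp
  | succ n ih => exact ih.step hp hq hρ0 hρt hρ hcp hcq

theorem mul_nrm_le_of_approx {c : ℝ≥0∞} (hc : c ≠ 0) (hct : c ≠ ⊤) {f : PS ℂ} {g : ℕ → PS ℂ}
    {b : ℝ≥0∞} (h : ∀ n, OrdGe n (f - g n)) (hg : ∀ n, c * nrm ρ (g n) ≤ b) :
    c * nrm ρ f ≤ b := by
  have h1 : nrm ρ f ≤ b / c := by
    apply nrm_le_of_approx h
    intro n
    rw [ENNReal.le_div_iff_mul_le (Or.inl hc) (Or.inl hct), mul_comm]
    exact hg n
  rw [ENNReal.le_div_iff_mul_le (Or.inl hc) (Or.inl hct), mul_comm] at h1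
  exact h1

theorem inv_lim {p q : MvPolynomial (Fin 2) ℂ} (hp : Ord2 p)
    (hq : Ord2 q) (hρ0 : ρ ≠ 0) (hρt : ρ ≠ ⊤) (hρ : 2 * ρ ≤ 1) (hcp : 32 * csum p * ρ ≤ 1)
    (hcq : 32 * csum q * ρ ≤ 1) : Inv ρ (lim p q) := by
  have hI := inv_iter hp hq hρ0 hρt hρ hcp hcq
  have hC := cong_lim hp hq
  refine ⟨?_, ?_, ?_, ?_, ?_⟩
  · exact mul_nrm_le_of_approx (by norm_num) (by norm_num)
      (fun n => (hC n).al.mono (Nat.le_succ n)) (fun n => (hI n).al)
  · exact mul_nrm_le_of_approx (by norm_num) (by norm_num)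
      (fun n => (hC n).be.mono (Nat.le_succ n)) (fun n => (hI n).be)
  · refine mul_nrm_le_of_approx (g := fun n => scale wD (iter p q n).al) (by norm_num)
      (by norm_num) (fun n => ?_) (fun n => (hI n).dal)
    rw [← scale_sub]
    exact ((hC n).al.mono (Nat.le_succ n)).scale _
  · refine mul_nrm_le_of_approx (g := fun n => scale wD (iter p q n).be) (by norm_num)
      (by norm_num) (fun n => ?_) (fun n => (hI n).dbe)
    rw [← scale_sub]
    exact ((hC n).be.mono (Nat.le_succ n)).scale _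
  · exact mul_nrm_le_of_approx (by norm_num) (by norm_num)
      (fun n => (hC n).a) (fun n => (hI n).a)

/-- **Convergence of the normal form.** -/
theorem exists_inv_lim {p q : MvPolynomial (Fin 2) ℂ} (hp : Ord2 p) (hq : Ord2 q) :
    ∃ r : ℝ, 0 < r ∧ Inv (ENNReal.ofReal r) (lim p q) ∧
      (∀ i, nrm (ENNReal.ofReal r) (Phi (lim p q) i) ≤ 2 * ENNReal.ofReal r) ∧
      2 * ENNReal.ofReal r ≤ 1 := by
  set c : ℝ := (csum p).toReal + (csum q).toReal + 1 with hc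
  have hcpos : 0 < c := by positivity
  set r : ℝ := (32 * c)⁻¹ with hr
  have hrpos : 0 < r := by positivity
  have h0 : ENNReal.ofReal r ≠ 0 := by
    rw [Ne, ENNReal.ofReal_eq_zero, not_le]
    exact hrpos
  have key : ∀ x : ℝ≥0∞, x ≠ ⊤ → x.toReal ≤ c → 32 * x * ENNReal.ofReal r ≤ 1 := by
    intro x hx hxc
    rw [← ENNReal.ofReal_toReal hx, show (32 : ℝ≥0∞) = ENNReal.ofReal 32 by norm_num,
      ← ENNReal.ofReal_mul (by norm_num), ← ENNReal.ofReal_mul (by positivity), ← ENNReal.ofReal_one]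
    apply ENNReal.ofReal_le_ofReal
    rw [hr]
    calc 32 * x.toReal * (32 * c)⁻¹ ≤ 32 * c * (32 * c)⁻¹ := by gcongr
      _ = 1 := mul_inv_cancel₀ (by positivity)
  have hρ : 2 * ENNReal.ofReal r ≤ 1 := by
    have := key 1 (by norm_num) (by
      rw [hc]
      simp only [ENNReal.toReal_one]
      have := ENNReal.toReal_nonneg (a := csum p)
      have := ENNReal.toReal_nonneg (a := csum q)
      linarith)
    refine le_trans ?_ this
    gcongr
    norm_num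
  have hp1 : (csum p).toReal ≤ c := by
    have := ENNReal.toReal_nonneg (a := csum q)
    rw [hc]
    linarith
  have hq1 : (csum q).toReal ≤ c := by
    have := ENNReal.toReal_nonneg (a := csum p)
    rw [hc]
    linarith
  have hinv := inv_lim hp hq h0 ENNReal.ofReal_ne_top hρ (key _ (csum_ne_top p) hp1)
    (key _ (csum_ne_top q) hq1)
  exact ⟨r, hrpos, hinv, hinv.phi, hρ⟩

end Pool.Agent.Work.MP_d6d6e6_ag
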