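import Mathlib

/-!
# Definitions for MP_d6d6e6_ag (stability of centers)

The complex plane is `Fin 2 → ℂ`, with coordinates `x = z 0`, `y = z 1`.
-/

open MvPolynomial Filter Topology

namespace Pool.Agent.Work.MP_d6d6e6_ag

/-- Exponents `(i, j)` of the monomials `x ^ i * y ^ j` with `i + j ≤ d`. -/
abbrev Mon (d : ℕ) : Type := {m : Fin (d + 1) × Fin (d + 1) // (m.1 : ℕ) + (m.2 : ℕ) ≤ d}

/-- The vector space of polynomial 1-forms `ω = P dy - Q dx` with `deg P, deg Q ≤ d`.
A form is its vector of coefficients: `ω (0, m)` is the coefficient in `P`, and `ω (1, m)` the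
coefficient in `Q`, of the monomial with exponent `m`. -/
abbrev Form (d : ℕ) : Type := Fin 2 × Mon d → ℂ

/-- The polynomial `P` (for `k = 0`) or `Q` (for `k = 1`) of `ω = P dy - Q dx`. -/
noncomputable def poly {d : ℕ} (ω : Form d) (k : Fin 2) : MvPolynomial (Fin 2) ℂ :=
  ∑ m : Mon d, C (ω (k, m)) * (X 0 ^ (m.1.1 : ℕ) * X 1 ^ (m.1.2 : ℕ))

/-- The projective space of polynomial 1-forms, `\overline{F(d)}` in the problem. -/
abbrev PForm (d : ℕ) : Type := Projectivization ℂ (Form d)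

/-- `ω` is a foliation of degree `d`: `P, Q` are coprime and `max (deg P) (deg Q) = d`. -/
def IsFoliation {d : ℕ} (ω : Form d) : Prop :=
  IsRelPrime (poly ω 0) (poly ω 1) ∧ max (poly ω 0).totalDegree (poly ω 1).totalDegree = d

/-! ### Singularities and centers -/

/-- The coefficient of `dx ∧ dy` in `(a 0 dx + a 1 dy) ∧ (b 0 dx + b 1 dy)`. -/
def wedge (a b : Fin 2 → ℂ) : ℂ := a 0 * b 1 - a 1 * b 0

/-- The value at `z` of `ω = P dy - Q dx`, in the basis `dx, dy`. -/
noncomputable def valueAt {d : ℕ} (ω : Form d) (z : Fin 2 → ℂ) : Fin 2 → ℂ :=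
  ![-(eval z (poly ω 1)), eval z (poly ω 0)]

/-- The differential at `z` of a function `f` on the plane, in the basis `dx, dy`. -/
noncomputable def differential (f : (Fin 2 → ℂ) → ℂ) (z : Fin 2 → ℂ) : Fin 2 → ℂ :=
  fun i => fderiv ℂ f z (Pi.single i 1)

/-- `p` is a singularity of `ω`: `P p = Q p = 0`. -/
def IsSingularity {d : ℕ} (ω : Form d) (p : Fin 2 → ℂ) : Prop :=
  eval p (poly ω 0) = 0 ∧ eval p (poly ω 1) = 0

/-- `p` is a reduced singularity: moreover `P_x Q_y - P_y Q_x` does not vanish at `p`. -/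
def IsReducedSingularity {d : ℕ} (ω : Form d) (p : Fin 2 → ℂ) : Prop :=
  IsSingularity ω p ∧
    eval p (pderiv 0 (poly ω 0) * pderiv 1 (poly ω 1) -
      pderiv 1 (poly ω 0) * pderiv 0 (poly ω 1)) ≠ 0

/-- `(u, v)` are local holomorphic coordinates centred at `p`: both are holomorphic near `p`
and vanish at `p`, and `du ∧ dv` does not vanish at `p`. -/
def IsLocalCoord (u v : (Fin 2 → ℂ) → ℂ) (p : Fin 2 → ℂ) : Prop :=
  AnalyticAt ℂ u p ∧ AnalyticAt ℂ v p ∧ u p = 0 ∧ v p = 0 ∧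
    wedge (differential u p) (differential v p) ≠ 0

/-- `p` is a center of `ω`: a reduced singularity with `ω ∧ d(u² + v²) = 0` near `p` for some local
holomorphic coordinates `(u, v)` centred at `p`. -/
def IsCenter {d : ℕ} (ω : Form d) (p : Fin 2 → ℂ) : Prop :=
  IsReducedSingularity ω p ∧ ∃ u v : (Fin 2 → ℂ) → ℂ, IsLocalCoord u v p ∧
    ∀ᶠ z in 𝓝 p, wedge (valueAt ω z) (differential (fun t => u t ^ 2 + v t ^ 2) z) = 0

/-! ### Zariski topology on the projective space of forms -/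

/-- `S` is Zariski closed: the common zero locus of a set of homogeneous polynomials in the
coefficients. -/
def IsZariskiClosed {d : ℕ} (S : Set (PForm d)) : Prop :=
  ∃ T : Set (MvPolynomial (Fin 2 × Mon d) ℂ), (∀ f ∈ T, ∃ n, f.IsHomogeneous n) ∧
    S = {F : PForm d | ∀ f ∈ T, eval F.rep f = 0}

/-- The Zariski closure. -/
def zariskiClosure {d : ℕ} (S : Set (PForm d)) : Set (PForm d) :=
  {F | ∀ Z : Set (PForm d), IsZariskiClosed Z → S ⊆ Z → F ∈ Z}

/-- `X` is an irreducible (nonempty) Zariski closed set. -/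
def IsIrreducibleClosed {d : ℕ} (X : Set (PForm d)) : Prop :=
  IsZariskiClosed X ∧ X.Nonempty ∧ ∀ A B : Set (PForm d), IsZariskiClosed A → IsZariskiClosed B →
    X ⊆ A ∪ B → X ⊆ A ∨ X ⊆ B

/-- `X` is an irreducible component of `M`: a maximal irreducible closed subset of `M`. -/
def IsIrreducibleComponent {d : ℕ} (X M : Set (PForm d)) : Prop :=
  Maximal (fun Y : Set (PForm d) => IsIrreducibleClosed Y ∧ Y ⊆ M) X

/-- `U` is a Zariski open and Zariski dense subset of `X`. -/
def IsOpenDenseIn {d : ℕ} (U X : Set (PForm d)) : Prop :=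
  (∃ Z : Set (PForm d), IsZariskiClosed Z ∧ U = X \ Z) ∧ X ⊆ zariskiClosure U

/-- `M(d)`: the closure of the set of foliations of degree `d` having at least one center. -/
def centerVariety (d : ℕ) : Set (PForm d) :=
  zariskiClosure {F : PForm d | IsFoliation F.rep ∧ ∃ p, IsCenter F.rep p}

/-! ### Stability -/

/-- `w` is a holomorphic one-parameter deformation `F_ε = [w ε]` of `F` inside `X`. -/
structure IsDeformation {d : ℕ} (X : Set (PForm d)) (F : PForm d) (w : ℂ → Form d) : Prop where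
  holomorphic : AnalyticAt ℂ w 0
  base : ∃ h : w 0 ≠ 0, Projectivization.mk ℂ (w 0) h = F
  inside : ∀ᶠ ε in 𝓝 (0 : ℂ), ∃ h : w ε ≠ 0, Projectivization.mk ℂ (w ε) h ∈ X

/-- The center `p` of `F ∈ X` is stable relative to `X`: for every holomorphic one-parameter
deformation `F_ε` of `F` inside `X`, the singularity `q ε` of `F_ε` near `p` (it depends
holomorphically on `ε`, `q 0 = p`, and it is the only singularity of `F_ε` in some neighbourhood
of `p`) is a center of `F_ε` for all small `ε`. -/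
def IsStable {d : ℕ} (X : Set (PForm d)) (F : PForm d) (p : Fin 2 → ℂ) : Prop :=
  ∀ w : ℂ → Form d, IsDeformation X F w →
    ∃ q : ℂ → (Fin 2 → ℂ), AnalyticAt ℂ q 0 ∧ q 0 = p ∧
      (∃ W ∈ 𝓝 p, ∀ᶠ ε in 𝓝 (0 : ℂ), q ε ∈ W ∧ ∀ z ∈ W, IsSingularity (w ε) z ↔ z = q ε) ∧
      ∀ᶠ ε in 𝓝 (0 : ℂ), IsCenter (w ε) (q ε)

end Pool.Agent.Work.MP_d6d6e6_ag
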