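import Pool.Agent.Work.MP_d6d6e6_ag.Eval

/-! Derivatives of convergent power series in two variables. -/

open Finsupp Filter Topology
open scoped ENNReal NNReal

set_option linter.unusedSectionVars false
set_option linter.unusedVariables false

namespace Pool.Agent.Work.MP_d6d6e6_ag

theorem analyticAt_evalS {r : ℝ} (hr : 0 < r) {f : PS ℂ} (hf : nrm (ENNReal.ofReal r) f ≠ ⊤)
    {z : Fin 2 → ℂ} (hz : ∀ i, ‖z i‖ < r) : AnalyticAt ℂ (evalS f) z := by
  apply (hasFPowerSeriesOnBall_evalS hr hf).analyticAt_of_mem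
  rw [Metric.eball_ofReal, mem_ball_zero_iff, pi_norm_lt_iff hr]
  exact hz

theorem hasFDerivAt_evalS_zero {r : ℝ} (hr : 0 < r) {f : PS ℂ}
    (hf : nrm (ENNReal.ofReal r) f ≠ ⊤) (h2 : OrdGe 2 f) :
    HasFDerivAt (evalS f) (0 : (Fin 2 → ℂ) →L[ℂ] ℂ) 0 := by
  have h := (hasFPowerSeriesOnBall_evalS hr hf).hasFPowerSeriesAt.hasFDerivAt
  have h0 : fms f 1 = 0 := by
    rw [fms]
    refine Finset.sum_eq_zero fun p hp => ?_
    rw [Finset.HasAntidiagonal.mem_antidiagonal] at hp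
    rw [h2 (ex p.1 p.2) (by rw [degree_ex, hp]; norm_num)]
    exact zero_smul ℂ (mlm p.1 1)
  rw [h0, map_zero] at h
  exact h

theorem evalS_zero_of_ordGe {f : PS ℂ} (h : OrdGe 1 f) : evalS f 0 = 0 := by
  rw [evalS]
  have : ∀ m : Fin 2 →₀ ℕ, MvPowerSeries.coeff m f * monf m 0 = 0 := by
    intro m
    by_cases hm : m.degree < 1
    · rw [h m hm, zero_mul]
    · rw [degree_eq] at hm
      rw [monf]
      rcases Nat.eq_zero_or_pos (m 0) with h0 | h0
      · have h1 : m 1 ≠ 0 := by omega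
        simp [zero_pow h1]
      · simp [zero_pow h0.ne']
  simp_rw [this]
  exact tsum_zero

theorem norm_wD_le (m : Fin 2 →₀ ℕ) : ‖wD m‖ ≤ m.degree := by
  rw [wD, degree_eq]
  refine (norm_sub_le _ _).trans ?_
  simp

/-- The Euler-type operator `x ∂_x - y ∂_y`. -/
theorem fderiv_evalS_apply {r : ℝ} {f : PS ℂ} (hf : nrm (ENNReal.ofReal r) f ≠ ⊤)
    (hDf : nrm (ENNReal.ofReal r) (scale wD f) ≠ ⊤)
    {z : Fin 2 → ℂ} (hz : ∀ i, ‖z i‖ < r) :
    fderiv ℂ (evalS f) z ![z 0, -z 1] = evalS (scale wD f) z := by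
  have hr : 0 < r := (norm_nonneg _).trans_lt (hz 0)
  -- choose `δ`
  obtain ⟨δ, hδ, hδ0, hδ1⟩ : ∃ δ : ℝ, 0 < δ ∧ ‖z 0‖ * Real.exp δ ≤ r ∧ ‖z 1‖ * Real.exp δ ≤ r := by
    have hc : ∀ i, ∀ᶠ δ in 𝓝[>] (0 : ℝ), ‖z i‖ * Real.exp δ ≤ r := by
      intro i
      have h1 : Tendsto (fun δ : ℝ => ‖z i‖ * Real.exp δ) (𝓝[>] 0) (𝓝 (‖z i‖ * Real.exp 0)) := by
        refine Tendsto.mono_left ?_ nhdsWithin_le_nhds
        exact (Continuous.tendsto (by fun_prop) 0)
      rw [Real.exp_zero, mul_one] at h1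
      filter_upwards [h1.eventually (eventually_lt_nhds (hz i))] with δ h
      exact h.le
    obtain ⟨δ, h0, h1, h2⟩ := ((hc 0).and ((hc 1).and self_mem_nhdsWithin)).exists
    exact ⟨δ, h2, h0, h1⟩
  set γ : ℂ → Fin 2 → ℂ := fun τ => ![Complex.exp τ * z 0, Complex.exp (-τ) * z 1] with hγ
  have hγ0 : γ 0 = z := by
    funext i
    fin_cases i <;> simp [hγ]
  have hmon : ∀ (m : Fin 2 →₀ ℕ) (τ : ℂ), monf m (γ τ) = monf m z * Complex.exp (wD m * τ) := by
    intro m τ
    simp only [monf, hγ, wD, Matrix.cons_val_zero, Matrix.cons_val_one, mul_pow,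
      ← Complex.exp_nat_mul]
    rw [sub_mul, sub_eq_add_neg, Complex.exp_add, ← mul_neg]
    ring
  have hγd : HasDerivAt γ ![z 0, -z 1] 0 := by
    rw [hasDerivAt_pi]
    intro i
    fin_cases i
    · have h := (Complex.hasDerivAt_exp 0).mul_const (z 0)
      simpa [hγ] using h
    · have h := ((Complex.hasDerivAt_exp (-(0:ℂ))).comp (0:ℂ) (hasDerivAt_neg (0:ℂ))).mul_const (z 1)
      simpa [hγ, Function.comp_def] using h
  have hsum : HasDerivAt (fun τ => ∑' m : Fin 2 →₀ ℕ,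
      MvPowerSeries.coeff m f * (monf m z * Complex.exp (wD m * τ)))
      (∑' m : Fin 2 →₀ ℕ, MvPowerSeries.coeff m f * (monf m z * (Complex.exp (wD m * 0) * wD m)))
      0 := by
    refine hasDerivAt_tsum_of_isPreconnected
      (g := fun m τ => MvPowerSeries.coeff m f * (monf m z * Complex.exp (wD m * τ)))
      (g' := fun m τ => MvPowerSeries.coeff m f * (monf m z * (Complex.exp (wD m * τ) * wD m)))
      (t := Metric.ball (0 : ℂ) δ) (y₀ := 0)
      (summable_of_nrm hr.le hDf) Metric.isOpen_ball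
      (convex_ball (0 : ℂ) δ).isPreconnected ?_ ?_ (Metric.mem_ball_self hδ) ?_
      (Metric.mem_ball_self hδ)
    · intro m τ _
      have h1 : HasDerivAt (fun τ : ℂ => wD m * τ) (wD m) τ := by
        simpa using (hasDerivAt_id τ).const_mul (wD m)
      exact ((h1.cexp).const_mul (monf m z)).const_mul _
    · intro m τ hτ
      rw [mem_ball_zero_iff] at hτ
      have h1 : ‖Complex.exp (wD m * τ)‖ ≤ Real.exp δ ^ m.degree := by
        rw [Complex.norm_exp, ← Real.exp_nat_mul]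
        apply Real.exp_le_exp.2
        calc (wD m * τ).re ≤ ‖wD m * τ‖ := Complex.re_le_norm _
          _ = ‖wD m‖ * ‖τ‖ := norm_mul _ _
          _ ≤ m.degree * δ := by
            gcongr
            exact norm_wD_le m
      have h2 : ‖monf m z‖ * Real.exp δ ^ m.degree ≤ r ^ m.degree := by
        have h3 : ‖monf m z‖ * Real.exp δ ^ m.degree =
            (‖z 0‖ * Real.exp δ) ^ m 0 * (‖z 1‖ * Real.exp δ) ^ m 1 := by
          rw [monf, norm_mul, norm_pow, norm_pow, degree_eq, pow_add]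
          ring
        rw [h3, degree_eq, pow_add]
        gcongr
      rw [coeff_scale, norm_mul, norm_mul, norm_mul, norm_smul]
      calc ‖MvPowerSeries.coeff m f‖ * (‖monf m z‖ * (‖Complex.exp (wD m * τ)‖ * ‖wD m‖))
          ≤ ‖MvPowerSeries.coeff m f‖ * (‖monf m z‖ * (Real.exp δ ^ m.degree * ‖wD m‖)) := by
            gcongr
        _ = ‖wD m‖ * ‖MvPowerSeries.coeff m f‖ * (‖monf m z‖ * Real.exp δ ^ m.degree) := by ring
        _ ≤ ‖wD m‖ * ‖MvPowerSeries.coeff m f‖ * r ^ m.degree := by gcongr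
    · simp only [mul_zero, Complex.exp_zero, mul_one]
      exact summable_eval hr.le hf fun i => (hz i).le
  have hcomp : HasDerivAt (fun τ => evalS f (γ τ)) (fderiv ℂ (evalS f) z ![z 0, -z 1]) 0 := by
    have h1 : HasFDerivAt (evalS f) (fderiv ℂ (evalS f) z) (γ 0) := by
      rw [hγ0]
      exact (analyticAt_evalS hr hf hz).differentiableAt.hasFDerivAt
    exact h1.comp_hasDerivAt (0 : ℂ) hγd
  have he : (fun τ => evalS f (γ τ)) = fun τ => ∑' m : Fin 2 →₀ ℕ,
      MvPowerSeries.coeff m f * (monf m z * Complex.exp (wD m * τ)) := by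
    funext τ
    rw [evalS]
    refine tsum_congr fun m => ?_
    rw [hmon]
  rw [he] at hcomp
  rw [hcomp.unique hsum, evalS]
  refine tsum_congr fun m => ?_
  rw [coeff_scale, mul_zero, Complex.exp_zero, one_mul, smul_eq_mul]
  ring

end Pool.Agent.Work.MP_d6d6e6_ag
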