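import Pool.Agent.Work.MP_d6d6e6_ag.Converge

/-! Evaluation of convergent power series in two variables. -/

open Finsupp Filter Topology
open scoped ENNReal NNReal

set_option linter.unusedSectionVars false
set_option linter.unusedVariables false

namespace Pool.Agent.Work.MP_d6d6e6_ag

/-- the monomial function -/
noncomputable def monf (m : Fin 2 →₀ ℕ) (z : Fin 2 → ℂ) : ℂ := z 0 ^ m 0 * z 1 ^ m 1

theorem monf_add (m n : Fin 2 →₀ ℕ) (z : Fin 2 → ℂ) : monf (m + n) z = monf m z * monf n z := by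
  simp only [monf, Finsupp.add_apply, pow_add]
  ring

/-- Sum of a power series at a point. -/
noncomputable def evalS (f : PS ℂ) (z : Fin 2 → ℂ) : ℂ :=
  ∑' m : Fin 2 →₀ ℕ, MvPowerSeries.coeff m f * monf m z

theorem degree_eq (m : Fin 2 →₀ ℕ) : m.degree = m 0 + m 1 := by
  rw [Finsupp.degree_eq_sum, Fin.sum_univ_two]

theorem norm_monf_le {r : ℝ} (hr : 0 ≤ r) {z : Fin 2 → ℂ} (hz : ∀ i, ‖z i‖ ≤ r)
    (m : Fin 2 →₀ ℕ) : ‖monf m z‖ ≤ r ^ m.degree := by
  rw [monf, norm_mul, norm_pow, norm_pow, degree_eq, pow_add]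
  gcongr
  · exact hz 0
  · exact hz 1

/-- finiteness of the norm gives summability. -/
theorem summable_of_nrm {r : ℝ} (hr : 0 ≤ r) {f : PS ℂ} (hf : nrm (ENNReal.ofReal r) f ≠ ⊤) :
    Summable fun m : Fin 2 →₀ ℕ => ‖MvPowerSeries.coeff m f‖ * r ^ m.degree := by
  have h : ∀ m : Fin 2 →₀ ℕ, ‖MvPowerSeries.coeff m f‖ₑ * ENNReal.ofReal r ^ m.degree =
      ENNReal.ofReal (‖MvPowerSeries.coeff m f‖ * r ^ m.degree) := by
    intro m
    rw [ENNReal.ofReal_mul (norm_nonneg _), ofReal_norm, ENNReal.ofReal_pow hr]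
  rw [nrm] at hf
  simp_rw [h] at hf
  have := ENNReal.summable_toReal hf
  refine this.congr fun m => ?_
  rw [ENNReal.toReal_ofReal]
  positivity

theorem summable_norm_eval {r : ℝ} (hr : 0 ≤ r) {f : PS ℂ} (hf : nrm (ENNReal.ofReal r) f ≠ ⊤)
    {z : Fin 2 → ℂ} (hz : ∀ i, ‖z i‖ ≤ r) :
    Summable fun m : Fin 2 →₀ ℕ => ‖MvPowerSeries.coeff m f * monf m z‖ := by
  refine Summable.of_nonneg_of_le (fun m => norm_nonneg _) (fun m => ?_) (summable_of_nrm hr hf)
  rw [norm_mul]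
  gcongr
  exact norm_monf_le hr hz m

theorem summable_eval {r : ℝ} (hr : 0 ≤ r) {f : PS ℂ} (hf : nrm (ENNReal.ofReal r) f ≠ ⊤)
    {z : Fin 2 → ℂ} (hz : ∀ i, ‖z i‖ ≤ r) :
    Summable fun m : Fin 2 →₀ ℕ => MvPowerSeries.coeff m f * monf m z :=
  (summable_norm_eval hr hf hz).of_norm

theorem evalS_add {r : ℝ} (hr : 0 ≤ r) {f g : PS ℂ} (hf : nrm (ENNReal.ofReal r) f ≠ ⊤)
    (hg : nrm (ENNReal.ofReal r) g ≠ ⊤) {z : Fin 2 → ℂ} (hz : ∀ i, ‖z i‖ ≤ r) :
    evalS (f + g) z = evalS f z + evalS g z := by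
  rw [evalS, evalS, evalS, ← (summable_eval hr hf hz).tsum_add (summable_eval hr hg hz)]
  refine tsum_congr fun m => ?_
  rw [map_add, add_mul]

theorem evalS_neg (f : PS ℂ) (z : Fin 2 → ℂ) : evalS (-f) z = -evalS f z := by
  rw [evalS, evalS, ← tsum_neg]
  refine tsum_congr fun m => ?_
  rw [map_neg, neg_mul]

theorem evalS_zero (z : Fin 2 → ℂ) : evalS 0 z = 0 := by
  simp [evalS]

theorem evalS_C (c : ℂ) (z : Fin 2 → ℂ) : evalS (MvPowerSeries.C c) z = c := by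
  classical
  rw [evalS, tsum_eq_single 0]
  · simp [monf]
  · intro m hm
    rw [MvPowerSeries.coeff_C, if_neg hm, zero_mul]

theorem evalS_one (z : Fin 2 → ℂ) : evalS 1 z = 1 := by
  have := evalS_C 1 z
  rwa [map_one] at this

theorem evalS_X (i : Fin 2) (z : Fin 2 → ℂ) : evalS (MvPowerSeries.X i) z = z i := by
  classical
  rw [evalS, tsum_eq_single (single i 1)]
  · rw [MvPowerSeries.coeff_X, if_pos rfl, one_mul, monf]
    fin_cases i <;> simp
  · intro m hm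
    rw [MvPowerSeries.coeff_X, if_neg hm, zero_mul]

theorem tsum_mul_antidiagonal {F G : (Fin 2 →₀ ℕ) → ℂ} (hF : Summable fun m => ‖F m‖)
    (hG : Summable fun m => ‖G m‖) : (∑' m, F m) * (∑' m, G m) =
      ∑' m, ∑ p ∈ Finset.HasAntidiagonal.antidiagonal m, F p.1 * G p.2 :=
  hF.of_norm.tsum_mul_tsum_eq_tsum_sum_antidiagonal hG.of_norm
    (summable_mul_of_summable_norm hF hG)

theorem evalS_mul {r : ℝ} (hr : 0 ≤ r) {f g : PS ℂ} (hf : nrm (ENNReal.ofReal r) f ≠ ⊤)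
    (hg : nrm (ENNReal.ofReal r) g ≠ ⊤) {z : Fin 2 → ℂ} (hz : ∀ i, ‖z i‖ ≤ r) :
    evalS (f * g) z = evalS f z * evalS g z := by
  classical
  have h := tsum_mul_antidiagonal (summable_norm_eval hr hf hz) (summable_norm_eval hr hg hz)
  rw [evalS, evalS, evalS, h]
  refine tsum_congr fun m => ?_
  rw [MvPowerSeries.coeff_mul, Finset.sum_mul]
  refine Finset.sum_congr rfl fun p hp => ?_
  rw [Finset.HasAntidiagonal.mem_antidiagonal] at hp
  rw [← hp, monf_add]
  ring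

theorem nrm_add_ne_top {ρ : ℝ≥0∞} {f g : PS ℂ} (hf : nrm ρ f ≠ ⊤) (hg : nrm ρ g ≠ ⊤) :
    nrm ρ (f + g) ≠ ⊤ :=
  ne_top_of_le_ne_top (ENNReal.add_ne_top.2 ⟨hf, hg⟩) (nrm_add_le f g)

theorem nrm_mul_ne_top {ρ : ℝ≥0∞} {f g : PS ℂ} (hf : nrm ρ f ≠ ⊤) (hg : nrm ρ g ≠ ⊤) :
    nrm ρ (f * g) ≠ ⊤ :=
  ne_top_of_le_ne_top (ENNReal.mul_ne_top hf hg) (nrm_mul_le f g)

theorem nrm_aeval_ne_top {ρ : ℝ≥0∞} {Φ : Fin 2 → PS ℂ} (hΦ : ∀ i, nrm ρ (Φ i) ≠ ⊤)
    (p : MvPolynomial (Fin 2) ℂ) : nrm ρ (MvPolynomial.aeval Φ p) ≠ ⊤ := by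
  induction p using MvPolynomial.induction_on with
  | C a =>
    rw [MvPolynomial.aeval_C, show (algebraMap ℂ (PS ℂ)) a = MvPowerSeries.C a from rfl, nrm_C]
    exact enorm_ne_top
  | add p q hp hq =>
    rw [map_add]
    exact nrm_add_ne_top hp hq
  | mul_X p i hp =>
    rw [map_mul, MvPolynomial.aeval_X]
    exact nrm_mul_ne_top hp (hΦ i)

theorem evalS_aeval {r : ℝ} (hr : 0 ≤ r) {Φ : Fin 2 → PS ℂ}
    (hΦ : ∀ i, nrm (ENNReal.ofReal r) (Φ i) ≠ ⊤)
    {z : Fin 2 → ℂ} (hz : ∀ i, ‖z i‖ ≤ r) (p : MvPolynomial (Fin 2) ℂ) :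
    evalS (MvPolynomial.aeval Φ p) z = MvPolynomial.eval (fun i => evalS (Φ i) z) p := by
  induction p using MvPolynomial.induction_on with
  | C a =>
    rw [MvPolynomial.aeval_C, show (algebraMap ℂ (PS ℂ)) a = MvPowerSeries.C a from rfl, evalS_C,
      MvPolynomial.eval_C]
  | add p q hp hq =>
    rw [map_add, evalS_add hr (nrm_aeval_ne_top hΦ p) (nrm_aeval_ne_top hΦ q) hz, hp, hq, map_add]
  | mul_X p i hp =>
    rw [map_mul, MvPolynomial.aeval_X, evalS_mul hr (nrm_aeval_ne_top hΦ p) (hΦ i) hz, hp,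
      map_mul, MvPolynomial.eval_X]

/-! ### Analyticity -/

/-- exponent `(i, j)` -/
noncomputable def ex (i j : ℕ) : Fin 2 →₀ ℕ := single 0 i + single 1 j

theorem ex_zero (i j : ℕ) : ex i j 0 = i := by simp [ex]

theorem ex_one (i j : ℕ) : ex i j 1 = j := by simp [ex]

/-- exponents as pairs -/
noncomputable def exEquiv : ℕ × ℕ ≃ (Fin 2 →₀ ℕ) where
  toFun p := ex p.1 p.2
  invFun m := (m 0, m 1)
  left_inv p := by simp [ex_zero, ex_one]
  right_inv m := by
    ext i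
    fin_cases i
    · simp [ex_zero]
    · simp [ex_one]

theorem degree_ex (i j : ℕ) : (ex i j).degree = i + j := by
  rw [degree_eq, ex_zero, ex_one]

/-- the multilinear map attached to a monomial -/
noncomputable def mlm (i n : ℕ) : ContinuousMultilinearMap ℂ (fun _ : Fin n => Fin 2 → ℂ) ℂ :=
  (ContinuousMultilinearMap.mkPiAlgebra ℂ (Fin n) ℂ).compContinuousLinearMap
    (fun k => ContinuousLinearMap.proj (if (k : ℕ) < i then 0 else 1))

theorem mlm_apply (i j : ℕ) (z : Fin 2 → ℂ) : mlm i (i + j) (fun _ => z) = z 0 ^ i * z 1 ^ j := by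
  rw [mlm, ContinuousMultilinearMap.compContinuousLinearMap_apply,
    ContinuousMultilinearMap.mkPiAlgebra_apply, Fin.prod_univ_add]
  congr 1
  · rw [← Fin.prod_const i (z 0)]
    refine Finset.prod_congr rfl fun k _ => ?_
    simp
  · rw [← Fin.prod_const j (z 1)]
    refine Finset.prod_congr rfl fun k _ => ?_
    simp

theorem norm_mlm_le (i n : ℕ) : ‖mlm i n‖ ≤ 1 := by
  rw [mlm]
  refine (ContinuousMultilinearMap.norm_compContinuousLinearMap_le _ _).trans ?_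
  rw [ContinuousMultilinearMap.norm_mkPiAlgebra, one_mul]
  refine Finset.prod_le_one (fun k _ => norm_nonneg _) fun k _ => ?_
  refine ContinuousLinearMap.opNorm_le_bound _ zero_le_one fun x => ?_
  rw [one_mul]
  exact norm_le_pi_norm x _

/-- The formal multilinear series attached to a power series. -/
noncomputable def fms (f : PS ℂ) : FormalMultilinearSeries ℂ (Fin 2 → ℂ) ℂ := fun n =>
  ∑ p ∈ Finset.HasAntidiagonal.antidiagonal n, MvPowerSeries.coeff (ex p.1 p.2) f • mlm p.1 n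

theorem fms_apply (f : PS ℂ) (n : ℕ) (z : Fin 2 → ℂ) : fms f n (fun _ => z) =
    ∑ p ∈ Finset.HasAntidiagonal.antidiagonal n, MvPowerSeries.coeff (ex p.1 p.2) f * monf (ex p.1 p.2) z := by
  rw [fms, _root_.sum_apply]
  refine Finset.sum_congr rfl fun p hp => ?_
  rw [Finset.HasAntidiagonal.mem_antidiagonal] at hp
  rw [_root_.smul_apply, ← hp, mlm_apply, smul_eq_mul, monf, ex_zero, ex_one]

theorem norm_fms_le (f : PS ℂ) (n : ℕ) : ‖fms f n‖ ≤
    ∑ p ∈ Finset.HasAntidiagonal.antidiagonal n, ‖MvPowerSeries.coeff (ex p.1 p.2) f‖ := by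
  rw [fms]
  refine (norm_sum_le _ _).trans (Finset.sum_le_sum fun p _ => ?_)
  rw [norm_smul (MvPowerSeries.coeff (ex p.1 p.2) f) (mlm p.1 n)]
  calc ‖MvPowerSeries.coeff (ex p.1 p.2) f‖ * ‖mlm p.1 n‖
      ≤ ‖MvPowerSeries.coeff (ex p.1 p.2) f‖ * 1 := by
        gcongr
        exact norm_mlm_le _ _
    _ = _ := mul_one _

/-- regrouping a sum over exponents by degree -/
theorem hasSum_antidiagonal {E : Type*} [NormedAddCommGroup E] {F : (Fin 2 →₀ ℕ) → E} {a : E}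
    (h : HasSum F a) :
    HasSum (fun n => ∑ p ∈ Finset.HasAntidiagonal.antidiagonal n, F (ex p.1 p.2)) a := by
  have h1 : HasSum (F ∘ exEquiv) a := exEquiv.hasSum_iff.2 h
  have h2 : HasSum ((F ∘ exEquiv) ∘
      (Finset.HasAntidiagonal.sigmaAntidiagonalEquivProd (A := ℕ))) a :=
    (Finset.HasAntidiagonal.sigmaAntidiagonalEquivProd (A := ℕ)).hasSum_iff.2 h1
  refine h2.sigma fun n => ?_
  have h3 := hasSum_fintype (fun c : Finset.HasAntidiagonal.antidiagonal n =>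
    ((F ∘ exEquiv) ∘ (Finset.HasAntidiagonal.sigmaAntidiagonalEquivProd (A := ℕ))) ⟨n, c⟩)
  convert! h3 using 1
  rw [← Finset.sum_coe_sort (Finset.HasAntidiagonal.antidiagonal n)]
  rfl

theorem hasFPowerSeriesOnBall_evalS {r : ℝ} (hr : 0 < r) {f : PS ℂ}
    (hf : nrm (ENNReal.ofReal r) f ≠ ⊤) :
    HasFPowerSeriesOnBall (evalS f) (fms f) 0 (ENNReal.ofReal r) where
  r_le := by
    have h1 : ((r.toNNReal : ℝ≥0) : ℝ≥0∞) = ENNReal.ofReal r := rfl
    rw [← h1]
    apply FormalMultilinearSeries.le_radius_of_summable_norm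
    have h2 := (hasSum_antidiagonal (summable_of_nrm hr.le hf).hasSum).summable
    refine Summable.of_nonneg_of_le (fun n => by positivity) (fun n => ?_) h2
    rw [Real.coe_toNNReal r hr.le]
    calc ‖fms f n‖ * r ^ n
        ≤ (∑ p ∈ Finset.HasAntidiagonal.antidiagonal n, ‖MvPowerSeries.coeff (ex p.1 p.2) f‖) * r ^ n := by
          gcongr
          exact norm_fms_le f n
      _ = ∑ p ∈ Finset.HasAntidiagonal.antidiagonal n,
          ‖MvPowerSeries.coeff (ex p.1 p.2) f‖ * r ^ (ex p.1 p.2).degree := by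
          rw [Finset.sum_mul]
          refine Finset.sum_congr rfl fun p hp => ?_
          rw [Finset.HasAntidiagonal.mem_antidiagonal] at hp
          rw [degree_ex, hp]
  r_pos := by
    rw [ENNReal.ofReal_pos]
    exact hr
  hasSum := by
    intro z hz
    rw [zero_add]
    have hz' : ∀ i, ‖z i‖ ≤ r := by
      intro i
      have h1 : ‖z‖ < r := by
        rw [Metric.eball_ofReal, mem_ball_zero_iff] at hz
        exact hz
      exact (norm_le_pi_norm z i).trans h1.le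
    have h1 := hasSum_antidiagonal (summable_eval hr.le hf hz').hasSum
    refine h1.congr_fun ?_
    intro n
    exact (fms_apply f n z)

end Pool.Agent.Work.MP_d6d6e6_ag
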