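import Mathlib

/-!
Formal part: the Poincare-Dulac type normal form of a planar vector field
`(x + p) ∂_x + (-y + q) ∂_y` over a `ℂ`-algebra, obtained by iteration.
-/

open Finsupp

set_option linter.unusedSectionVars false
set_option linter.unusedVariables false

namespace Pool.Agent.Work.MP_d6d6e6_ag

universe u v

/-- Power series in two variables. -/
abbrev PS (O : Type u) [CommRing O] : Type u := MvPowerSeries (Fin 2) O

section defs

variable {O : Type u} [CommRing O] [Algebra ℂ O]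

/-- Multiply the coefficients by scalars. -/
noncomputable def scale (w : (Fin 2 →₀ ℕ) → ℂ) (f : PS O) : PS O :=
  fun m => w m • MvPowerSeries.coeff m f

/-- The diagonal series whose coefficient at `(k, k)` is the coefficient of `f` at `(k, k) + e`. -/
noncomputable def diagPart (e : Fin 2 →₀ ℕ) (f : PS O) : PS O :=
  fun m => if m 0 = m 1 then MvPowerSeries.coeff (m + e) f else 0

theorem coeff_scale (w : (Fin 2 →₀ ℕ) → ℂ) (f : PS O) (m : Fin 2 →₀ ℕ) :
    MvPowerSeries.coeff m (scale w f) = w m • MvPowerSeries.coeff m f := rfl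

theorem coeff_diagPart (e : Fin 2 →₀ ℕ) (f : PS O) (m : Fin 2 →₀ ℕ) :
    MvPowerSeries.coeff m (diagPart e f) =
      if m 0 = m 1 then MvPowerSeries.coeff (m + e) f else 0 := rfl

/-- eigenvalue weight of `D = x ∂_x - y ∂_y`. -/
noncomputable def wD (m : Fin 2 →₀ ℕ) : ℂ := (m 0 : ℂ) - (m 1 : ℂ)

/-- weight of the inverse of `D - 1`. -/
noncomputable def w1 (m : Fin 2 →₀ ℕ) : ℂ := if m 0 = m 1 + 1 then 0 else (wD m - 1)⁻¹

/-- weight of the inverse of `D + 1`. -/
noncomputable def w2 (m : Fin 2 →₀ ℕ) : ℂ := if m 1 = m 0 + 1 then 0 else (wD m + 1)⁻¹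

/-- `f` has order at least `n`. -/
def OrdGe (n : ℕ) (f : PS O) : Prop := ∀ m : Fin 2 →₀ ℕ, m.degree < n → MvPowerSeries.coeff m f = 0

theorem ordGe_iff {n : ℕ} {f : PS O} : OrdGe n f ↔ (n : ℕ∞) ≤ f.order := by
  constructor
  · intro h
    exact MvPowerSeries.nat_le_order h
  · intro h m hm
    exact MvPowerSeries.coeff_of_lt_order (lt_of_lt_of_le (by exact_mod_cast hm) h)

theorem OrdGe.mono {n k : ℕ} {f : PS O} (h : OrdGe n f) (hk : k ≤ n) : OrdGe k f :=
  fun m hm => h m (lt_of_lt_of_le hm hk)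

theorem OrdGe.zero (n : ℕ) : OrdGe n (0 : PS O) := fun m _ => by simp

theorem OrdGe.add {n : ℕ} {f g : PS O} (hf : OrdGe n f) (hg : OrdGe n g) : OrdGe n (f + g) :=
  fun m hm => by rw [map_add, hf m hm, hg m hm, add_zero]

theorem OrdGe.neg {n : ℕ} {f : PS O} (hf : OrdGe n f) : OrdGe n (-f) :=
  fun m hm => by rw [map_neg, hf m hm, neg_zero]

theorem OrdGe.sub {n : ℕ} {f g : PS O} (hf : OrdGe n f) (hg : OrdGe n g) : OrdGe n (f - g) :=
  fun m hm => by rw [map_sub, hf m hm, hg m hm, sub_zero]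

theorem OrdGe.mul {n k : ℕ} {f g : PS O} (hf : OrdGe n f) (hg : OrdGe k g) :
    OrdGe (n + k) (f * g) := by
  rw [ordGe_iff] at *
  refine le_trans ?_ MvPowerSeries.le_order_mul
  push_cast
  exact add_le_add hf hg

theorem OrdGe.of_zero (f : PS O) : OrdGe 0 f := fun m hm => absurd hm (Nat.not_lt_zero _)

theorem OrdGe.scale {n : ℕ} {f : PS O} (hf : OrdGe n f) (w : (Fin 2 →₀ ℕ) → ℂ) :
    OrdGe n (scale w f) := fun m hm => by rw [coeff_scale, hf m hm, smul_zero]

theorem OrdGe.diagPart {n : ℕ} {f : PS O} (hf : OrdGe (n + 1) f) {e : Fin 2 →₀ ℕ}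
    (he : e.degree = 1) : OrdGe n (diagPart e f) := fun m hm => by
  rw [coeff_diagPart]
  split_ifs with h
  · refine hf _ ?_
    rw [map_add, he]
    omega
  · rfl

theorem scale_sub (w : (Fin 2 →₀ ℕ) → ℂ) (f g : PS O) :
    scale w (f - g) = scale w f - scale w g := by
  ext m
  rw [coeff_scale, map_sub, map_sub, smul_sub]
  rfl

theorem scale_add (w : (Fin 2 →₀ ℕ) → ℂ) (f g : PS O) :
    scale w (f + g) = scale w f + scale w g := by
  ext m
  rw [coeff_scale, map_add, map_add, smul_add]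
  rfl

theorem diagPart_sub (e : Fin 2 →₀ ℕ) (f g : PS O) :
    diagPart e (f - g) = diagPart e f - diagPart e g := by
  ext m
  rw [coeff_diagPart, map_sub, map_sub, coeff_diagPart, coeff_diagPart]
  split_ifs <;> simp

end defs

section aeval

variable {O : Type u} [CommRing O]

/-- A polynomial all of whose monomials have degree at least `2`. -/
def Ord2 (p : MvPolynomial (Fin 2) O) : Prop := ∀ m : Fin 2 →₀ ℕ, m.degree < 2 → p.coeff m = 0

theorem ordGe_aeval_sub [Algebra ℂ O] {Φ Ψ : Fin 2 → PS O} {n : ℕ}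
    (h : ∀ i, OrdGe n (Φ i - Ψ i)) (p : MvPolynomial (Fin 2) O) :
    OrdGe n (MvPolynomial.aeval Φ p - MvPolynomial.aeval Ψ p) := by
  induction p using MvPolynomial.induction_on with
  | C a => simpa using OrdGe.zero n
  | add p q hp hq =>
    have := hp.add hq
    rw [map_add, map_add]
    convert! this using 1
    ring
  | mul_X p i hp =>
    rw [map_mul, map_mul, MvPolynomial.aeval_X, MvPolynomial.aeval_X]
    have h1 : OrdGe (n + 0) ((MvPolynomial.aeval Φ p - MvPolynomial.aeval Ψ p) * Φ i) :=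
      hp.mul (OrdGe.of_zero _)
    have h2 : OrdGe (0 + n) (MvPolynomial.aeval Ψ p * (Φ i - Ψ i)) :=
      (OrdGe.of_zero _).mul (h i)
    rw [zero_add] at h2
    convert! h1.add h2 using 1
    ring

theorem ordGe_aeval_of_constantCoeff [Algebra ℂ O] {Φ : Fin 2 → PS O} (h : ∀ i, OrdGe 1 (Φ i))
    (p : MvPolynomial (Fin 2) O) :
    OrdGe 1 (MvPolynomial.aeval Φ p - MvPowerSeries.C (p.coeff 0)) := by
  induction p using MvPolynomial.induction_on with
  | C a =>
    simp only [MvPolynomial.aeval_C, MvPolynomial.coeff_zero_C]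
    rw [show (algebraMap O (PS O)) a = MvPowerSeries.C a from rfl, sub_self]
    exact OrdGe.zero 1
  | add p q hp hq =>
    rw [map_add, MvPolynomial.coeff_add, map_add]
    convert! hp.add hq using 1
    ring
  | mul_X p i hp =>
    rw [map_mul, MvPolynomial.aeval_X]
    have h0 : MvPolynomial.coeff 0 (p * MvPolynomial.X i) = 0 := by
      simp [MvPolynomial.coeff_mul_X']
    rw [h0, map_zero, sub_zero]
    have := (OrdGe.of_zero (MvPolynomial.aeval Φ p)).mul (h i)
    rwa [zero_add] at this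

theorem ordGe_aeval_sub_of_ord2 [Algebra ℂ O] {Φ Ψ : Fin 2 → PS O} {n : ℕ}
    (hΦ : ∀ i, OrdGe 1 (Φ i)) (hΨ : ∀ i, OrdGe 1 (Ψ i))
    (h : ∀ i, OrdGe n (Φ i - Ψ i)) {p : MvPolynomial (Fin 2) O} (hp : Ord2 p) :
    OrdGe (n + 1) (MvPolynomial.aeval Φ p - MvPolynomial.aeval Ψ p) := by
  classical
  have key : ∀ m ∈ p.support, OrdGe (n + 1)
      (MvPolynomial.aeval Φ (MvPolynomial.monomial m (p.coeff m)) -
        MvPolynomial.aeval Ψ (MvPolynomial.monomial m (p.coeff m))) := by
    intro m hm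
    have hdeg : 2 ≤ m.degree := by
      by_contra hlt
      exact (MvPolynomial.mem_support_iff.1 hm) (hp m (by omega))
    obtain ⟨i, hi⟩ : ∃ i, m i ≠ 0 := by
      by_contra hall
      push Not at hall
      have : m = 0 := Finsupp.ext hall
      rw [this] at hdeg
      simp at hdeg
    set m' := m - single i 1 with hm'
    have hmm' : m = m' + single i 1 := by
      rw [hm', tsub_add_cancel_of_le]
      rw [Finsupp.single_le_iff]
      omega
    have hdeg' : m' ≠ 0 := by
      intro h0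
      rw [h0, zero_add] at hmm'
      rw [hmm'] at hdeg
      simp at hdeg
    have e : MvPolynomial.monomial m (p.coeff m) =
        MvPolynomial.monomial m' (p.coeff m) * MvPolynomial.X i := by
      rw [MvPolynomial.X, MvPolynomial.monomial_mul, mul_one, ← hmm']
    rw [e, map_mul, map_mul, MvPolynomial.aeval_X, MvPolynomial.aeval_X]
    set p' := MvPolynomial.monomial m' (p.coeff m) with hp'
    have hp0 : p'.coeff 0 = 0 := by
      rw [hp', MvPolynomial.coeff_monomial, if_neg hdeg']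
    have h1 := ordGe_aeval_of_constantCoeff hΨ p'
    rw [hp0, map_zero, sub_zero] at h1
    have h2 := (ordGe_aeval_sub h p').mul (hΦ i)
    have h3 := h1.mul (h i)
    rw [add_comm 1 n] at h3
    convert! h2.add h3 using 1
    ring
  have : MvPolynomial.aeval Φ p - MvPolynomial.aeval Ψ p = ∑ m ∈ p.support,
      (MvPolynomial.aeval Φ (MvPolynomial.monomial m (p.coeff m)) -
        MvPolynomial.aeval Ψ (MvPolynomial.monomial m (p.coeff m))) := by
    rw [Finset.sum_sub_distrib, ← map_sum, ← map_sum, ← MvPolynomial.as_sum]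
  rw [this]
  intro d hd
  rw [map_sum]
  exact Finset.sum_eq_zero fun m hm => key m hm d hd

theorem ordGe_aeval_of_ord2 [Algebra ℂ O] {Φ : Fin 2 → PS O}
    (hΦ : ∀ i, OrdGe 1 (Φ i)) {p : MvPolynomial (Fin 2) O} (hp : Ord2 p) :
    OrdGe 2 (MvPolynomial.aeval Φ p) := by
  have h := ordGe_aeval_sub_of_ord2 (Φ := Φ) (Ψ := fun _ => 0) (n := 1) hΦ
    (fun i => OrdGe.zero 1) (fun i => by simpa using hΦ i) hp
  have h0 : MvPolynomial.aeval (fun _ => (0 : PS O)) p = 0 := by
    rw [MvPolynomial.aeval_zero']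
    have : MvPolynomial.constantCoeff p = 0 := by
      rw [MvPolynomial.constantCoeff_eq]
      exact hp 0 (by simp)
    rw [this, map_zero]
  rwa [h0, sub_zero] at h

end aeval

end Pool.Agent.Work.MP_d6d6e6_ag
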