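import Pool.Agent.Work.MP_d6d6e6_ag.Iter

/-! The two functional equations of the formal normal form. -/

open Finsupp

set_option linter.unusedSectionVars false
set_option linter.unusedVariables false

namespace Pool.Agent.Work.MP_d6d6e6_ag

universe u v

variable {O : Type u} [CommRing O] [Algebra ℂ O]

/-- supported on the diagonal -/
def DiagSupp (f : PS O) : Prop := ∀ m : Fin 2 →₀ ℕ, m 0 ≠ m 1 → MvPowerSeries.coeff m f = 0

theorem diagSupp_diagPart (e : Fin 2 →₀ ℕ) (f : PS O) : DiagSupp (diagPart e f) := fun m hm => by
  rw [coeff_diagPart, if_neg hm]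

theorem coeff_mul_X' (f : PS O) (i : Fin 2) (m : Fin 2 →₀ ℕ) :
    MvPowerSeries.coeff m (f * MvPowerSeries.X i) =
      if single i 1 ≤ m then MvPowerSeries.coeff (m - single i 1) f else 0 := by
  classical
  rw [MvPowerSeries.X, MvPowerSeries.coeff_mul_monomial]
  simp

theorem wD_eq {m : Fin 2 →₀ ℕ} {a b : Fin 2 →₀ ℕ} (h : a + b = m) : wD m = wD a + wD b := by
  rw [← h]
  simp only [wD, Finsupp.add_apply, Nat.cast_add]
  ring

/-- no diagonal contribution of `A * D α`. -/
theorem coeff_mul_scale_eq_zero {A f : PS O} (hA : DiagSupp A) {m : Fin 2 →₀ ℕ}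
    (hf : ∀ b : Fin 2 →₀ ℕ, (b 0 : ℤ) - b 1 = (m 0 : ℤ) - m 1 → MvPowerSeries.coeff b f = 0) :
    MvPowerSeries.coeff m (A * scale wD f) = 0 := by
  classical
  rw [MvPowerSeries.coeff_mul]
  refine Finset.sum_eq_zero fun p hp => ?_
  rw [Finset.HasAntidiagonal.mem_antidiagonal] at hp
  by_cases h : p.1 0 = p.1 1
  · have h2 : (p.2 0 : ℤ) - p.2 1 = (m 0 : ℤ) - m 1 := by
      rw [← hp]
      simp only [Finsupp.add_apply, Nat.cast_add, h]
      ring
    rw [coeff_scale, hf _ h2, smul_zero, mul_zero]
  · rw [hA _ h, zero_mul]

variable {p q : MvPolynomial (Fin 2) O}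

/-- The obstruction series. -/
noncomputable def obs (p q : MvPolynomial (Fin 2) O) : PS O :=
  diagPart (single 1 1) (MvPolynomial.aeval (Phi (lim p q)) q) + (lim p q).a

theorem al_eq (hp : Ord2 p) (hq : Ord2 q) : (lim p q).al =
    scale w1 (MvPolynomial.aeval (Phi (lim p q)) p - (lim p q).a * scale wD (lim p q).al) :=
  congrArg St.al (step_lim hp hq).symm

theorem be_eq (hp : Ord2 p) (hq : Ord2 q) : (lim p q).be =
    scale w2 (MvPolynomial.aeval (Phi (lim p q)) q - (lim p q).a * scale wD (lim p q).be) :=
  congrArg St.be (step_lim hp hq).symm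

theorem a_eq (hp : Ord2 p) (hq : Ord2 q) : (lim p q).a =
    diagPart (single 0 1) (MvPolynomial.aeval (Phi (lim p q)) p) :=
  congrArg St.a (step_lim hp hq).symm

theorem first_identity (hp : Ord2 p) (hq : Ord2 q) :
    (1 + (lim p q).a) * (MvPowerSeries.X 0 + scale wD (lim p q).al) =
      MvPowerSeries.X 0 + (lim p q).al + MvPolynomial.aeval (Phi (lim p q)) p := by
  set P := MvPolynomial.aeval (Phi (lim p q)) p with hP
  set A := (lim p q).a with hA
  set α := (lim p q).al with hα
  have hα' : α = scale w1 (P - A * scale wD α) := al_eq hp hq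
  have hA' : A = diagPart (single 0 1) P := a_eq hp hq
  have hAd : DiagSupp A := hA' ▸ diagSupp_diagPart _ _
  have hα0 : ∀ b : Fin 2 →₀ ℕ, b 0 = b 1 + 1 → MvPowerSeries.coeff b α = 0 := by
    intro b hb
    rw [hα', coeff_scale, w1, if_pos hb, zero_smul]
  have key : (scale wD α - α) + A * MvPowerSeries.X 0 + A * scale wD α = P := by
    apply MvPowerSeries.ext
    intro m
    rw [map_add, map_add, map_sub, coeff_scale, coeff_mul_X']
    by_cases hm : m 0 = m 1 + 1
    · rw [hα0 m hm, smul_zero, sub_zero, zero_add]
      rw [coeff_mul_scale_eq_zero hAd (m := m), add_zero]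
      · rw [if_pos, hA', coeff_diagPart, if_pos, tsub_add_cancel_of_le]
        · rw [Finsupp.single_le_iff]
          omega
        · simp only [Finsupp.tsub_apply]
          simp [hm]
        · rw [Finsupp.single_le_iff]
          omega
      · intro b hb
        apply hα0
        omega
    · have h1 : (if single 0 1 ≤ m then MvPowerSeries.coeff (m - single 0 1) A else 0) = 0 := by
        split_ifs with h
        · apply hAd
          rw [Finsupp.single_le_iff] at h
          simp only [Finsupp.tsub_apply]
          simp
          omega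
        · rfl
      rw [h1, add_zero]
      have hne : wD m - 1 ≠ 0 := by
        intro h0
        apply hm
        rw [wD] at h0
        have : (m 0 : ℂ) = ((m 1 + 1 : ℕ) : ℂ) := by
          push_cast
          linear_combination h0
        exact_mod_cast this
      have h2 : wD m • MvPowerSeries.coeff m α - MvPowerSeries.coeff m α =
          (wD m - 1) • MvPowerSeries.coeff m α := by
        rw [sub_smul, one_smul]
      rw [h2]
      have h3 : MvPowerSeries.coeff m α =
        w1 m • MvPowerSeries.coeff m (P - A * scale wD α) := by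
        conv_lhs => rw [hα']
        rw [coeff_scale]
      rw [h3, w1, if_neg hm, smul_smul, mul_inv_cancel₀ hne, one_smul, map_sub, sub_add_cancel]
  linear_combination key

theorem second_identity (hp : Ord2 p) (hq : Ord2 q) :
    (1 + (lim p q).a) * (-MvPowerSeries.X 1 + scale wD (lim p q).be) =
      -(MvPowerSeries.X 1 + (lim p q).be) + MvPolynomial.aeval (Phi (lim p q)) q
        - obs p q * MvPowerSeries.X 1 := by
  set Q := MvPolynomial.aeval (Phi (lim p q)) q with hQ
  set A := (lim p q).a with hA
  set β := (lim p q).be with hβ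
  have hβ' : β = scale w2 (Q - A * scale wD β) := be_eq hp hq
  have hA' : A = diagPart (single 0 1) (MvPolynomial.aeval (Phi (lim p q)) p) := a_eq hp hq
  have hAd : DiagSupp A := hA' ▸ diagSupp_diagPart _ _
  have hβ0 : ∀ b : Fin 2 →₀ ℕ, b 1 = b 0 + 1 → MvPowerSeries.coeff b β = 0 := by
    intro b hb
    rw [hβ', coeff_scale, w2, if_pos hb, zero_smul]
  have key : (scale wD β + β) + diagPart (single 1 1) Q * MvPowerSeries.X 1
      + A * scale wD β = Q := by
    apply MvPowerSeries.ext
    intro m
    rw [map_add, map_add, map_add, coeff_scale, coeff_mul_X']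
    by_cases hm : m 1 = m 0 + 1
    · rw [hβ0 m hm, smul_zero, add_zero, zero_add]
      rw [coeff_mul_scale_eq_zero hAd (m := m), add_zero]
      · rw [if_pos, coeff_diagPart, if_pos, tsub_add_cancel_of_le]
        · rw [Finsupp.single_le_iff]
          omega
        · simp only [Finsupp.tsub_apply]
          simp [hm]
        · rw [Finsupp.single_le_iff]
          omega
      · intro b hb
        apply hβ0
        omega
    · have h1 : (if single 1 1 ≤ m then
          MvPowerSeries.coeff (m - single 1 1) (diagPart (single 1 1) Q) else 0) = 0 := by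
        split_ifs with h
        · apply diagSupp_diagPart
          rw [Finsupp.single_le_iff] at h
          simp only [Finsupp.tsub_apply]
          simp
          omega
        · rfl
      rw [h1, add_zero]
      have hne : wD m + 1 ≠ 0 := by
        intro h0
        apply hm
        rw [wD] at h0
        have : (m 1 : ℂ) = ((m 0 + 1 : ℕ) : ℂ) := by
          push_cast
          linear_combination -h0
        exact_mod_cast this
      have h2 : wD m • MvPowerSeries.coeff m β + MvPowerSeries.coeff m β =
          (wD m + 1) • MvPowerSeries.coeff m β := by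
        rw [add_smul, one_smul]
      rw [h2]
      have h3 : MvPowerSeries.coeff m β =
        w2 m • MvPowerSeries.coeff m (Q - A * scale wD β) := by
        conv_lhs => rw [hβ']
        rw [coeff_scale]
      rw [h3, w2, if_neg hm, smul_smul, mul_inv_cancel₀ hne, one_smul, map_sub, sub_add_cancel]
  rw [obs, ← hQ, ← hA]
  linear_combination key

end Pool.Agent.Work.MP_d6d6e6_ag
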