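import Pool.Agent.Work.MP_d6d6e6_ag.Formal

open Finsupp

set_option linter.unusedSectionVars false
set_option linter.unusedVariables false

namespace Pool.Agent.Work.MP_d6d6e6_ag

universe u v

section iteration

variable {O : Type u} [CommRing O] [Algebra ℂ O]

/-- Data `(α, β, a)` of an approximate normal form. -/
@[ext] structure St (O : Type u) [CommRing O] : Type u where
  /-- first component of the coordinate change minus identity -/
  al : PS O
  /-- second component of the coordinate change minus identity -/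
  be : PS O
  /-- time change -/
  a : PS O

/-- The coordinate change attached to a state. -/
noncomputable def Phi (s : St O) : Fin 2 → PS O :=
  ![MvPowerSeries.X 0 + s.al, MvPowerSeries.X 1 + s.be]

/-- One step of the iteration. -/
noncomputable def step (p q : MvPolynomial (Fin 2) O) (s : St O) : St O where
  al := scale w1 (MvPolynomial.aeval (Phi s) p - s.a * scale wD s.al)
  be := scale w2 (MvPolynomial.aeval (Phi s) q - s.a * scale wD s.be)
  a := diagPart (single 0 1) (MvPolynomial.aeval (Phi s) p)

/-- The iterates. -/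
noncomputable def iter (p q : MvPolynomial (Fin 2) O) : ℕ → St O
  | 0 => ⟨0, 0, 0⟩
  | n + 1 => step p q (iter p q n)

/-- two states agree up to order `n`. -/
structure Cong (n : ℕ) (s t : St O) : Prop where
  al : OrdGe (n + 1) (s.al - t.al)
  be : OrdGe (n + 1) (s.be - t.be)
  a : OrdGe n (s.a - t.a)

/-- A state of order at least two. -/
structure Good (s : St O) : Prop where
  al : OrdGe 2 s.al
  be : OrdGe 2 s.be
  a : OrdGe 1 s.a

theorem ordGe_X (i : Fin 2) : OrdGe 1 (MvPowerSeries.X i : PS O) := by
  intro m hm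
  have : m = 0 := by
    have h0 : m.degree = 0 := by omega
    exact (Finsupp.degree_eq_zero_iff m).1 h0
  rw [this]
  simp

theorem Good.phi {s : St O} (h : Good s) : ∀ i, OrdGe 1 (Phi s i) := by
  intro i
  fin_cases i
  · exact (ordGe_X 0).add (h.al.mono (by norm_num))
  · exact (ordGe_X 1).add (h.be.mono (by norm_num))

theorem Good.step {p q : MvPolynomial (Fin 2) O} (hp : Ord2 p) (hq : Ord2 q) {s : St O}
    (h : Good s) : Good (step p q s) where
  al := by
    refine OrdGe.scale (OrdGe.sub (ordGe_aeval_of_ord2 h.phi hp) ?_) _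
    exact ((OrdGe.of_zero _).mul (h.al.scale wD)).mono (by norm_num)
  be := by
    refine OrdGe.scale (OrdGe.sub (ordGe_aeval_of_ord2 h.phi hq) ?_) _
    exact ((OrdGe.of_zero _).mul (h.be.scale wD)).mono (by norm_num)
  a := (ordGe_aeval_of_ord2 h.phi hp).diagPart (by simp)

theorem good_iter {p q : MvPolynomial (Fin 2) O} (hp : Ord2 p) (hq : Ord2 q) (n : ℕ) :
    Good (iter p q n) := by
  induction n with
  | zero => exact ⟨OrdGe.zero _, OrdGe.zero _, OrdGe.zero _⟩
  | succ n ih => exact ih.step hp hq

theorem Cong.phi {n : ℕ} {s t : St O} (h : Cong n s t) :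
    ∀ i, OrdGe (n + 1) (Phi s i - Phi t i) := by
  intro i
  fin_cases i
  · have : Phi s 0 - Phi t 0 = s.al - t.al := by simp [Phi]
    exact this ▸ h.al
  · have : Phi s 1 - Phi t 1 = s.be - t.be := by simp [Phi]
    exact this ▸ h.be

theorem Cong.step {p q : MvPolynomial (Fin 2) O} (hp : Ord2 p) (hq : Ord2 q) {n : ℕ} {s t : St O}
    (hs : Good s) (ht : Good t) (h : Cong n s t) : Cong (n + 1) (step p q s) (step p q t) where
  al := by
    have h1 := ordGe_aeval_sub_of_ord2 hs.phi ht.phi h.phi hp
    have h2 : OrdGe (n + 1 + 1) (s.a * scale wD s.al - t.a * scale wD t.al) := by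
      have e : s.a * scale wD s.al - t.a * scale wD t.al =
        (s.a - t.a) * scale wD s.al + t.a * scale wD (s.al - t.al) := by
        rw [scale_sub]
        ring
      rw [e]
      exact ((h.a.mul (hs.al.scale wD)).mono (by omega)).add
        ((ht.a.mul (h.al.scale wD)).mono (by omega))
    show OrdGe (n + 1 + 1) (scale w1 _ - scale w1 _)
    rw [← scale_sub]
    apply OrdGe.scale
    convert! h1.sub h2 using 1
    ring
  be := by
    have h1 := ordGe_aeval_sub_of_ord2 hs.phi ht.phi h.phi hq
    have h2 : OrdGe (n + 1 + 1) (s.a * scale wD s.be - t.a * scale wD t.be) := by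
      have e : s.a * scale wD s.be - t.a * scale wD t.be =
        (s.a - t.a) * scale wD s.be + t.a * scale wD (s.be - t.be) := by
        rw [scale_sub]
        ring
      rw [e]
      exact ((h.a.mul (hs.be.scale wD)).mono (by omega)).add
        ((ht.a.mul (h.be.scale wD)).mono (by omega))
    show OrdGe (n + 1 + 1) (scale w2 _ - scale w2 _)
    rw [← scale_sub]
    apply OrdGe.scale
    convert! h1.sub h2 using 1
    ring
  a := by
    have h1 := ordGe_aeval_sub_of_ord2 hs.phi ht.phi h.phi hp
    show OrdGe (n + 1) (diagPart _ _ - diagPart _ _)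
    rw [← diagPart_sub]
    exact h1.diagPart (by simp)

theorem cong_iter {p q : MvPolynomial (Fin 2) O} (hp : Ord2 p) (hq : Ord2 q) (n : ℕ) :
    Cong n (iter p q (n + 1)) (iter p q n) := by
  induction n with
  | zero =>
    have h := good_iter hp hq 1
    have e : iter p q 0 = ⟨0, 0, 0⟩ := rfl
    rw [e]
    refine ⟨?_, ?_, ?_⟩
    · simpa using h.al.mono (by norm_num)
    · simpa using h.be.mono (by norm_num)
    · exact OrdGe.of_zero _
  | succ n ih => exact ih.step hp hq (good_iter hp hq _) (good_iter hp hq _)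

theorem Cong.trans {n : ℕ} {s t u : St O} (h1 : Cong n s t) (h2 : Cong n t u) : Cong n s u where
  al := by
    have := h1.al.add h2.al
    rwa [sub_add_sub_cancel] at this
  be := by
    have := h1.be.add h2.be
    rwa [sub_add_sub_cancel] at this
  a := by
    have := h1.a.add h2.a
    rwa [sub_add_sub_cancel] at this

theorem Cong.symm {n : ℕ} {s t : St O} (h1 : Cong n s t) : Cong n t s where
  al := by
    have := h1.al.neg
    rwa [neg_sub] at this
  be := by
    have := h1.be.neg
    rwa [neg_sub] at this
  a := by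
    have := h1.a.neg
    rwa [neg_sub] at this

theorem Cong.mono {n k : ℕ} (hk : k ≤ n) {s t : St O} (h1 : Cong n s t) : Cong k s t where
  al := h1.al.mono (by omega)
  be := h1.be.mono (by omega)
  a := h1.a.mono hk

theorem Cong.refl (n : ℕ) (s : St O) : Cong n s s where
  al := by simpa using OrdGe.zero _
  be := by simpa using OrdGe.zero _
  a := by simpa using OrdGe.zero _

theorem cong_iter_le {p q : MvPolynomial (Fin 2) O} (hp : Ord2 p) (hq : Ord2 q) {n k : ℕ}
    (h : n ≤ k) : Cong n (iter p q k) (iter p q n) := by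
  induction k, h using Nat.le_induction with
  | base => exact Cong.refl _ _
  | succ k hk ih => exact ((cong_iter hp hq k).mono hk).trans ih

/-- The power series with prescribed coefficients. -/
noncomputable def ofCoeff (c : (Fin 2 →₀ ℕ) → O) : PS O := c

theorem coeff_ofCoeff (c : (Fin 2 →₀ ℕ) → O) (m : Fin 2 →₀ ℕ) :
    MvPowerSeries.coeff m (ofCoeff c) = c m := rfl

/-- The limit of the iteration. -/
noncomputable def lim (p q : MvPolynomial (Fin 2) O) : St O where
  al := ofCoeff fun m => MvPowerSeries.coeff m (iter p q (m.degree + 1)).al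
  be := ofCoeff fun m => MvPowerSeries.coeff m (iter p q (m.degree + 1)).be
  a := ofCoeff fun m => MvPowerSeries.coeff m (iter p q (m.degree + 1)).a

theorem lim_al (p q : MvPolynomial (Fin 2) O) (m : Fin 2 →₀ ℕ) :
    MvPowerSeries.coeff m (lim p q).al =
      MvPowerSeries.coeff m (iter p q (m.degree + 1)).al := coeff_ofCoeff _ m

theorem lim_be (p q : MvPolynomial (Fin 2) O) (m : Fin 2 →₀ ℕ) :
    MvPowerSeries.coeff m (lim p q).be =
      MvPowerSeries.coeff m (iter p q (m.degree + 1)).be := coeff_ofCoeff _ m

theorem lim_a (p q : MvPolynomial (Fin 2) O) (m : Fin 2 →₀ ℕ) :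
    MvPowerSeries.coeff m (lim p q).a =
      MvPowerSeries.coeff m (iter p q (m.degree + 1)).a := coeff_ofCoeff _ m

theorem OrdGe.coeff_eq {n : ℕ} {f g : PS O} (h : OrdGe n (f - g)) {m : Fin 2 →₀ ℕ}
    (hm : m.degree < n) : MvPowerSeries.coeff m f = MvPowerSeries.coeff m g := by
  have := h m hm
  rwa [map_sub, sub_eq_zero] at this

theorem cong_lim {p q : MvPolynomial (Fin 2) O} (hp : Ord2 p) (hq : Ord2 q) (n : ℕ) :
    Cong n (lim p q) (iter p q n) := by
  have key : ∀ m : Fin 2 →₀ ℕ, m.degree + 1 ≤ n ∨ n ≤ m.degree + 1 := fun m =>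
    le_total _ _
  refine ⟨?_, ?_, ?_⟩
  · intro m hm
    rw [map_sub, sub_eq_zero, lim_al]
    rcases key m with h | h
    · exact ((cong_iter_le hp hq h).symm.al.coeff_eq (Nat.lt_succ_of_lt (Nat.lt_succ_self _)))
    · exact ((cong_iter_le hp hq h).al.coeff_eq hm)
  · intro m hm
    rw [map_sub, sub_eq_zero, lim_be]
    rcases key m with h | h
    · exact ((cong_iter_le hp hq h).symm.be.coeff_eq (Nat.lt_succ_of_lt (Nat.lt_succ_self _)))
    · exact ((cong_iter_le hp hq h).be.coeff_eq hm)
  · intro m hm
    rw [map_sub, sub_eq_zero, lim_a]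
    rcases key m with h | h
    · exact ((cong_iter_le hp hq h).symm.a.coeff_eq (Nat.lt_succ_self _))
    · exact ((cong_iter_le hp hq h).a.coeff_eq hm)

theorem Good.of_cong {n : ℕ} (hn : 1 ≤ n) {s t : St O} (h : Cong n s t) (ht : Good t) : Good s where
  al := by
    have := (h.al.mono (by omega : 2 ≤ n + 1)).add ht.al
    rwa [sub_add_cancel] at this
  be := by
    have := (h.be.mono (by omega : 2 ≤ n + 1)).add ht.be
    rwa [sub_add_cancel] at this
  a := by
    have := (h.a.mono hn).add ht.a
    rwa [sub_add_cancel] at this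

theorem good_lim {p q : MvPolynomial (Fin 2) O} (hp : Ord2 p) (hq : Ord2 q) :
    Good (lim p q) := Good.of_cong le_rfl (cong_lim hp hq 1) (good_iter hp hq 1)

theorem eq_of_cong {s t : St O} (h : ∀ n, Cong n s t) : s = t := by
  ext m
  · exact (h (m.degree + 1)).al.coeff_eq (by omega)
  · exact (h (m.degree + 1)).be.coeff_eq (by omega)
  · exact (h (m.degree + 1)).a.coeff_eq (by omega)

/-- The limit is a fixed point. -/
theorem step_lim {p q : MvPolynomial (Fin 2) O} (hp : Ord2 p) (hq : Ord2 q) :
    step p q (lim p q) = lim p q := by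
  apply eq_of_cong
  intro n
  have h1 : Cong (n + 1) (step p q (lim p q)) (step p q (iter p q n)) :=
    (cong_lim hp hq n).step hp hq (good_lim hp hq) (good_iter hp hq n)
  exact (h1.trans (cong_lim hp hq (n + 1)).symm).mono (by omega)

end iteration

end Pool.Agent.Work.MP_d6d6e6_ag
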