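import Pool.Agent.Work.MP_d6d6e6_ag.NormalForm
import Pool.Agent.Work.MP_d6d6e6_ag.Defs

/-! Vanishing of the obstruction series gives a center. -/

open Finsupp Filter Topology
open scoped ENNReal NNReal

set_option linter.unusedSectionVars false
set_option linter.unusedVariables false

namespace Pool.Agent.Work.MP_d6d6e6_ag

/-- The vector field `V` has a holomorphic first integral `u ^ 2 + v ^ 2` of Morse type at `p`. -/
def HasCenter (V : (Fin 2 → ℂ) → (Fin 2 → ℂ)) (p : Fin 2 → ℂ) : Prop :=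
  ∃ u v : (Fin 2 → ℂ) → ℂ, IsLocalCoord u v p ∧
    ∀ᶠ z in 𝓝 p, fderiv ℂ (fun t => u t ^ 2 + v t ^ 2) z (V z) = 0

theorem vec_eq (x : Fin 2 → ℂ) : x = x 0 • (Pi.single 0 1 : Fin 2 → ℂ) + x 1 • Pi.single 1 1 := by
  funext i
  fin_cases i <;> simp

/-- a linear form on the plane -/
theorem clm_apply (L : (Fin 2 → ℂ) →L[ℂ] ℂ) (x : Fin 2 → ℂ) :
    L x = x 0 * L (Pi.single 0 1) + x 1 * L (Pi.single 1 1) := by
  conv_lhs => rw [vec_eq x]
  rw [map_add, map_smul, map_smul, smul_eq_mul, smul_eq_mul]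

theorem eventually_polydisc {r : ℝ} (hr : 0 < r) : ∀ᶠ z : Fin 2 → ℂ in 𝓝 0, ∀ i, ‖z i‖ < r := by
  have : Metric.ball (0 : Fin 2 → ℂ) r ∈ 𝓝 0 := Metric.ball_mem_nhds _ hr
  filter_upwards [this] with z hz i
  rw [mem_ball_zero_iff] at hz
  exact (norm_le_pi_norm z i).trans_lt hz

theorem one_add_ne_zero {c : ℂ} (h : ‖c‖ ≤ 1 / 4) : 1 + c ≠ 0 := by
  intro h0
  have : c = -1 := by linear_combination h0
  rw [this, norm_neg, norm_one] at h
  norm_num at h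

theorem hasCenter_of_obs {p q : MvPolynomial (Fin 2) ℂ} (hp : Ord2 p) (hq : Ord2 q)
    (h0 : obs p q = 0) : HasCenter (vhat p q) 0 := by
  obtain ⟨r, Φ, a, hr, hobs, hΦ0, hΦd, hnf, -⟩ := exists_normal_form hp hq
  have hΦan : AnalyticAt ℂ Φ 0 := (hnf 0 (fun i => by simpa using hr)).1
  -- inverse function
  have hfd : fderiv ℂ Φ 0 = (ContinuousLinearEquiv.refl ℂ (Fin 2 → ℂ) :
      (Fin 2 → ℂ) →L[ℂ] (Fin 2 → ℂ)) := hΦd.fderiv
  have hstrict : HasStrictFDerivAt Φ (ContinuousLinearEquiv.refl ℂ (Fin 2 → ℂ) :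
      (Fin 2 → ℂ) →L[ℂ] (Fin 2 → ℂ)) 0 := by
    rw [← hfd]
    exact hΦan.hasStrictFDerivAt
  set R := HasStrictFDerivAt.toOpenPartialHomeomorph Φ hstrict with hR
  have hRcoe : (R : (Fin 2 → ℂ) → (Fin 2 → ℂ)) = Φ :=
    HasStrictFDerivAt.toOpenPartialHomeomorph_coe hstrict
  have hsrc : (0 : Fin 2 → ℂ) ∈ R.source :=
    HasStrictFDerivAt.mem_toOpenPartialHomeomorph_source hstrict
  have htgt : (0 : Fin 2 → ℂ) ∈ R.target := by
    have := R.map_source hsrc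
    rwa [hRcoe, hΦ0] at this
  have hsymm0 : R.symm 0 = 0 := by
    have := R.left_inv hsrc
    rwa [hRcoe, hΦ0] at this
  obtain ⟨Ψ, hΨ⟩ : ∃ Ψ : (Fin 2 → ℂ) → (Fin 2 → ℂ), Ψ = (R.symm : (Fin 2 → ℂ) → (Fin 2 → ℂ)) :=
    ⟨_, rfl⟩
  have hΨan : AnalyticAt ℂ Ψ 0 := by
    rw [hΨ]
    refine OpenPartialHomeomorph.analyticAt_symm R (i := ContinuousLinearEquiv.refl ℂ (Fin 2 → ℂ))
      htgt ?_ ?_
    · rw [hsymm0, hRcoe]
      exact hΦan
    · rw [hsymm0, hRcoe]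
      exact hfd
  have hΦΨ : ∀ᶠ y in 𝓝 (0 : Fin 2 → ℂ), Φ (Ψ y) = y := by
    filter_upwards [R.open_target.mem_nhds htgt] with y hy
    have := R.right_inv hy
    rwa [hRcoe, ← hΨ] at this
  have hΨΦ : ∀ᶠ z in 𝓝 (0 : Fin 2 → ℂ), Ψ (Φ z) = z := by
    filter_upwards [R.open_source.mem_nhds hsrc] with z hz
    have := R.left_inv hz
    rwa [hRcoe, ← hΨ] at this
  have hΨd : HasFDerivAt Ψ (ContinuousLinearMap.id ℂ (Fin 2 → ℂ)) 0 := by
    have h1 : HasFDerivAt (fun y => Φ (Ψ y)) ((fderiv ℂ Φ 0).comp (fderiv ℂ Ψ 0)) 0 := by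
      have h2 : HasFDerivAt Φ (fderiv ℂ Φ 0) (Ψ 0) := by
        rw [hΨ, hsymm0]
        exact hΦan.differentiableAt.hasFDerivAt
      exact h2.comp (0 : Fin 2 → ℂ) hΨan.differentiableAt.hasFDerivAt
    have h3 : HasFDerivAt (fun y => Φ (Ψ y)) (ContinuousLinearMap.id ℂ (Fin 2 → ℂ)) 0 :=
      (hasFDerivAt_id (𝕜 := ℂ) (0 : Fin 2 → ℂ)).congr_of_eventuallyEq hΦΨ
    have h4 := h1.unique h3
    rw [hfd] at h4
    have h5 : fderiv ℂ Ψ 0 = ContinuousLinearMap.id ℂ (Fin 2 → ℂ) := by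
      rw [← h4]
      ext x i
      simp
    rw [← h5]
    exact hΨan.differentiableAt.hasFDerivAt
  have hΨ0 : Ψ 0 = 0 := by rw [hΨ]; exact hsymm0
  have hΨi : ∀ i, AnalyticAt ℂ (fun y => Ψ y i) 0 := fun i => (analyticAt_pi_iff.1 hΨan) i
  have hΨdi : ∀ i, HasFDerivAt (fun y => Ψ y i)
      (ContinuousLinearMap.proj i : (Fin 2 → ℂ) →L[ℂ] ℂ) 0 := by
    intro i
    have := (hasFDerivAt_pi'.1 hΨd) i
    rwa [ContinuousLinearMap.comp_id] at this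
  refine ⟨fun y => (Ψ y 0 + Ψ y 1) * (1 / 2), fun y => (Ψ y 0 - Ψ y 1) * (-(Complex.I / 2)),
    ⟨((hΨi 0).add (hΨi 1)).mul analyticAt_const, ((hΨi 0).sub (hΨi 1)).mul analyticAt_const,
      by simp [hΨ0], by simp [hΨ0], ?_⟩, ?_⟩
  · have hu := (((hΨdi 0).add (hΨdi 1)).mul_const (1 / 2 : ℂ)).fderiv
    have hv := (((hΨdi 0).sub (hΨdi 1)).mul_const (-(Complex.I / 2) : ℂ)).fderiv
    simp only [wedge, differential]
    erw [hu, hv]
    simp
  · have hfun : (fun t => ((Ψ t 0 + Ψ t 1) * (1 / 2)) ^ 2 +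
        ((Ψ t 0 - Ψ t 1) * (-(Complex.I / 2))) ^ 2) = fun t => Ψ t 0 * Ψ t 1 := by
      funext t
      have : Complex.I ^ 2 = -1 := Complex.I_sq
      linear_combination ((Ψ t 0 - Ψ t 1) ^ 2 / 4) * this
    rw [hfun]
    -- work at `y = Φ z`, `z = Ψ y`
    have hev : ∀ᶠ z in 𝓝 (0 : Fin 2 → ℂ),
        fderiv ℂ (fun t => Ψ t 0 * Ψ t 1) (Φ z) (vhat p q (Φ z)) = 0 := by
      have hΨΦ' := hΨΦ.eventually_nhds
      have hΨan' : ∀ᶠ z in 𝓝 (0 : Fin 2 → ℂ), AnalyticAt ℂ Ψ (Φ z) := by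
        have h1 : ∀ᶠ y in 𝓝 (Φ 0), AnalyticAt ℂ Ψ y := by
          rw [hΦ0]
          exact hΨan.eventually_analyticAt
        exact hΦan.continuousAt.eventually h1
      filter_upwards [hΨΦ', hΨan', eventually_polydisc hr] with z hz1 hz2 hz3
      obtain ⟨hzan, hza, hzv⟩ := hnf z hz3
      rw [h0, evalS_zero, zero_mul] at hzv
      have hz0 : (![0, 0] : Fin 2 → ℂ) = 0 := by
        funext i
        fin_cases i <;> rfl
      rw [hz0, add_zero] at hzv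
      rw [hzv, map_smul]
      have hf : DifferentiableAt ℂ (fun t => Ψ t 0 * Ψ t 1) (Φ z) :=
        (((analyticAt_pi_iff.1 hz2) 0).mul ((analyticAt_pi_iff.1 hz2) 1)).differentiableAt
      have h1 : HasFDerivAt (fun t => Ψ (Φ t) 0 * Ψ (Φ t) 1)
          ((fderiv ℂ (fun t => Ψ t 0 * Ψ t 1) (Φ z)).comp (fderiv ℂ Φ z)) z :=
        hf.hasFDerivAt.comp z hzan.differentiableAt.hasFDerivAt
      have h2 : (fun t => Ψ (Φ t) 0 * Ψ (Φ t) 1) =ᶠ[𝓝 z] fun t : Fin 2 → ℂ => t 0 * t 1 := by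
        filter_upwards [hz1] with t ht
        rw [ht]
      have h3 := (hasFDerivAt_apply (𝕜 := ℂ) (0 : Fin 2) z).mul (hasFDerivAt_apply (1 : Fin 2) z)
      have h4 := h1.unique (h3.congr_of_eventuallyEq h2)
      have h5 := congrArg (fun L : (Fin 2 → ℂ) →L[ℂ] ℂ => L ![z 0, -z 1]) h4
      simp only [ContinuousLinearMap.comp_apply] at h5
      rw [h5]
      simp
      right
      ring
    have hΨcont : Tendsto Ψ (𝓝 0) (𝓝 0) := by
      have := hΨan.continuousAt.tendsto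
      rwa [hΨ0] at this
    filter_upwards [hΨcont.eventually hev, hΦΨ] with y hy1 hy2
    rw [hy2] at hy1
    exact hy1

end Pool.Agent.Work.MP_d6d6e6_ag
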