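import Mathlib

/-! Derivatives of polynomial functions over `ℂ` (adapted from helper87's real version). -/

open MvPolynomial Filter Topology

namespace Pool.Agent.Work.MP_d6d6e6_ag

variable {σ : Type*} [Fintype σ]

/-- Evaluation of a polynomial is differentiable, with the expected derivative. -/
theorem hasFDerivAt_eval (p : MvPolynomial σ ℂ) (x : σ → ℂ) :
    HasFDerivAt (fun y : σ → ℂ => eval y p)
      (∑ j, eval x (pderiv j p) • (ContinuousLinearMap.proj j : (σ → ℂ) →L[ℂ] ℂ)) x := by
  classical
  have key : ∀ (p : MvPolynomial σ ℂ) (v : σ → ℂ),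
      (∑ j, eval x (pderiv j p) • (ContinuousLinearMap.proj j : (σ → ℂ) →L[ℂ] ℂ)) v =
        ∑ j, eval x (pderiv j p) * v j := by
    intro p v
    rw [_root_.sum_apply]
    rfl
  induction p using MvPolynomial.induction_on with
  | C a =>
    refine HasFDerivAt.congr_fderiv (f' := 0) ?_ ?_
    · simp only [eval_C]
      exact hasFDerivAt_const a x
    · ext v
      rw [key]
      simp
  | add p q hp hq =>
    have h := hp.add hq
    refine HasFDerivAt.congr_fderiv (f := fun y : σ → ℂ => eval y (p + q)) ?_ ?_
      (f' := (∑ j, eval x (pderiv j p) • (ContinuousLinearMap.proj j : (σ → ℂ) →L[ℂ] ℂ)) +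
        (∑ j, eval x (pderiv j q) • (ContinuousLinearMap.proj j : (σ → ℂ) →L[ℂ] ℂ)))
    · simp only [map_add]
      exact h
    · ext v
      rw [key, _root_.add_apply, key, key, ← Finset.sum_add_distrib]
      refine Finset.sum_congr rfl fun j _ => ?_
      rw [map_add, map_add, add_mul]
  | mul_X p i hp =>
    have h1 : HasFDerivAt (fun y : σ → ℂ => y i)
        (ContinuousLinearMap.proj i : (σ → ℂ) →L[ℂ] ℂ) x := hasFDerivAt_apply i x
    have h := hp.mul h1
    simp only [map_mul, eval_X]
    refine h.congr_fderiv ?_
    ext v
    rw [key, _root_.add_apply, _root_.smul_apply, _root_.smul_apply, key]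
    simp only [ContinuousLinearMap.proj_apply, smul_eq_mul,
      pderiv_mul, map_add, map_mul, eval_X, add_mul, Finset.sum_add_distrib]
    have h2 : ∑ j, eval x p * eval x (pderiv j (X i : MvPolynomial σ ℂ)) * v j
        = eval x p * v i := by
      rw [Finset.sum_eq_single i]
      · simp
      · intro b _ hb
        rw [pderiv_X_of_ne hb.symm]
        simp
      · simp
    rw [h2, Finset.mul_sum]
    rw [add_comm]
    congr 1
    refine Finset.sum_congr rfl fun j _ => ?_
    ring

theorem differentiable_eval (p : MvPolynomial σ ℂ) :
    Differentiable ℂ (fun y : σ → ℂ => eval y p) :=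
  fun x => (hasFDerivAt_eval p x).differentiableAt

/-- Evaluation of a polynomial is analytic. -/
theorem analyticAt_eval (p : MvPolynomial σ ℂ) (x : σ → ℂ) :
    AnalyticAt ℂ (fun y : σ → ℂ => eval y p) x := by
  classical
  induction p using MvPolynomial.induction_on with
  | C a =>
    simp only [eval_C]
    exact analyticAt_const
  | add p q hp hq =>
    simp only [map_add]
    exact hp.add hq
  | mul_X p i hp =>
    simp only [map_mul, eval_X]
    exact hp.mul ((ContinuousLinearMap.proj i : (σ → ℂ) →L[ℂ] ℂ).analyticAt x)

theorem eval_zero_pderiv (p : MvPolynomial σ ℂ) (i : σ) :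
    eval 0 (pderiv i p) = coeff (Finsupp.single i 1) p := by
  classical
  induction p using MvPolynomial.induction_on' with
  | monomial s a =>
    rw [pderiv_monomial, eval_monomial, coeff_monomial]
    by_cases h : s = Finsupp.single i 1
    · rw [if_pos h, h]
      simp
    · rw [if_neg h]
      by_cases hsi : s i = 0
      · simp [hsi]
      · have h1 : s - Finsupp.single i 1 ≠ 0 := by
          intro h0
          apply h
          ext j
          have := DFunLike.congr_fun h0 j
          rw [Finsupp.tsub_apply, Finsupp.zero_apply] at this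
          by_cases hj : i = j
          · subst hj
            rw [Finsupp.single_eq_same] at this ⊢
            omega
          · rw [Finsupp.single_eq_of_ne (Ne.symm hj)] at this ⊢
            omega
        obtain ⟨j, hj⟩ := Finsupp.ne_iff.1 h1
        rw [Finsupp.zero_apply] at hj
        rw [Finsupp.prod]
        rw [Finset.prod_eq_zero (Finsupp.mem_support_iff.2 hj)]
        · simp
        · exact zero_pow hj
  | add p q hp hq => rw [map_add, map_add, hp, hq, coeff_add]

end Pool.Agent.Work.MP_d6d6e6_ag
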