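import Pool.Agent.Work.MP_d6d6e6_ag.LocalA
import Pool.Agent.Work.MP_d6d6e6_ag.PolyDeriv

/-! A center forces the obstruction series to vanish. -/

open Finsupp Filter Topology
open scoped ENNReal NNReal

set_option linter.unusedSectionVars false
set_option linter.unusedVariables false

namespace Pool.Agent.Work.MP_d6d6e6_ag

/-- A diagonal series vanishing on small diagonal points is zero. -/
theorem eq_zero_of_diagSupp {r : ℝ} (hr : 0 < r) {f : PS ℂ}
    (hf : nrm (ENNReal.ofReal r) f ≠ ⊤) (hd : DiagSupp f)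
    (h : ∃ᶠ t : ℂ in 𝓝[≠] 0, evalS f (fun _ => t) = 0) : f = 0 := by
  set L : ℂ →L[ℂ] (Fin 2 → ℂ) := ContinuousLinearMap.pi fun _ => ContinuousLinearMap.id ℂ ℂ with hL
  have hL0 : L 0 = 0 := map_zero L
  have h1 : HasFPowerSeriesAt (evalS f) (fms f) (L 0) := by
    rw [hL0]
    exact (hasFPowerSeriesOnBall_evalS hr hf).hasFPowerSeriesAt
  have h2 := h1.compContinuousLinearMap
  have h3 : ∀ᶠ t : ℂ in 𝓝 0, (evalS f ∘ L) t = 0 := by
    rw [← h2.analyticAt.frequently_zero_iff_eventually_zero]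
    exact h
  have h4 : HasFPowerSeriesAt (0 : ℂ → ℂ) ((fms f).compContinuousLinearMap L) 0 :=
    h2.congr h3
  have h5 := h4.eq_zero
  apply MvPowerSeries.ext
  intro m
  rw [map_zero]
  by_cases hm : m 0 = m 1
  · have h6 : ((fms f).compContinuousLinearMap L (m 0 + m 1)) (fun _ => 1) = 0 := by
      rw [h5]
      rfl
    rw [FormalMultilinearSeries.compContinuousLinearMap_apply] at h6
    have h7 : (L ∘ fun _ : Fin (m 0 + m 1) => (1 : ℂ)) = fun _ => (fun _ => (1 : ℂ)) := by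
      funext k i
      rfl
    rw [h7, fms_apply, Finset.sum_eq_single (m 0, m 1)] at h6
    · have h8 : ex (m 0) (m 1) = m := by
        ext i
        fin_cases i
        · simp [ex_zero]
        · simp [ex_one]
      simp only [h8] at h6
      rw [monf] at h6
      simpa using h6
    · intro b hb hne
      rw [Finset.HasAntidiagonal.mem_antidiagonal] at hb
      rw [hd _ (by
        rw [ex_zero, ex_one]
        intro h9
        apply hne
        ext
        · simp only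
          omega
        · simp only
          omega), zero_mul]
    · intro h8
      rw [Finset.HasAntidiagonal.mem_antidiagonal] at h8
      exact absurd rfl h8
  · exact hd m hm

/-- the linear part `(x, y) ↦ (x, -y)` -/
noncomputable def Jmap : (Fin 2 → ℂ) →L[ℂ] (Fin 2 → ℂ) :=
  ContinuousLinearMap.pi ![ContinuousLinearMap.proj 0, -ContinuousLinearMap.proj 1]

theorem Jmap_apply (x : Fin 2 → ℂ) : Jmap x = ![x 0, -x 1] := by
  funext i
  fin_cases i <;> simp [Jmap]

theorem hasFDerivAt_eval_ord2 {p : MvPolynomial (Fin 2) ℂ} (hp : Ord2 p) :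
    HasFDerivAt (fun y : Fin 2 → ℂ => MvPolynomial.eval y p) (0 : (Fin 2 → ℂ) →L[ℂ] ℂ) 0 := by
  refine (hasFDerivAt_eval p 0).congr_fderiv ?_
  ext v
  rw [_root_.sum_apply]
  refine Finset.sum_eq_zero fun j _ => ?_
  rw [eval_zero_pderiv, hp _ (by simp)]
  rw [_root_.smul_apply, zero_smul]

theorem hasFDerivAt_vhat {p q : MvPolynomial (Fin 2) ℂ} (hp : Ord2 p) (hq : Ord2 q) :
    HasFDerivAt (vhat p q) Jmap 0 := by
  rw [hasFDerivAt_pi']
  intro i
  fin_cases i
  · have h := (hasFDerivAt_apply (𝕜 := ℂ) (0 : Fin 2) (0 : Fin 2 → ℂ)).add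
      (hasFDerivAt_eval_ord2 hp)
    rw [add_zero] at h
    exact h
  · have h := (hasFDerivAt_apply (𝕜 := ℂ) (1 : Fin 2) (0 : Fin 2 → ℂ)).neg.add
      (hasFDerivAt_eval_ord2 hq)
    rw [add_zero] at h
    exact h

theorem constantCoeff_ord2 {p : MvPolynomial (Fin 2) ℂ} (hp : Ord2 p) :
    MvPolynomial.constantCoeff p = 0 := by
  rw [MvPolynomial.constantCoeff_eq]
  exact hp 0 (by simp)

theorem vhat_zero {p q : MvPolynomial (Fin 2) ℂ} (hp : Ord2 p) (hq : Ord2 q) :
    vhat p q 0 = 0 := by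
  funext i
  fin_cases i
  · simp [vhat, constantCoeff_ord2 hp]
  · simp [vhat, constantCoeff_ord2 hq]

theorem analyticAt_vhat (p q : MvPolynomial (Fin 2) ℂ) (z : Fin 2 → ℂ) :
    AnalyticAt ℂ (vhat p q) z := by
  rw [analyticAt_pi_iff]
  intro i
  fin_cases i
  · exact ((ContinuousLinearMap.proj 0 : (Fin 2 → ℂ) →L[ℂ] ℂ).analyticAt z).add
      (analyticAt_eval p z)
  · exact ((ContinuousLinearMap.proj 1 : (Fin 2 → ℂ) →L[ℂ] ℂ).analyticAt z).neg.add
      (analyticAt_eval q z)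

/-- First order consequence of the existence of a first integral. -/
theorem first_order {V : (Fin 2 → ℂ) → (Fin 2 → ℂ)} {J : (Fin 2 → ℂ) →L[ℂ] (Fin 2 → ℂ)}
    {z₀ : Fin 2 → ℂ} (hV : HasFDerivAt V J z₀) (hV0 : V z₀ = 0) {u v : (Fin 2 → ℂ) → ℂ}
    (hc : IsLocalCoord u v z₀)
    (h : ∀ᶠ z in 𝓝 z₀, fderiv ℂ (fun t => u t ^ 2 + v t ^ 2) z (V z) = 0) (e : Fin 2 → ℂ) :
    fderiv ℂ u z₀ e * fderiv ℂ u z₀ (J e) + fderiv ℂ v z₀ e * fderiv ℂ v z₀ (J e) = 0 := by
  obtain ⟨hu, hv, hu0, hv0, -⟩ := hc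
  set ℓ : ℂ → (Fin 2 → ℂ) := fun t => z₀ + t • e with hℓ
  have hℓ0 : ℓ 0 = z₀ := by simp [hℓ]
  have hℓd : HasDerivAt ℓ e 0 := by
    have := ((hasDerivAt_id (0 : ℂ)).smul_const e).const_add z₀
    simpa [hℓ] using this
  have hℓc : Tendsto ℓ (𝓝 0) (𝓝 z₀) := by
    have := hℓd.continuousAt.tendsto
    rwa [hℓ0] at this
  -- the four functions of `t`
  have hA : ∀ {w : (Fin 2 → ℂ) → ℂ}, AnalyticAt ℂ w z₀ →
      HasDerivAt (fun t => w (ℓ t)) (fderiv ℂ w z₀ e) 0 := by
    intro w hw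
    have h1 : HasFDerivAt w (fderiv ℂ w z₀) (ℓ 0) := by
      rw [hℓ0]
      exact hw.differentiableAt.hasFDerivAt
    exact h1.comp_hasDerivAt (0 : ℂ) hℓd
  have hVd : HasDerivAt (fun t => V (ℓ t)) (J e) 0 := by
    have h1 : HasFDerivAt V J (ℓ 0) := by
      rw [hℓ0]
      exact hV
    exact h1.comp_hasDerivAt (0 : ℂ) hℓd
  have hB : ∀ {w : (Fin 2 → ℂ) → ℂ}, AnalyticAt ℂ w z₀ →
      HasDerivAt (fun t => fderiv ℂ w (ℓ t) (V (ℓ t))) (fderiv ℂ w z₀ (J e)) 0 := by
    intro w hw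
    have h1 : HasFDerivAt (fderiv ℂ w) (fderiv ℂ (fderiv ℂ w) z₀) (ℓ 0) := by
      rw [hℓ0]
      exact hw.fderiv.differentiableAt.hasFDerivAt
    have h2 := h1.comp_hasDerivAt (0 : ℂ) hℓd
    have h3 := h2.clm_apply hVd
    simp only [Function.comp_apply, hℓ0, hV0, map_zero, zero_add] at h3
    exact h3
  -- slopes
  have hslope : ∀ {f : ℂ → ℂ} {f' : ℂ}, HasDerivAt f f' 0 → f 0 = 0 →
      Tendsto (fun t => t⁻¹ * f t) (𝓝[≠] 0) (𝓝 f') := by
    intro f f' hf hf0
    have := hasDerivAt_iff_tendsto_slope.1 hf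
    refine this.congr fun t => ?_
    rw [slope_def_module, hf0, sub_zero, sub_zero, smul_eq_mul]
  have hlim := ((hslope (hA hu) (by rw [hℓ0, hu0])).mul
      (hslope (hB hu) (by rw [hℓ0, hV0, map_zero]))).add
    ((hslope (hA hv) (by rw [hℓ0, hv0])).mul
      (hslope (hB hv) (by rw [hℓ0, hV0, map_zero])))
  have hzero : (fun t : ℂ => t⁻¹ * u (ℓ t) * (t⁻¹ * fderiv ℂ u (ℓ t) (V (ℓ t))) +
      t⁻¹ * v (ℓ t) * (t⁻¹ * fderiv ℂ v (ℓ t) (V (ℓ t)))) =ᶠ[𝓝[≠] 0] fun _ => 0 := by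
    have hev : ∀ᶠ t in 𝓝 (0 : ℂ), u (ℓ t) * fderiv ℂ u (ℓ t) (V (ℓ t)) +
        v (ℓ t) * fderiv ℂ v (ℓ t) (V (ℓ t)) = 0 := by
      have h1 : ∀ᶠ z in 𝓝 z₀, u z * fderiv ℂ u z (V z) + v z * fderiv ℂ v z (V z) = 0 := by
        filter_upwards [h, hu.eventually_analyticAt, hv.eventually_analyticAt] with z hz huz hvz
        have hd : HasFDerivAt (fun t => u t ^ 2 + v t ^ 2)
            ((2 * u z ^ (2 - 1)) • fderiv ℂ u z + (2 * v z ^ (2 - 1)) • fderiv ℂ v z) z := by
          have h2 := (huz.differentiableAt.hasFDerivAt.pow 2).add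
            (hvz.differentiableAt.hasFDerivAt.pow 2)
          refine h2.congr_fderiv ?_
          simp
        rw [hd.fderiv] at hz
        simp only [_root_.add_apply, _root_.smul_apply, smul_eq_mul] at hz
        have h2 : (2 : ℂ) * (u z * fderiv ℂ u z (V z) + v z * fderiv ℂ v z (V z)) = 0 := by
          rw [← hz]
          ring
        exact (mul_eq_zero.1 h2).resolve_left two_ne_zero
      exact hℓc.eventually h1
    filter_upwards [mem_nhdsWithin_of_mem_nhds hev] with t ht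
    have : t⁻¹ * t⁻¹ * (u (ℓ t) * fderiv ℂ u (ℓ t) (V (ℓ t)) +
        v (ℓ t) * fderiv ℂ v (ℓ t) (V (ℓ t))) = 0 := by
      rw [ht, mul_zero]
    linear_combination this
  exact (tendsto_nhds_unique_of_eventuallyEq hlim tendsto_const_nhds hzero)

theorem diagSupp_obs {p q : MvPolynomial (Fin 2) ℂ} (hp : Ord2 p) (hq : Ord2 q) :
    DiagSupp (obs p q) := by
  intro m hm
  rw [obs, map_add, diagSupp_diagPart _ _ m hm, a_eq hp hq, diagSupp_diagPart _ _ m hm, add_zero]

theorem obs_of_hasCenter {p q : MvPolynomial (Fin 2) ℂ} (hp : Ord2 p) (hq : Ord2 q)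
    (h : HasCenter (vhat p q) 0) : obs p q = 0 := by
  obtain ⟨r, Φ, a, hr, hobs, hΦ0, hΦd, hnf, ha⟩ := exists_normal_form hp hq
  obtain ⟨u, v, hc, hfi⟩ := h
  have hfo := first_order (hasFDerivAt_vhat hp hq) (vhat_zero hp hq) hc hfi
  obtain ⟨hu, hv, hu0, hv0, hw⟩ := hc
  set e0 : Fin 2 → ℂ := Pi.single 0 1 with he0
  set e1 : Fin 2 → ℂ := Pi.single 1 1 with he1
  have hJ0 : Jmap e0 = e0 := by
    rw [Jmap_apply]
    funext i
    fin_cases i <;> simp [he0]
  have hJ1 : Jmap e1 = -e1 := by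
    rw [Jmap_apply]
    funext i
    fin_cases i <;> simp [he1]
  set ux := fderiv ℂ u 0 e0 with hux
  set uy := fderiv ℂ u 0 e1 with huy
  set vx := fderiv ℂ v 0 e0 with hvx
  set vy := fderiv ℂ v 0 e1 with hvy
  have r1 : ux * ux + vx * vx = 0 := by
    have := hfo e0
    rwa [hJ0] at this
  have r2 : uy * uy + vy * vy = 0 := by
    have := hfo e1
    rw [hJ1, map_neg, map_neg] at this
    linear_combination -this
  have r3 : ux * vy - uy * vx ≠ 0 := hw
  set c : ℂ := 2 * (uy * ux + vy * vx) with hcdef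
  have hc0 : c ≠ 0 := by
    intro h0
    have h1 : uy * ux + vy * vx = 0 := by
      rw [hcdef] at h0
      exact (mul_eq_zero.1 h0).resolve_left two_ne_zero
    apply r3
    have h2 : (ux * vy - uy * vx) ^ 2 = 0 := by
      linear_combination (uy * uy + vy * vy) * r1 - (uy * ux + vy * vx) * h1
    exact pow_eq_zero_iff (two_ne_zero) |>.1 h2
  -- the function `F` and its `y`-derivative `K`
  set F : (Fin 2 → ℂ) → ℂ := fun t => u t ^ 2 + v t ^ 2 with hF
  have hFan : AnalyticAt ℂ F 0 := (hu.pow 2).add (hv.pow 2)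
  set K : (Fin 2 → ℂ) → ℂ := fun w => fderiv ℂ F w e1 with hK
  have hKeq : K =ᶠ[𝓝 0] fun w => 2 * (u w * fderiv ℂ u w e1 + v w * fderiv ℂ v w e1) := by
    filter_upwards [hu.eventually_analyticAt, hv.eventually_analyticAt] with z huz hvz
    have hd : HasFDerivAt F
        ((2 * u z ^ (2 - 1)) • fderiv ℂ u z + (2 * v z ^ (2 - 1)) • fderiv ℂ v z) z := by
      have h2 := (huz.differentiableAt.hasFDerivAt.pow 2).add
        (hvz.differentiableAt.hasFDerivAt.pow 2)
      refine h2.congr_fderiv ?_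
      simp
    rw [hK]
    simp only
    rw [hd.fderiv]
    simp only [_root_.add_apply, _root_.smul_apply, smul_eq_mul]
    ring
  have hKan : AnalyticAt ℂ K 0 := by
    have h1 : AnalyticAt ℂ (fderiv ℂ F) 0 := hFan.fderiv
    exact ((ContinuousLinearMap.apply ℂ ℂ e1).analyticAt _).comp h1
  have hK0 : K 0 = 0 := by
    rw [hKeq.self_of_nhds]
    show 2 * (u 0 * (fderiv ℂ u 0) e1 + v 0 * (fderiv ℂ v 0) e1) = 0
    rw [hu0, hv0]
    ring
  have hKd : ∀ x : Fin 2 → ℂ, fderiv ℂ K 0 x = c * x 0 := by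
    have hupart : ∀ {w : (Fin 2 → ℂ) → ℂ}, AnalyticAt ℂ w 0 → w 0 = 0 →
        HasFDerivAt (fun z => w z * fderiv ℂ w z e1) ((fderiv ℂ w 0 e1) • fderiv ℂ w 0) 0 := by
      intro w hwa hw0
      have h1 : HasFDerivAt (fun z => fderiv ℂ w z e1)
          (fderiv ℂ (fun z => fderiv ℂ w z e1) 0) 0 := by
        have : AnalyticAt ℂ (fun z => fderiv ℂ w z e1) 0 :=
          ((ContinuousLinearMap.apply ℂ ℂ e1).analyticAt _).comp hwa.fderiv
        exact this.differentiableAt.hasFDerivAt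
      have h2 := hwa.differentiableAt.hasFDerivAt.mul h1
      rw [hw0] at h2
      refine h2.congr_fderiv ?_
      ext x
      simp
    have h3 := ((hupart hu hu0).add (hupart hv hv0)).const_mul (2 : ℂ)
    have h4 : HasFDerivAt K _ 0 := h3.congr_of_eventuallyEq hKeq
    intro x
    rw [h4.fderiv]
    simp only [_root_.add_apply, _root_.smul_apply, smul_eq_mul]
    rw [clm_apply (fderiv ℂ u 0) x, clm_apply (fderiv ℂ v 0) x]
    simp only [← he0, ← he1, ← hux, ← huy, ← hvx, ← hvy]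
    rw [hcdef]
    linear_combination (2 * x 1) * r2
  -- `K ∘ Φ`
  have hKΦ : HasFDerivAt (fun z => K (Φ z)) (fderiv ℂ K 0) 0 := by
    have h1 : HasFDerivAt K (fderiv ℂ K 0) (Φ 0) := by
      rw [hΦ0]
      exact hKan.differentiableAt.hasFDerivAt
    have h2 := h1.comp (0 : Fin 2 → ℂ) hΦd
    rwa [ContinuousLinearMap.comp_id] at h2
  have hcpos : 0 < ‖c‖ / 2 := by
    have := norm_pos_iff.2 hc0
    positivity
  have hsmall : ∀ᶠ z : Fin 2 → ℂ in 𝓝 0, ‖K (Φ z) - c * z 0‖ ≤ ‖c‖ / 2 * ‖z‖ := by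
    have h1 := hKΦ.isLittleO.def hcpos
    filter_upwards [h1] with z hz
    rw [hΦ0, hK0, sub_zero, sub_zero, hKd] at hz
    exact hz
  -- good points
  have hgood : ∀ᶠ z : Fin 2 → ℂ in 𝓝 0, (∀ i, ‖z i‖ < r) ∧ AnalyticAt ℂ Φ z ∧
      AnalyticAt ℂ F (Φ z) ∧ AnalyticAt ℂ K (Φ z) ∧ fderiv ℂ F (Φ z) (vhat p q (Φ z)) = 0 ∧
      ‖K (Φ z) - c * z 0‖ ≤ ‖c‖ / 2 * ‖z‖ := by
    have hΦan : AnalyticAt ℂ Φ 0 := (hnf 0 (fun i => by simpa using hr)).1
    have hΦc : Tendsto Φ (𝓝 0) (𝓝 0) := by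
      have := hΦan.continuousAt.tendsto
      rwa [hΦ0] at this
    filter_upwards [eventually_polydisc hr, hΦan.eventually_analyticAt,
      hΦc.eventually hFan.eventually_analyticAt, hΦc.eventually hKan.eventually_analyticAt,
      hΦc.eventually hfi, hsmall] with z h1 h2 h3 h4 h5 h6
    exact ⟨h1, h2, h3, h4, h5, h6⟩
  obtain ⟨δ, hδ, hball⟩ := Metric.eventually_nhds_iff_ball.1 hgood
  -- the main computation on the circle
  have hmain : ∀ ε : ℝ, 0 < ε → ε < δ → evalS (obs p q) (fun _ => (ε : ℂ)) = 0 := by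
    intro ε hε hεδ
    set ζ : ℝ → (Fin 2 → ℂ) := fun θ =>
      ![ε * Complex.exp (θ * Complex.I), ε * Complex.exp (-(θ * Complex.I))] with hζ
    have hn : ∀ x : ℝ, ‖Complex.exp (x * Complex.I)‖ = 1 := fun x => Complex.norm_exp_ofReal_mul_I x
    have hn' : ∀ x : ℝ, ‖Complex.exp (-(x * Complex.I))‖ = 1 := fun x => by
      have := Complex.norm_exp_ofReal_mul_I (-x)
      rw [Complex.ofReal_neg, neg_mul] at this
      exact this
    have hζn : ∀ θ, ‖ζ θ‖ ≤ ε := by
      intro θ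
      rw [pi_norm_le_iff_of_nonneg hε.le]
      intro i
      fin_cases i
      · show ‖(ε : ℂ) * Complex.exp (θ * Complex.I)‖ ≤ ε
        rw [norm_mul, hn, mul_one, Complex.norm_real, Real.norm_of_nonneg hε.le]
      · show ‖(ε : ℂ) * Complex.exp (-(θ * Complex.I))‖ ≤ ε
        rw [norm_mul, hn', mul_one, Complex.norm_real, Real.norm_of_nonneg hε.le]
    have hζb : ∀ θ, ζ θ ∈ Metric.ball (0 : Fin 2 → ℂ) δ := by
      intro θ
      rw [mem_ball_zero_iff]
      exact (hζn θ).trans_lt hεδ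
    have hζ01 : ∀ θ, ζ θ 0 * ζ θ 1 = (ε : ℂ) * ε := by
      intro θ
      show (ε : ℂ) * Complex.exp (θ * Complex.I) * (ε * Complex.exp (-(θ * Complex.I))) = _
      have : Complex.exp (θ * Complex.I) * Complex.exp (-(θ * Complex.I)) = 1 := by
        rw [← Complex.exp_add, add_neg_cancel, Complex.exp_zero]
      linear_combination (ε : ℂ) * ε * this
    have hζd : ∀ θ : ℝ, HasDerivAt ζ (Complex.I • ![ζ θ 0, -ζ θ 1]) θ := by
      intro θ
      have h1 : HasDerivAt (fun x : ℝ => (x : ℂ) * Complex.I) Complex.I θ := by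
        simpa using (Complex.ofRealCLM.hasDerivAt (x := θ)).mul_const Complex.I
      rw [hasDerivAt_pi]
      intro i
      fin_cases i
      · have h2 := (h1.cexp).const_mul (ε : ℂ)
        show HasDerivAt (fun x : ℝ => (ε : ℂ) * Complex.exp (x * Complex.I)) _ θ
        refine h2.congr_deriv ?_
        simp [hζ]
        ring
      · have h2 := (h1.neg.cexp).const_mul (ε : ℂ)
        show HasDerivAt (fun x : ℝ => (ε : ℂ) * Complex.exp (-(x * Complex.I))) _ θ
        refine h2.congr_deriv ?_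
        simp [hζ]
        ring
    set o : ℂ := evalS (obs p q) (fun _ => (ε : ℂ)) with ho
    have hoc : ∀ θ, evalS (obs p q) (ζ θ) = o := fun θ =>
      evalS_congr_of_diagSupp (diagSupp_obs hp hq) (hζ01 θ)
    set a0 : ℂ := a (fun _ => (ε : ℂ)) with ha0
    have hac : ∀ θ, a (ζ θ) = a0 := fun θ => ha _ _ (hζ01 θ)
    have hane : 1 + a0 ≠ 0 := by
      rw [← hac 0]
      exact one_add_ne_zero (hnf _ (hball _ (hζb 0)).1).2.1
    set G : (Fin 2 → ℂ) → ℂ := fun z => F (Φ z) with hG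
    -- derivative of `G` along the circle
    have hGd : ∀ θ : ℝ, HasDerivAt (fun x : ℝ => G (ζ x))
        (-(Complex.I * (1 + a0)⁻¹ * o) * (ζ θ 1 * K (Φ (ζ θ)))) θ := by
      intro θ
      obtain ⟨g1, g2, g3, g4, g5, g6⟩ := hball _ (hζb θ)
      have h1 : HasFDerivAt G ((fderiv ℂ F (Φ (ζ θ))).comp (fderiv ℂ Φ (ζ θ))) (ζ θ) :=
        g3.differentiableAt.hasFDerivAt.comp _ g2.differentiableAt.hasFDerivAt
      have h2 := (h1.restrictScalars ℝ).comp_hasDerivAt θ (hζd θ)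
      refine h2.congr_deriv ?_
      have h3 := (hnf (ζ θ) g1).2.2
      rw [hac, hoc] at h3
      have h4 : fderiv ℂ F (Φ (ζ θ)) (vhat p q (Φ (ζ θ))) = 0 := g5
      rw [h3, map_add, map_smul] at h4
      have h5 : (![0, o * ζ θ 1] : Fin 2 → ℂ) = (o * ζ θ 1) • e1 := by
        funext i
        fin_cases i <;> simp [he1]
      rw [h5, map_smul, smul_eq_mul, smul_eq_mul] at h4
      show (fderiv ℂ F (Φ (ζ θ))) ((fderiv ℂ Φ (ζ θ)) (Complex.I • ![ζ θ 0, -ζ θ 1])) = _
      rw [map_smul, map_smul, smul_eq_mul]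
      have h6 : fderiv ℂ F (Φ (ζ θ)) e1 = K (Φ (ζ θ)) := rfl
      rw [h6] at h4
      field_simp
      linear_combination h4
    have hcont : Continuous (fun θ : ℝ => ζ θ 1 * K (Φ (ζ θ))) := by
      have hζcont : Continuous ζ := by
        rw [continuous_iff_continuousAt]
        exact fun θ => (hζd θ).continuousAt
      rw [continuous_iff_continuousAt]
      intro θ
      obtain ⟨g1, g2, g3, g4, g5, g6⟩ := hball _ (hζb θ)
      have h1 : ContinuousAt (fun θ : ℝ => ζ θ 1) θ := (continuousAt_pi.1 hζcont.continuousAt) 1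
      have h2 : ContinuousAt (fun z => K (Φ z)) (ζ θ) :=
        ContinuousAt.comp (g := K) g4.continuousAt g2.continuousAt
      exact h1.mul (ContinuousAt.comp (f := ζ) (g := fun z => K (Φ z)) h2 hζcont.continuousAt)
    have hint0 : ∫ θ in (0 : ℝ)..(2 * Real.pi),
        -(Complex.I * (1 + a0)⁻¹ * o) * (ζ θ 1 * K (Φ (ζ θ))) = 0 := by
      rw [intervalIntegral.integral_eq_sub_of_hasDerivAt (f := fun x : ℝ => G (ζ x))
        (fun θ _ => hGd θ) ((continuous_const.mul hcont).intervalIntegrable _ _)]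
      have : ζ (2 * Real.pi) = ζ 0 := by
        funext i
        fin_cases i
        · show (ε : ℂ) * Complex.exp (((2 * Real.pi : ℝ) : ℂ) * Complex.I) =
            ε * Complex.exp (((0 : ℝ) : ℂ) * Complex.I)
          push_cast
          rw [Complex.exp_two_pi_mul_I]
          simp
        · show (ε : ℂ) * Complex.exp (-(((2 * Real.pi : ℝ) : ℂ) * Complex.I)) =
            ε * Complex.exp (-(((0 : ℝ) : ℂ) * Complex.I))
          push_cast
          rw [Complex.exp_neg, Complex.exp_two_pi_mul_I]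
          simp
      rw [this, sub_self]
    rw [intervalIntegral.integral_const_mul] at hint0
    have hintne : ∫ θ in (0 : ℝ)..(2 * Real.pi), (ζ θ 1 * K (Φ (ζ θ))) ≠ 0 := by
      intro h0
      have h1 : ∫ θ in (0 : ℝ)..(2 * Real.pi), (ζ θ 1 * (K (Φ (ζ θ)) - c * ζ θ 0)) =
          -(2 * Real.pi * (c * (ε * ε))) := by
        have h2 : ∀ θ : ℝ, ζ θ 1 * (K (Φ (ζ θ)) - c * ζ θ 0) =
            ζ θ 1 * K (Φ (ζ θ)) - c * (ε * ε) := by
          intro θ
          rw [← hζ01 θ]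
          ring
        simp_rw [h2]
        rw [intervalIntegral.integral_sub (hcont.intervalIntegrable _ _)
          (continuous_const.intervalIntegrable _ _), h0, intervalIntegral.integral_const]
        simp
      have h2 : ‖∫ θ in (0 : ℝ)..(2 * Real.pi), (ζ θ 1 * (K (Φ (ζ θ)) - c * ζ θ 0))‖ ≤
          (ε * (‖c‖ / 2 * ε)) * |2 * Real.pi - 0| := by
        refine intervalIntegral.norm_integral_le_of_norm_le_const fun θ _ => ?_
        rw [norm_mul]
        gcongr
        · exact (norm_le_pi_norm _ _).trans (hζn θ)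
        · exact ((hball _ (hζb θ)).2.2.2.2.2).trans (by
            gcongr
            exact hζn θ)
      rw [h1, norm_neg] at h2
      have h3 : ‖(2 * Real.pi * (c * (ε * ε)) : ℂ)‖ = 2 * Real.pi * (‖c‖ * (ε * ε)) := by
        simp [abs_of_pos Real.pi_pos, abs_of_pos hε]
      rw [h3, sub_zero, abs_of_pos (by positivity)] at h2
      have hcn := norm_pos_iff.2 hc0
      have h4 : 0 < Real.pi * ‖c‖ * (ε * ε) := by
        have := Real.pi_pos
        positivity
      nlinarith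
    have h7 := (mul_eq_zero.1 hint0).resolve_right hintne
    have h8 : Complex.I * (1 + a0)⁻¹ * o = 0 := by linear_combination -h7
    exact (mul_eq_zero.1 h8).resolve_left (mul_ne_zero Complex.I_ne_zero (inv_ne_zero hane))
  -- conclusion
  refine eq_zero_of_diagSupp hr hobs (diagSupp_obs hp hq) ?_
  have htend : Tendsto (fun ε : ℝ => (ε : ℂ)) (𝓝[>] 0) (𝓝[≠] 0) := by
    refine tendsto_nhdsWithin_iff.2 ⟨?_, ?_⟩
    · have : Tendsto (fun ε : ℝ => (ε : ℂ)) (𝓝 0) (𝓝 ((0 : ℝ) : ℂ)) :=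
        Complex.continuous_ofReal.tendsto 0
      rw [Complex.ofReal_zero] at this
      exact this.mono_left nhdsWithin_le_nhds
    · filter_upwards [self_mem_nhdsWithin] with ε hε
      simp only [Set.mem_compl_iff, Set.mem_singleton_iff, Complex.ofReal_eq_zero]
      exact (ne_of_gt hε)
  refine htend.frequently (Eventually.frequently ?_)
  filter_upwards [self_mem_nhdsWithin, mem_nhdsWithin_of_mem_nhds (Iio_mem_nhds hδ)] with ε h1 h2
  exact hmain ε h1 h2

end Pool.Agent.Work.MP_d6d6e6_ag
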