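import Pool.Agent.Work.MP_d6d6e6_ag.Normalize

/-! A reduced singularity with zero trace is a center if and only if the obstruction series of
its normalization vanishes. -/

open Finsupp Filter Topology

set_option linter.unusedSectionVars false
set_option linter.unusedVariables false

namespace Pool.Agent.Work.MP_d6d6e6_ag

theorem eval_scaleHigh (κ : ℂ) (f : MvPolynomial (Fin 2) ℂ) (z : Fin 2 → ℂ) :
    κ ^ 2 * MvPolynomial.eval z (scaleHigh κ f) = MvPolynomial.eval (κ • z) f - f.coeff 0 -
      κ * (f.coeff (single 0 1) * z 0 + f.coeff (single 1 1) * z 1) := by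
  classical
  induction f using MvPolynomial.induction_on' with
  | monomial m c =>
    have hsh : scaleHigh κ (MvPolynomial.monomial m c) =
        if 2 ≤ m.degree then MvPolynomial.monomial m (κ ^ (m.degree - 2) * c) else 0 := by
      apply MvPolynomial.ext
      intro n
      rw [coeff_scaleHigh]
      by_cases h : 2 ≤ m.degree
      · rw [if_pos h, MvPolynomial.coeff_monomial, MvPolynomial.coeff_monomial]
        by_cases hmn : m = n
        · subst hmn
          rw [if_pos h, if_pos rfl, if_pos rfl]
        · rw [if_neg hmn, if_neg hmn, mul_zero, ite_self]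
      · rw [if_neg h, MvPolynomial.coeff_zero, MvPolynomial.coeff_monomial]
        by_cases hmn : m = n
        · subst hmn
          rw [if_neg h]
        · rw [if_neg hmn, mul_zero, ite_self]
    have hev : ∀ (y : Fin 2 → ℂ) (c : ℂ), MvPolynomial.eval y (MvPolynomial.monomial m c) =
        c * (y 0 ^ m 0 * y 1 ^ m 1) := by
      intro y c
      rw [MvPolynomial.eval_monomial, Finsupp.prod_fintype _ _ (by simp), Fin.prod_univ_two]
    have hdeg : m.degree = m 0 + m 1 := degree_eq m
    rw [hsh, hev]
    by_cases h : 2 ≤ m.degree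
    · rw [if_pos h, hev, MvPolynomial.coeff_monomial, MvPolynomial.coeff_monomial,
        MvPolynomial.coeff_monomial, if_neg, if_neg, if_neg]
      · simp only [Pi.smul_apply, smul_eq_mul]
        have h1 : κ ^ 2 * κ ^ (m.degree - 2) = κ ^ m 0 * κ ^ m 1 := by
          rw [← pow_add, ← pow_add]
          congr 1
          omega
        rw [mul_pow, mul_pow]
        linear_combination (c * (z 0 ^ m 0 * z 1 ^ m 1)) * h1
      · intro h0
        rw [h0] at h
        simp at h
      · intro h0
        rw [h0] at h
        simp at h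
      · intro h0
        rw [h0] at h
        simp at h
    · rw [if_neg h, map_zero]
      have h3 : m 0 + m 1 = 0 ∨ m 0 + m 1 = 1 := by omega
      rcases h3 with h3 | h3
      · have h0 : m 0 = 0 := by omega
        have h1 : m 1 = 0 := by omega
        have hm : m = 0 := by
          ext i
          fin_cases i
          · exact h0
          · exact h1
        subst hm
        rw [MvPolynomial.coeff_monomial, MvPolynomial.coeff_monomial,
          MvPolynomial.coeff_monomial, if_pos rfl, if_neg, if_neg]
        · simp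
        · intro h; have := DFunLike.congr_fun h 1; simp at this
        · intro h; have := DFunLike.congr_fun h 0; simp at this
      · by_cases h0 : m 0 = 0
        · have h1 : m 1 = 1 := by omega
          have hm : m = single 1 1 := by
            ext i
            fin_cases i
            · simp [h0]
            · simp [h1]
          subst hm
          rw [MvPolynomial.coeff_monomial, MvPolynomial.coeff_monomial,
            MvPolynomial.coeff_monomial, if_pos rfl, if_neg, if_neg]
          · simp
            ring
          · intro h; have := DFunLike.congr_fun h 1; simp at this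
          · intro h; have := DFunLike.congr_fun h 1; simp at this
        · have h0 : m 0 = 1 := by omega
          have h1 : m 1 = 0 := by omega
          have hm : m = single 0 1 := by
            ext i
            fin_cases i
            · simp [h0]
            · simp [h1]
          subst hm
          rw [MvPolynomial.coeff_monomial, MvPolynomial.coeff_monomial,
            MvPolynomial.coeff_monomial, if_pos rfl, if_neg, if_neg]
          · simp
            ring
          · intro h; have := DFunLike.congr_fun h 0; simp at this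
          · intro h; have := DFunLike.congr_fun h 0; simp at this
  | add p q hp hq =>
    rw [scaleHigh_add, map_add, map_add, MvPolynomial.coeff_add, MvPolynomial.coeff_add,
      MvPolynomial.coeff_add]
    linear_combination hp + hq

/-- an invertible linear map of the plane given by its matrix -/
theorem exists_equiv {a b c e : ℂ} (h : a * e - b * c ≠ 0) :
    ∃ A : (Fin 2 → ℂ) ≃L[ℂ] (Fin 2 → ℂ), ∀ z, A z = ![a * z 0 + b * z 1, c * z 0 + e * z 1] := by
  set D := a * e - b * c with hD
  let L : (Fin 2 → ℂ) ≃ₗ[ℂ] (Fin 2 → ℂ) :=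
    { toFun := fun z => ![a * z 0 + b * z 1, c * z 0 + e * z 1]
      map_add' := by
        intro x y
        ext i
        fin_cases i
        · simp; ring
        · simp; ring
      map_smul' := by
        intro r x
        ext i
        fin_cases i
        · simp; ring
        · simp; ring
      invFun := fun y => ![D⁻¹ * (e * y 0 - b * y 1), D⁻¹ * (a * y 1 - c * y 0)]
      left_inv := by
        intro z
        ext i
        fin_cases i
        · simp
          field_simp
          rw [hD]
          ring
        · simp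
          field_simp
          rw [hD]
          ring
      right_inv := by
        intro z
        ext i
        fin_cases i
        · simp
          field_simp
          rw [hD]
          ring
        · simp
          field_simp
          rw [hD]
          ring }
  exact ⟨L.toContinuousLinearEquiv, fun z => rfl⟩

/-- The vector field given by a pair of polynomials. -/
noncomputable def pvf (V : Fin 2 → MvPolynomial (Fin 2) ℂ) (z : Fin 2 → ℂ) : Fin 2 → ℂ :=
  ![MvPolynomial.eval z (V 0), MvPolynomial.eval z (V 1)]

theorem eval_sbst (V : Fin 2 → MvPolynomial (Fin 2) ℂ) (p : Fin 2 → ℂ) (l : ℂ)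
    (w : Fin 2 → ℂ) (f : MvPolynomial (Fin 2) ℂ) (z : Fin 2 → ℂ) :
    MvPolynomial.eval z (MvPolynomial.bind₁ (sbst V p l w) f) =
      MvPolynomial.eval (p + ![vp V p l w 0 * z 0 + vm V p l w 0 * z 1,
        vp V p l w 1 * z 0 + vm V p l w 1 * z 1]) f := by
  induction f using MvPolynomial.induction_on with
  | C a => simp
  | add p q hp hq => rw [map_add, map_add, map_add, hp, hq]
  | mul_X p k hp =>
    rw [map_mul, map_mul, map_mul, hp, MvPolynomial.bind₁_X_right]
    refine congrArg₂ (· * ·) rfl ?_
    rw [MvPolynomial.eval_X, Pi.add_apply, sbst, map_add, map_add, map_mul, map_mul,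
      MvPolynomial.eval_C, MvPolynomial.eval_C, MvPolynomial.eval_C, MvPolynomial.eval_X,
      MvPolynomial.eval_X]
    fin_cases k <;> rfl

theorem coeff_zero_eq (f : MvPolynomial (Fin 2) ℂ) : f.coeff 0 = MvPolynomial.eval 0 f := by
  rw [MvPolynomial.eval_zero, MvPolynomial.constantCoeff_eq]

/-- Main local statement. -/
theorem hasCenter_iff_obs (V : Fin 2 → MvPolynomial (Fin 2) ℂ) (p : Fin 2 → ℂ) (l : ℂ)
    (w : Fin 2 → ℂ) (hV0 : ∀ i, MvPolynomial.eval p (V i) = 0)
    (htr : jac V p 0 0 + jac V p 1 1 = 0) (hl : l ^ 2 = -dl V p) (hdl : dl V p ≠ 0)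
    (hqq : qq V p w ≠ 0) :
    HasCenter (pvf V) p ↔ obs (H0 V p l w) (H1 V p l w) = 0 := by
  set a := vp V p l w 0 with ha
  set b := vm V p l w 0 with hb
  set c := vp V p l w 1 with hc
  set e := vm V p l w 1 with he
  set κ := kap V p w with hκ
  have hl0 : l ≠ 0 := by
    rintro rfl
    apply hdl
    linear_combination hl
  have hκ0 : κ ≠ 0 := mul_ne_zero (mul_ne_zero two_ne_zero hdl) hqq
  have hD : a * e - b * c = -2 * l * qq V p w := by
    rw [ha, hb, hc, he, vp, vm, vp, vm, qq]
    ring
  have hD0 : a * e - b * c ≠ 0 := by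
    rw [hD]
    exact mul_ne_zero (mul_ne_zero (by norm_num) hl0) hqq
  have hlD : l * (a * e - b * c) = κ := by
    rw [hD, hκ, kap]
    linear_combination (-2 * qq V p w) * hl
  -- eigenvectors
  have h1 : jac V p 0 0 * a + jac V p 0 1 * c = l * a := by
    rw [ha, hc, vp, vp, jw, jw]
    rw [dl] at hl
    linear_combination (jac V p 0 0 * w 0 + jac V p 0 1 * w 1) * htr - w 0 * hl
  have h2 : jac V p 1 0 * a + jac V p 1 1 * c = l * c := by
    rw [ha, hc, vp, vp, jw, jw]
    rw [dl] at hl
    linear_combination (jac V p 1 0 * w 0 + jac V p 1 1 * w 1) * htr - w 1 * hl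
  have h3 : jac V p 0 0 * b + jac V p 0 1 * e = -l * b := by
    rw [hb, he, vm, vm, jw, jw]
    rw [dl] at hl
    linear_combination (jac V p 0 0 * w 0 + jac V p 0 1 * w 1) * htr - w 0 * hl
  have h4 : jac V p 1 0 * b + jac V p 1 1 * e = -l * e := by
    rw [hb, he, vm, vm, jw, jw]
    rw [dl] at hl
    linear_combination (jac V p 1 0 * w 0 + jac V p 1 1 * w 1) * htr - w 1 * hl
  -- low order coefficients
  have hs0 := eval_zero_pderiv_sbst V p l w 0
  have hs1 := eval_zero_pderiv_sbst V p l w 1
  rw [← ha, ← hc, ← hb, ← he, h1, h3] at hs0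
  rw [← ha, ← hc, ← hb, ← he, h2, h4] at hs1
  have c00 : (G0 V p l w).coeff 0 = 0 := by
    rw [coeff_zero_eq, G0, map_sub, map_mul, map_mul, eval_zero_sbst, eval_zero_sbst, hV0, hV0]
    ring
  have c10 : (G1 V p l w).coeff 0 = 0 := by
    rw [coeff_zero_eq, G1, map_sub, map_mul, map_mul, eval_zero_sbst, eval_zero_sbst, hV0, hV0]
    ring
  have c01 : (G0 V p l w).coeff (single 0 1) = κ := by
    rw [← eval_zero_pderiv, G0, map_sub, map_sub, MvPolynomial.pderiv_C_mul,
      MvPolynomial.pderiv_C_mul, map_mul, map_mul, hs0.1, hs1.1,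
      MvPolynomial.eval_C, MvPolynomial.eval_C, ← he, ← hb, ← hlD]
    ring
  have c02 : (G0 V p l w).coeff (single 1 1) = 0 := by
    rw [← eval_zero_pderiv, G0, map_sub, map_sub, MvPolynomial.pderiv_C_mul,
      MvPolynomial.pderiv_C_mul, map_mul, map_mul, hs0.2, hs1.2,
      MvPolynomial.eval_C, MvPolynomial.eval_C, ← he, ← hb]
    ring
  have c11 : (G1 V p l w).coeff (single 0 1) = 0 := by
    rw [← eval_zero_pderiv, G1, map_sub, map_sub, MvPolynomial.pderiv_C_mul,
      MvPolynomial.pderiv_C_mul, map_mul, map_mul, hs0.1, hs1.1,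
      MvPolynomial.eval_C, MvPolynomial.eval_C, ← ha, ← hc]
    ring
  have c12 : (G1 V p l w).coeff (single 1 1) = -κ := by
    rw [← eval_zero_pderiv, G1, map_sub, map_sub, MvPolynomial.pderiv_C_mul,
      MvPolynomial.pderiv_C_mul, map_mul, map_mul, hs0.2, hs1.2,
      MvPolynomial.eval_C, MvPolynomial.eval_C, ← ha, ← hc, ← hlD]
    ring
  -- the linear change of coordinates
  have hS : (κ * a) * (κ * e) - (κ * b) * (κ * c) ≠ 0 := by
    have : (κ * a) * (κ * e) - (κ * b) * (κ * c) = κ ^ 2 * (a * e - b * c) := by ring
    rw [this]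
    exact mul_ne_zero (pow_ne_zero 2 hκ0) hD0
  obtain ⟨A, hA⟩ := exists_equiv hS
  have hev : ∀ z, MvPolynomial.eval (κ • z) (G0 V p l w) =
      e * MvPolynomial.eval (p + A z) (V 0) - b * MvPolynomial.eval (p + A z) (V 1) ∧
      MvPolynomial.eval (κ • z) (G1 V p l w) =
      a * MvPolynomial.eval (p + A z) (V 1) - c * MvPolynomial.eval (p + A z) (V 0) := by
    intro z
    have harg : (p + ![vp V p l w 0 * (κ • z) 0 + vm V p l w 0 * (κ • z) 1,
        vp V p l w 1 * (κ • z) 0 + vm V p l w 1 * (κ • z) 1]) = p + A z := by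
      rw [hA]
      congr 1
      ext i
      fin_cases i
      · show a * (κ * z 0) + b * (κ * z 1) = κ * a * z 0 + κ * b * z 1
        ring
      · show c * (κ * z 0) + e * (κ * z 1) = κ * c * z 0 + κ * e * z 1
        ring
    constructor
    · rw [G0, map_sub, map_mul, map_mul, eval_sbst, eval_sbst, harg, MvPolynomial.eval_C,
        MvPolynomial.eval_C]
    · rw [G1, map_sub, map_mul, map_mul, eval_sbst, eval_sbst, harg, MvPolynomial.eval_C,
        MvPolynomial.eval_C]
  have hcf : κ⁻¹ * (a * e - b * c) ≠ 0 := mul_ne_zero (inv_ne_zero hκ0) hD0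
  have hconj : ∀ z, A (vhat (H0 V p l w) (H1 V p l w) z) =
      (κ⁻¹ * (a * e - b * c)) • pvf V (p + A z) := by
    intro z
    have e0 := eval_scaleHigh κ (G0 V p l w) z
    have e1 := eval_scaleHigh κ (G1 V p l w) z
    rw [c00, c01, c02, (hev z).1] at e0
    rw [c10, c11, c12, (hev z).2] at e1
    have f0 : z 0 + MvPolynomial.eval z (H0 V p l w) = (κ ^ 2)⁻¹ *
        (e * MvPolynomial.eval (p + A z) (V 0) - b * MvPolynomial.eval (p + A z) (V 1)) := by
      rw [H0, ← hκ]
      field_simp
      linear_combination e0
    have f1 : -z 1 + MvPolynomial.eval z (H1 V p l w) = (κ ^ 2)⁻¹ *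
        (a * MvPolynomial.eval (p + A z) (V 1) - c * MvPolynomial.eval (p + A z) (V 0)) := by
      rw [H1, ← hκ]
      field_simp
      linear_combination e1
    rw [hA (vhat (H0 V p l w) (H1 V p l w) z)]
    have g0 : vhat (H0 V p l w) (H1 V p l w) z 0 = z 0 + MvPolynomial.eval z (H0 V p l w) := rfl
    have g1 : vhat (H0 V p l w) (H1 V p l w) z 1 = -z 1 + MvPolynomial.eval z (H1 V p l w) := rfl
    rw [g0, g1, f0, f1]
    ext i
    fin_cases i
    · show κ * a * ((κ ^ 2)⁻¹ * (e * MvPolynomial.eval (p + A z) (V 0) -
        b * MvPolynomial.eval (p + A z) (V 1))) + κ * b * ((κ ^ 2)⁻¹ *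
        (a * MvPolynomial.eval (p + A z) (V 1) - c * MvPolynomial.eval (p + A z) (V 0))) =
        κ⁻¹ * (a * e - b * c) * MvPolynomial.eval (p + A z) (V 0)
      field_simp
      ring
    · show κ * c * ((κ ^ 2)⁻¹ * (e * MvPolynomial.eval (p + A z) (V 0) -
        b * MvPolynomial.eval (p + A z) (V 1))) + κ * e * ((κ ^ 2)⁻¹ *
        (a * MvPolynomial.eval (p + A z) (V 1) - c * MvPolynomial.eval (p + A z) (V 0))) =
        κ⁻¹ * (a * e - b * c) * MvPolynomial.eval (p + A z) (V 1)
      field_simp
      ring
  constructor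
  · intro h
    exact obs_of_hasCenter (ord2_scaleHigh _ _) (ord2_scaleHigh _ _) (h.affine A hconj)
  · intro h
    exact (hasCenter_of_obs (ord2_scaleHigh _ _) (ord2_scaleHigh _ _) h).affine_symm A hcf hconj

end Pool.Agent.Work.MP_d6d6e6_ag
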