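import Pool.Agent.Work.MP_d6d6e6_ag.Persist
import Pool.Agent.Work.MP_d6d6e6_ag.Bezout

/-! Stability of centers on a Zariski open dense subset. -/

open Filter Topology MvPolynomial

set_option linter.unusedSectionVars false
set_option linter.unusedVariables false

namespace Pool.Agent.Work.MP_d6d6e6_ag

theorem totalDegree_poly_le {d : ℕ} (ω : Form d) (k : Fin 2) : (poly ω k).totalDegree ≤ d := by
  rw [poly]
  refine (totalDegree_finsetSum _ _).trans (Finset.sup_le fun m _ => ?_)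
  refine (totalDegree_mul _ _).trans ?_
  rw [totalDegree_C, zero_add]
  refine (totalDegree_mul _ _).trans ?_
  refine le_trans (add_le_add (totalDegree_pow _ _) (totalDegree_pow _ _)) ?_
  rw [totalDegree_X, totalDegree_X, mul_one, mul_one]
  exact m.2

theorem polyMap_eq (V : Fin 2 → MvPolynomial (Fin 2) ℂ) : polyMap V = pvf V := by
  funext z
  ext i
  fin_cases i <;> rfl

theorem hasBad_le {d m : ℕ} {ω : Form d} (h : HasBad m ω) : m ≤ (1 + d * 2) ^ 2 := by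
  classical
  obtain ⟨z, hinj, hz⟩ := h
  have hred := fun i => (isReduced_iff ω (z i)).1 (hz i).1
  have h1 := card_nondegenerate_zeros_le (poly ω) d (totalDegree_poly_le ω)
    (Finset.univ.image z) ?_ ?_
  · rwa [Finset.card_image_of_injective _ hinj, Finset.card_univ, Fintype.card_fin,
      Fintype.card_fin] at h1
  · intro x hx i
    obtain ⟨j, _, rfl⟩ := Finset.mem_image.1 hx
    exact (hred j).1 i
  · intro x hx
    obtain ⟨j, _, rfl⟩ := Finset.mem_image.1 hx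
    intro h0
    obtain ⟨J, hJ, hJv⟩ := hasFDerivAt_pvf (poly ω) (z j)
    rw [polyMap_eq, hJ.fderiv] at h0
    have h2 := LinearMap.bot_lt_ker_of_det_eq_zero (f := (J : (Fin 2 → ℂ) →ₗ[ℂ] (Fin 2 → ℂ))) h0
    obtain ⟨v, hv, hv0⟩ := Submodule.exists_mem_ne_zero_of_ne_bot h2.ne'
    have h3 : J v = 0 := hv
    rw [hJv] at h3
    exact hv0 (inj_of_det (hred j).2 (congrFun h3 0) (congrFun h3 1))

theorem exists_max {d : ℕ} {X : Set (PForm d)} (hX : X.Nonempty) :
    ∃ m, (∃ F ∈ X, HasBad m F.rep) ∧ ∀ F ∈ X, ¬ HasBad (m + 1) F.rep := by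
  by_contra hno
  push Not at hno
  have h : ∀ m, ∃ F ∈ X, HasBad m F.rep := by
    intro m
    induction m with
    | zero =>
      obtain ⟨F, hF⟩ := hX
      exact ⟨F, hF, fun i => i.elim0, fun i => i.elim0, fun i => i.elim0⟩
    | succ m ih =>
      obtain ⟨F, hF, h⟩ := ih
      exact hno m ⟨F, hF, h⟩
  obtain ⟨F, _, hF⟩ := h ((1 + d * 2) ^ 2 + 1)
  have := hasBad_le hF
  omega

theorem continuous_ev2 {d : ℕ} (g : UA d) :
    Continuous fun x : Form d × (Fin 2 → ℂ) => ev2 x.1 x.2 g := by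
  induction g using MvPolynomial.induction_on with
  | C f =>
    simp only [ev2_C]
    exact (MvPolynomial.continuous_eval f).comp continuous_fst
  | add p q hp hq =>
    simp only [map_add]
    exact hp.add hq
  | mul_X p i hp =>
    simp only [map_mul, ev2_X]
    exact hp.mul ((continuous_apply i).comp continuous_snd)

theorem eventually_ne_zero_aux {E : Type*} [TopologicalSpace E] {G : E × (Fin 2 → ℂ) → ℂ}
    (hG : Continuous G) {w : ℂ → E} (hw : ContinuousAt w 0)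
    {q : ℂ → (Fin 2 → ℂ)} (hq : ContinuousAt q 0) (h : G (w 0, q 0) ≠ 0) :
    ∀ᶠ ε in 𝓝 (0 : ℂ), G (w ε, q ε) ≠ 0 := by
  have h1 : Tendsto (fun ε : ℂ => (w ε, q ε)) (𝓝 0) (𝓝 (w 0, q 0)) := hw.prodMk hq
  exact ((hG.tendsto (w 0, q 0)).comp h1).eventually_ne h

theorem eventually_ne_aux {q r : ℂ → (Fin 2 → ℂ)} (hq : ContinuousAt q 0)
    (hr : ContinuousAt r 0) (h : q 0 ≠ r 0) : ∀ᶠ ε in 𝓝 (0 : ℂ), q ε ≠ r ε := by
  have h1 : Tendsto (fun ε : ℂ => q ε - r ε) (𝓝 0) (𝓝 (q 0 - r 0)) := hq.sub hr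
  filter_upwards [h1.eventually_ne (sub_ne_zero.2 h)] with ε h2
  exact sub_ne_zero.1 h2

theorem eventually_ev2_ne_zero {d : ℕ} {w : ℂ → Form d} (hw : ContinuousAt w 0)
    {q : ℂ → (Fin 2 → ℂ)} (hq : ContinuousAt q 0) (g : UA d) (h : ev2 (w 0) (q 0) g ≠ 0) :
    ∀ᶠ ε in 𝓝 (0 : ℂ), ev2 (w ε) (q ε) g ≠ 0 :=
  eventually_ne_zero_aux (continuous_ev2 g) hw hq h

/-- A family of singularities through a reduced one consists of reduced singularities. -/
theorem eventually_reduced {d : ℕ} {w : ℂ → Form d} (hw : ContinuousAt w 0)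
    {q : ℂ → (Fin 2 → ℂ)} (hq : ContinuousAt q 0) (h0 : IsReducedSingularity (w 0) (q 0))
    (hs : ∀ᶠ ε in 𝓝 (0 : ℂ), IsSingularity (w ε) (q ε)) :
    ∀ᶠ ε in 𝓝 (0 : ℂ), IsReducedSingularity (w ε) (q ε) := by
  have h1 := eventually_ev2_ne_zero hw hq (udl d) (by
    rw [ev2_udl]
    exact ((isReduced_iff _ _).1 h0).2)
  filter_upwards [h1, hs] with ε h2 h3
  rw [ev2_udl] at h2
  refine ⟨h3, ?_⟩
  rw [dl_eq]
  exact h2

/-- Non-centers persist. -/
theorem eventually_not_center {d : ℕ} {w : ℂ → Form d} (hw : ContinuousAt w 0)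
    {q : ℂ → (Fin 2 → ℂ)} (hq : ContinuousAt q 0) (h0 : IsReducedSingularity (w 0) (q 0))
    (hc : ¬ IsCenter (w 0) (q 0)) (hs : ∀ᶠ ε in 𝓝 (0 : ℂ), IsSingularity (w ε) (q ε)) :
    ∀ᶠ ε in 𝓝 (0 : ℂ), IsReducedSingularity (w ε) (q ε) ∧ ¬ IsCenter (w ε) (q ε) := by
  rw [isCenter_iff_eqs _ _ h0] at hc
  push Not at hc
  obtain ⟨g, hg, hg0⟩ := hc
  filter_upwards [eventually_ev2_ne_zero hw hq g hg0, eventually_reduced hw hq h0 hs] with ε h1 h2
  exact ⟨h2, fun h3 => h1 ((isCenter_iff_eqs _ _ h2).1 h3 g hg)⟩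

theorem isStable_of_max {d m : ℕ} {X : Set (PForm d)} {F : PForm d} (hm : HasBad m F.rep)
    (hmax : ∀ G ∈ X, ¬ HasBad (m + 1) G.rep) {p : Fin 2 → ℂ} (hp : IsCenter F.rep p) :
    IsStable X F p := by
  intro w hw
  obtain ⟨h0, hF⟩ := hw.base
  obtain ⟨a, ha⟩ : ∃ a : ℂ, a • F.rep = w 0 := by
    rw [← F.mk_rep] at hF
    exact (Projectivization.mk_eq_mk_iff' ℂ _ _ h0 F.rep_nonzero).1 hF
  have ha0 : a ≠ 0 := by
    rintro rfl
    rw [zero_smul] at ha
    exact h0 ha.symm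
  have hc : IsCenter (w 0) p := by
    rw [← ha, isCenter_smul ha0]
    exact hp
  have hm' : HasBad m (w 0) := by
    rw [← ha, hasBad_smul ha0]
    exact hm
  have hwc : ContinuousAt w 0 := hw.holomorphic.continuousAt
  obtain ⟨q, hq, hq0, W, hW, hqW⟩ := exists_persist hw.holomorphic hc.1
  refine ⟨q, hq, hq0, ⟨W, hW, hqW⟩, ?_⟩
  obtain ⟨z, hz, hbad⟩ := hm'
  choose Q hQ hQ0 WQ hWQ hQW using fun i => exists_persist hw.holomorphic (hbad i).1
  have hqs : ∀ᶠ ε in 𝓝 (0 : ℂ), IsReducedSingularity (w ε) (q ε) := by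
    refine eventually_reduced hwc hq.continuousAt (by rw [hq0]; exact hc.1) ?_
    filter_upwards [hqW] with ε h1
    exact (h1.2 _ h1.1).2 rfl
  have hQs : ∀ i, ∀ᶠ ε in 𝓝 (0 : ℂ),
      IsReducedSingularity (w ε) (Q i ε) ∧ ¬ IsCenter (w ε) (Q i ε) := by
    intro i
    refine eventually_not_center hwc (hQ i).continuousAt (by rw [hQ0]; exact (hbad i).1)
      (by rw [hQ0]; exact (hbad i).2) ?_
    filter_upwards [hQW i] with ε h1
    exact (h1.2 _ h1.1).2 rfl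
  have hne : ∀ i j, i ≠ j → ∀ᶠ ε in 𝓝 (0 : ℂ), Q i ε ≠ Q j ε := by
    intro i j hij
    refine eventually_ne_aux (hQ i).continuousAt (hQ j).continuousAt ?_
    rw [hQ0, hQ0]
    exact hz.ne hij
  have hneq : ∀ i, ∀ᶠ ε in 𝓝 (0 : ℂ), q ε ≠ Q i ε := by
    intro i
    refine eventually_ne_aux hq.continuousAt (hQ i).continuousAt ?_
    rw [hq0, hQ0]
    intro h
    exact (hbad i).2 (h ▸ hc)
  filter_upwards [eventually_all.2 hQs, hqs,
    eventually_all.2 fun i => eventually_all.2 fun j => eventually_all.2 (hne i j),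
    eventually_all.2 hneq, hw.inside] with ε h1 h2 h3 h4 h5
  by_contra hnc
  obtain ⟨h6, h7⟩ := h5
  apply hmax _ h7
  obtain ⟨b, hb⟩ := Projectivization.exists_smul_eq_mk_rep ℂ (w ε) h6
  rw [← hb]
  have hb0 : (b : ℂ) ≠ 0 := b.ne_zero
  rw [Units.smul_def, hasBad_smul hb0]
  refine ⟨Fin.cons (q ε) fun i => Q i ε, ?_, ?_⟩
  · rw [Fin.cons_injective_iff]
    constructor
    · rintro ⟨i, hi⟩
      exact h4 i hi.symm
    · intro i j hij
      by_contra hne
      exact h3 i j hne hij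
  · intro i
    refine Fin.cases ?_ (fun i => ?_) i
    · exact ⟨h2, hnc⟩
    · exact h1 i

/-- Main theorem, for an arbitrary irreducible closed set. -/
theorem stable_centers {d : ℕ} {X : Set (PForm d)} (hX : IsIrreducibleClosed X) :
    ∃ U, IsOpenDenseIn U X ∧ ∀ F ∈ U, ∀ p, IsCenter F.rep p → IsStable X F p := by
  obtain ⟨-, hne, hirr⟩ := hX
  obtain ⟨m, ⟨F₀, hF₀, hbad⟩, hmax⟩ := exists_max hne
  set Z : Set (PForm d) := {F : PForm d | ¬ HasBad m F.rep} with hZ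
  have hZc : IsZariskiClosed Z := isZariskiClosed_not_hasBad d m
  refine ⟨X \ Z, ⟨⟨Z, hZc, rfl⟩, ?_⟩, ?_⟩
  · intro F hF Z' hZ' hsub
    have h1 : X ⊆ Z' ∪ Z := by
      intro G hG
      by_cases h : G ∈ Z
      · exact Or.inr h
      · exact Or.inl (hsub ⟨hG, h⟩)
    rcases hirr Z' Z hZ' hZc h1 with h2 | h2
    · exact h2 hF
    · exact absurd hbad (h2 hF₀)
  · rintro F ⟨hF, hFZ⟩ p hp
    refine isStable_of_max (m := m) ?_ hmax hp
    by_contra h
    exact hFZ h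

end Pool.Agent.Work.MP_d6d6e6_ag
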