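import Pool.Agent.Work.MP_d6d6e6_ag.Identity

/-! The obstruction series is compatible with change of the base algebra. -/

open Finsupp

set_option linter.unusedSectionVars false
set_option linter.unusedVariables false

namespace Pool.Agent.Work.MP_d6d6e6_ag

universe u v

variable {O : Type u} {O' : Type v} [CommRing O] [Algebra ℂ O] [CommRing O'] [Algebra ℂ O']

theorem map_scale (φ : O →ₐ[ℂ] O') (w : (Fin 2 →₀ ℕ) → ℂ) (f : PS O) :
    MvPowerSeries.map (φ : O →+* O') (scale w f) =
      scale w (MvPowerSeries.map (φ : O →+* O') f) := by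
  apply MvPowerSeries.ext
  intro m
  rw [MvPowerSeries.coeff_map, coeff_scale, coeff_scale, MvPowerSeries.coeff_map]
  exact map_smul φ _ _

theorem map_diagPart (φ : O →ₐ[ℂ] O') (e : Fin 2 →₀ ℕ) (f : PS O) :
    MvPowerSeries.map (φ : O →+* O') (diagPart e f) =
      diagPart e (MvPowerSeries.map (φ : O →+* O') f) := by
  apply MvPowerSeries.ext
  intro m
  rw [MvPowerSeries.coeff_map, coeff_diagPart, coeff_diagPart, MvPowerSeries.coeff_map]
  split_ifs
  · rfl
  · exact map_zero _

theorem map_aeval (φ : O →ₐ[ℂ] O') (Φ : Fin 2 → PS O) (p : MvPolynomial (Fin 2) O) :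
    MvPowerSeries.map (φ : O →+* O') (MvPolynomial.aeval Φ p) =
      MvPolynomial.aeval (fun i => MvPowerSeries.map (φ : O →+* O') (Φ i))
        (MvPolynomial.map (φ : O →+* O') p) := by
  induction p using MvPolynomial.induction_on with
  | C a =>
    rw [MvPolynomial.aeval_C, MvPolynomial.map_C, MvPolynomial.aeval_C]
    exact MvPowerSeries.map_C _ _
  | add p q hp hq => rw [map_add, map_add, map_add, map_add, hp, hq]
  | mul_X p i hp =>
    rw [map_mul, map_mul, map_mul, map_mul, hp, MvPolynomial.aeval_X, MvPolynomial.map_X,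
      MvPolynomial.aeval_X]

/-- base change of a state -/
noncomputable def St.map (φ : O →ₐ[ℂ] O') (s : St O) : St O' where
  al := MvPowerSeries.map (φ : O →+* O') s.al
  be := MvPowerSeries.map (φ : O →+* O') s.be
  a := MvPowerSeries.map (φ : O →+* O') s.a

theorem phi_map (φ : O →ₐ[ℂ] O') (s : St O) :
    Phi (s.map φ) = fun i => MvPowerSeries.map (φ : O →+* O') (Phi s i) := by
  funext i
  fin_cases i
  · show MvPowerSeries.X 0 + (s.map φ).al = MvPowerSeries.map (φ : O →+* O') (MvPowerSeries.X 0 + s.al)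
    rw [map_add, MvPowerSeries.map_X]
    rfl
  · show MvPowerSeries.X 1 + (s.map φ).be = MvPowerSeries.map (φ : O →+* O') (MvPowerSeries.X 1 + s.be)
    rw [map_add, MvPowerSeries.map_X]
    rfl

theorem step_map (φ : O →ₐ[ℂ] O') (p q : MvPolynomial (Fin 2) O) (s : St O) :
    step (MvPolynomial.map (φ : O →+* O') p) (MvPolynomial.map (φ : O →+* O') q) (s.map φ) =
      (step p q s).map φ := by
  have hp : MvPolynomial.aeval (Phi (s.map φ)) (MvPolynomial.map (φ : O →+* O') p) =
    MvPowerSeries.map (φ : O →+* O') (MvPolynomial.aeval (Phi s) p) := by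
    rw [map_aeval, phi_map]
  have hq : MvPolynomial.aeval (Phi (s.map φ)) (MvPolynomial.map (φ : O →+* O') q) =
    MvPowerSeries.map (φ : O →+* O') (MvPolynomial.aeval (Phi s) q) := by
    rw [map_aeval, phi_map]
  apply St.ext
  · show scale w1 (MvPolynomial.aeval (Phi (s.map φ)) (MvPolynomial.map (φ : O →+* O') p) -
      MvPowerSeries.map (φ : O →+* O') s.a * scale wD (MvPowerSeries.map (φ : O →+* O') s.al)) =
      MvPowerSeries.map (φ : O →+* O')
        (scale w1 (MvPolynomial.aeval (Phi s) p - s.a * scale wD s.al))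
    rw [hp, map_scale, map_sub, map_mul, map_scale]
  · show scale w2 (MvPolynomial.aeval (Phi (s.map φ)) (MvPolynomial.map (φ : O →+* O') q) -
      MvPowerSeries.map (φ : O →+* O') s.a * scale wD (MvPowerSeries.map (φ : O →+* O') s.be)) =
      MvPowerSeries.map (φ : O →+* O')
        (scale w2 (MvPolynomial.aeval (Phi s) q - s.a * scale wD s.be))
    rw [hq, map_scale, map_sub, map_mul, map_scale]
  · show diagPart (single 0 1)
      (MvPolynomial.aeval (Phi (s.map φ)) (MvPolynomial.map (φ : O →+* O') p)) =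
      MvPowerSeries.map (φ : O →+* O') (diagPart (single 0 1) (MvPolynomial.aeval (Phi s) p))
    rw [hp, map_diagPart]

theorem iter_map (φ : O →ₐ[ℂ] O') (p q : MvPolynomial (Fin 2) O) (n : ℕ) :
    iter (MvPolynomial.map (φ : O →+* O') p) (MvPolynomial.map (φ : O →+* O') q) n =
      (iter p q n).map φ := by
  induction n with
  | zero =>
    apply St.ext
    · exact (map_zero (MvPowerSeries.map (φ : O →+* O'))).symm
    · exact (map_zero (MvPowerSeries.map (φ : O →+* O'))).symm
    · exact (map_zero (MvPowerSeries.map (φ : O →+* O'))).symm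
  | succ n ih =>
    show step _ _ (iter _ _ n) = (step p q (iter p q n)).map φ
    rw [ih, step_map]

theorem lim_map (φ : O →ₐ[ℂ] O') (p q : MvPolynomial (Fin 2) O) :
    lim (MvPolynomial.map (φ : O →+* O') p) (MvPolynomial.map (φ : O →+* O') q) =
      (lim p q).map φ := by
  apply St.ext
  · apply MvPowerSeries.ext
    intro m
    rw [lim_al, iter_map]
    show MvPowerSeries.coeff m (MvPowerSeries.map (φ : O →+* O') _) =
      MvPowerSeries.coeff m (MvPowerSeries.map (φ : O →+* O') _)
    rw [MvPowerSeries.coeff_map, MvPowerSeries.coeff_map, lim_al]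
  · apply MvPowerSeries.ext
    intro m
    rw [lim_be, iter_map]
    show MvPowerSeries.coeff m (MvPowerSeries.map (φ : O →+* O') _) =
      MvPowerSeries.coeff m (MvPowerSeries.map (φ : O →+* O') _)
    rw [MvPowerSeries.coeff_map, MvPowerSeries.coeff_map, lim_be]
  · apply MvPowerSeries.ext
    intro m
    rw [lim_a, iter_map]
    show MvPowerSeries.coeff m (MvPowerSeries.map (φ : O →+* O') _) =
      MvPowerSeries.coeff m (MvPowerSeries.map (φ : O →+* O') _)
    rw [MvPowerSeries.coeff_map, MvPowerSeries.coeff_map, lim_a]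

theorem obs_map (φ : O →ₐ[ℂ] O') (p q : MvPolynomial (Fin 2) O) :
    obs (MvPolynomial.map (φ : O →+* O') p) (MvPolynomial.map (φ : O →+* O') q) =
      MvPowerSeries.map (φ : O →+* O') (obs p q) := by
  rw [obs, obs, lim_map, map_add, map_diagPart, map_aeval, phi_map]
  rfl

end Pool.Agent.Work.MP_d6d6e6_ag
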