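import Pool.Agent.Work.MP_d6d6e6_ag.Natural

/-! Weighted `l^1` norm on power series and convergence of the normal form. -/

open Finsupp
open scoped ENNReal

set_option linter.unusedSectionVars false
set_option linter.unusedVariables false

namespace Pool.Agent.Work.MP_d6d6e6_ag

/-- weighted `l^1` norm with values in `[0, ∞]` -/
noncomputable def nrm (ρ : ℝ≥0∞) (f : PS ℂ) : ℝ≥0∞ :=
  ∑' m : Fin 2 →₀ ℕ, ‖MvPowerSeries.coeff m f‖ₑ * ρ ^ m.degree

variable {ρ : ℝ≥0∞}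

theorem nrm_zero : nrm ρ 0 = 0 := by simp [nrm]

theorem nrm_add_le (f g : PS ℂ) : nrm ρ (f + g) ≤ nrm ρ f + nrm ρ g := by
  rw [nrm, nrm, nrm, ← ENNReal.tsum_add]
  refine ENNReal.tsum_le_tsum fun m => ?_
  rw [map_add, ← add_mul]
  gcongr
  exact enorm_add_le _ _

theorem nrm_neg (f : PS ℂ) : nrm ρ (-f) = nrm ρ f := by
  rw [nrm, nrm]
  congr 1
  funext m
  rw [map_neg, enorm_neg]

theorem nrm_sub_le (f g : PS ℂ) : nrm ρ (f - g) ≤ nrm ρ f + nrm ρ g := by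
  rw [sub_eq_add_neg, ← nrm_neg g]
  exact nrm_add_le f (-g)

theorem nrm_mul_le (f g : PS ℂ) : nrm ρ (f * g) ≤ nrm ρ f * nrm ρ g := by
  classical
  set F : (Fin 2 →₀ ℕ) → ℝ≥0∞ := fun m => ‖MvPowerSeries.coeff m f‖ₑ * ρ ^ m.degree with hF
  set G : (Fin 2 →₀ ℕ) → ℝ≥0∞ := fun m => ‖MvPowerSeries.coeff m g‖ₑ * ρ ^ m.degree with hG
  have h1 : nrm ρ f * nrm ρ g = ∑' m : Fin 2 →₀ ℕ,
      ∑ p ∈ Finset.HasAntidiagonal.antidiagonal m, F p.1 * G p.2 := by
    have e1 : nrm ρ f * nrm ρ g = ∑' p : (Fin 2 →₀ ℕ) × (Fin 2 →₀ ℕ), F p.1 * G p.2 := by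
      rw [ENNReal.tsum_prod (f := fun a b => F a * G b), nrm, nrm, ← ENNReal.tsum_mul_right]
      congr 1
      funext a
      rw [← ENNReal.tsum_mul_left]
    rw [e1, ← (Finset.HasAntidiagonal.sigmaAntidiagonalEquivProd (A := Fin 2 →₀ ℕ)).tsum_eq]
    rw [ENNReal.tsum_sigma']
    congr 1
    funext m
    rw [tsum_fintype]
    rw [← Finset.sum_coe_sort (Finset.HasAntidiagonal.antidiagonal m)]
    rfl
  rw [h1, nrm]
  refine ENNReal.tsum_le_tsum fun m => ?_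
  rw [MvPowerSeries.coeff_mul]
  calc ‖∑ p ∈ Finset.HasAntidiagonal.antidiagonal m,
        MvPowerSeries.coeff p.1 f * MvPowerSeries.coeff p.2 g‖ₑ * ρ ^ m.degree
      ≤ (∑ p ∈ Finset.HasAntidiagonal.antidiagonal m,
        ‖MvPowerSeries.coeff p.1 f * MvPowerSeries.coeff p.2 g‖ₑ) * ρ ^ m.degree := by
        gcongr
        exact enorm_sum_le _ _
    _ = ∑ p ∈ Finset.HasAntidiagonal.antidiagonal m, F p.1 * G p.2 := by
        rw [Finset.sum_mul]
        refine Finset.sum_congr rfl fun p hp => ?_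
        rw [Finset.HasAntidiagonal.mem_antidiagonal] at hp
        rw [hF, hG]
        simp only
        rw [enorm_mul, ← hp, map_add, pow_add]
        ring

theorem nrm_one : nrm ρ 1 = 1 := by
  classical
  rw [nrm, tsum_eq_single 0]
  · simp
  · intro m hm
    rw [MvPowerSeries.coeff_one, if_neg hm]
    simp

theorem nrm_C (c : ℂ) : nrm ρ (MvPowerSeries.C c) = ‖c‖ₑ := by
  classical
  rw [nrm, tsum_eq_single 0]
  · simp
  · intro m hm
    rw [MvPowerSeries.coeff_C, if_neg hm]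
    simp

theorem nrm_X (i : Fin 2) : nrm ρ (MvPowerSeries.X i) = ρ := by
  classical
  rw [nrm, tsum_eq_single (single i 1)]
  · simp
  · intro m hm
    rw [MvPowerSeries.coeff_X, if_neg hm]
    simp

theorem nrm_pow_le (f : PS ℂ) (n : ℕ) : nrm ρ (f ^ n) ≤ nrm ρ f ^ n := by
  induction n with
  | zero => simp [nrm_one]
  | succ n ih =>
    rw [pow_succ, pow_succ]
    exact (nrm_mul_le _ _).trans (by gcongr)

theorem nrm_sum_le {ι : Type*} (s : Finset ι) (f : ι → PS ℂ) :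
    nrm ρ (∑ i ∈ s, f i) ≤ ∑ i ∈ s, nrm ρ (f i) := by
  classical
  induction s using Finset.induction_on with
  | empty => simp [nrm_zero]
  | insert a s ha ih =>
    rw [Finset.sum_insert ha, Finset.sum_insert ha]
    exact (nrm_add_le _ _).trans (by gcongr)

theorem nrm_scale_le {w : (Fin 2 →₀ ℕ) → ℂ} {c : ℝ≥0∞} (hw : ∀ m, ‖w m‖ₑ ≤ c) (f : PS ℂ) :
    nrm ρ (scale w f) ≤ c * nrm ρ f := by
  rw [nrm, nrm, ← ENNReal.tsum_mul_left]
  refine ENNReal.tsum_le_tsum fun m => ?_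
  rw [coeff_scale, smul_eq_mul, enorm_mul, mul_assoc]
  gcongr
  exact hw m

theorem nrm_diagPart_le {e : Fin 2 →₀ ℕ} (he : e.degree = 1) (f : PS ℂ) :
    ρ * nrm ρ (diagPart e f) ≤ nrm ρ f := by
  rw [nrm, ← ENNReal.tsum_mul_left]
  have h1 : ∑' m : Fin 2 →₀ ℕ, ‖MvPowerSeries.coeff (m + e) f‖ₑ * ρ ^ (m + e).degree ≤ nrm ρ f := by
    rw [nrm]
    exact ENNReal.tsum_comp_le_tsum_of_injective (f := fun m => m + e)
      (fun a b h => add_right_cancel h)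
      (fun m => ‖MvPowerSeries.coeff m f‖ₑ * ρ ^ m.degree)
  refine le_trans (ENNReal.tsum_le_tsum fun m => ?_) h1
  rw [map_add, he, pow_succ, coeff_diagPart]
  split_ifs
  · rw [← mul_assoc, mul_comm ρ, mul_assoc, mul_comm ρ]
  · simp

theorem nrm_le_of_approx {f : PS ℂ} {g : ℕ → PS ℂ} {c : ℝ≥0∞} (h : ∀ n, OrdGe n (f - g n))
    (hg : ∀ n, nrm ρ (g n) ≤ c) : nrm ρ f ≤ c := by
  classical
  rw [nrm, ENNReal.tsum_eq_iSup_sum]
  refine iSup_le fun s => ?_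
  set N := s.sup (fun m => m.degree) + 1 with hN
  refine le_trans ?_ (hg N)
  rw [nrm]
  refine le_trans (le_of_eq ?_) (ENNReal.sum_le_tsum s)
  refine Finset.sum_congr rfl fun m hm => ?_
  rw [(h N).coeff_eq]
  exact Nat.lt_succ_of_le (Finset.le_sup (f := fun m : Fin 2 →₀ ℕ => m.degree) hm)

end Pool.Agent.Work.MP_d6d6e6_ag
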