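import Pool.Agent.Work.MP_d6d6e6_ag.Deriv

/-! The analytic normal form. -/

open Finsupp Filter Topology
open scoped ENNReal NNReal

set_option linter.unusedSectionVars false
set_option linter.unusedVariables false

namespace Pool.Agent.Work.MP_d6d6e6_ag

/-- The vector field `(x + p) ∂_x + (-y + q) ∂_y`. -/
noncomputable def vhat (p q : MvPolynomial (Fin 2) ℂ) (z : Fin 2 → ℂ) : Fin 2 → ℂ :=
  ![z 0 + MvPolynomial.eval z p, -z 1 + MvPolynomial.eval z q]

theorem evalS_congr_of_diagSupp {f : PS ℂ} (hf : DiagSupp f) {z z' : Fin 2 → ℂ}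
    (h : z 0 * z 1 = z' 0 * z' 1) : evalS f z = evalS f z' := by
  rw [evalS, evalS]
  refine tsum_congr fun m => ?_
  by_cases hm : m 0 = m 1
  · rw [monf, monf, ← hm, ← mul_pow, ← mul_pow, h]
  · rw [hf m hm, zero_mul, zero_mul]

theorem scale_wD_X0 : scale wD (MvPowerSeries.X 0 : PS ℂ) = MvPowerSeries.X 0 := by
  classical
  apply MvPowerSeries.ext
  intro m
  rw [coeff_scale, MvPowerSeries.coeff_X]
  split_ifs with h
  · rw [h]
    simp [wD]
  · simp

theorem scale_wD_X1 : scale wD (MvPowerSeries.X 1 : PS ℂ) = -MvPowerSeries.X 1 := by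
  classical
  apply MvPowerSeries.ext
  intro m
  rw [coeff_scale, map_neg, MvPowerSeries.coeff_X]
  split_ifs with h
  · rw [h]
    simp [wD]
  · simp

theorem nrm_X_ne_top {r : ℝ} (i : Fin 2) : nrm (ENNReal.ofReal r) (MvPowerSeries.X i) ≠ ⊤ := by
  rw [nrm_X]
  exact ENNReal.ofReal_ne_top

theorem ne_top_of_mul_le {c x b : ℝ≥0∞} (hc : c ≠ 0) (hb : b ≠ ⊤) (h : c * x ≤ b) : x ≠ ⊤ := by
  intro hx
  rw [hx, ENNReal.mul_top hc] at h
  exact hb (top_le_iff.1 h)

theorem nrm_diagPart_ne_top {r : ℝ} (hr : 0 < r) {e : Fin 2 →₀ ℕ} (he : e.degree = 1) {f : PS ℂ}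
    (hf : nrm (ENNReal.ofReal r) f ≠ ⊤) : nrm (ENNReal.ofReal r) (diagPart e f) ≠ ⊤ :=
  ne_top_of_mul_le (by rw [Ne, ENNReal.ofReal_eq_zero, not_le]; exact hr) hf
    (nrm_diagPart_le he f)

/-- norm of the sum is at most the norm -/
theorem norm_evalS_le {r c : ℝ} (hr : 0 ≤ r) (hc : 0 ≤ c) {f : PS ℂ}
    (hf : nrm (ENNReal.ofReal r) f ≤ ENNReal.ofReal c)
    {z : Fin 2 → ℂ} (hz : ∀ i, ‖z i‖ ≤ r) : ‖evalS f z‖ ≤ c := by
  have hf' : nrm (ENNReal.ofReal r) f ≠ ⊤ := ne_top_of_le_ne_top ENNReal.ofReal_ne_top hf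
  have h1 : ‖evalS f z‖ ≤ ∑' m : Fin 2 →₀ ℕ, ‖MvPowerSeries.coeff m f‖ * r ^ m.degree := by
    rw [evalS]
    refine (norm_tsum_le_tsum_norm (summable_norm_eval hr hf' hz)).trans ?_
    refine Summable.tsum_le_tsum (fun m => ?_) (summable_norm_eval hr hf' hz)
      (summable_of_nrm hr hf')
    rw [norm_mul]
    gcongr
    exact norm_monf_le hr hz m
  refine h1.trans ?_
  have h : ∀ m : Fin 2 →₀ ℕ, ‖MvPowerSeries.coeff m f‖ₑ * ENNReal.ofReal r ^ m.degree =
      ENNReal.ofReal (‖MvPowerSeries.coeff m f‖ * r ^ m.degree) := by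
    intro m
    rw [ENNReal.ofReal_mul (norm_nonneg _), ofReal_norm, ENNReal.ofReal_pow hr]
  rw [nrm] at hf
  simp_rw [h] at hf
  rw [← ENNReal.ofReal_tsum_of_nonneg (fun m => by positivity) (summable_of_nrm hr hf')] at hf
  exact (ENNReal.ofReal_le_ofReal_iff hc).1 hf

/-- The analytic normal form of the vector field `vhat p q`. -/
theorem exists_normal_form {p q : MvPolynomial (Fin 2) ℂ} (hp : Ord2 p) (hq : Ord2 q) :
    ∃ (r : ℝ) (Φ : (Fin 2 → ℂ) → (Fin 2 → ℂ)) (a : (Fin 2 → ℂ) → ℂ), 0 < r ∧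
      nrm (ENNReal.ofReal r) (obs p q) ≠ ⊤ ∧ Φ 0 = 0 ∧
      HasFDerivAt Φ (ContinuousLinearMap.id ℂ (Fin 2 → ℂ)) 0 ∧
      (∀ z : Fin 2 → ℂ, (∀ i, ‖z i‖ < r) → AnalyticAt ℂ Φ z ∧ ‖a z‖ ≤ 1 / 4 ∧
        vhat p q (Φ z) = (1 + a z) • fderiv ℂ Φ z ![z 0, -z 1]
          + ![0, evalS (obs p q) z * z 1]) ∧
      (∀ z z' : Fin 2 → ℂ, z 0 * z 1 = z' 0 * z' 1 → a z = a z') := by
  obtain ⟨r, hr, hinv, hphi, hr1⟩ := exists_inv_lim hp hq
  set ρ := ENNReal.ofReal r with hρ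
  set s := lim p q with hs
  have hρ0 : ρ ≠ 0 := by
    rw [hρ, Ne, ENNReal.ofReal_eq_zero, not_le]
    exact hr
  have hρt : ρ ≠ ⊤ := ENNReal.ofReal_ne_top
  have hal : nrm ρ s.al ≠ ⊤ := ne_top_of_mul_le (by norm_num) hρt hinv.al
  have hbe : nrm ρ s.be ≠ ⊤ := ne_top_of_mul_le (by norm_num) hρt hinv.be
  have hdal : nrm ρ (scale wD s.al) ≠ ⊤ := ne_top_of_mul_le (by norm_num) hρt hinv.dal
  have hdbe : nrm ρ (scale wD s.be) ≠ ⊤ := ne_top_of_mul_le (by norm_num) hρt hinv.dbe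
  have ha : nrm ρ s.a ≠ ⊤ := ne_top_of_mul_le (by norm_num) ENNReal.one_ne_top hinv.a
  have hphi' : ∀ i, nrm ρ (Phi s i) ≠ ⊤ := fun i =>
    ne_top_of_le_ne_top (ENNReal.mul_ne_top (by norm_num) hρt) (hphi i)
  have hP : nrm ρ (MvPolynomial.aeval (Phi s) p) ≠ ⊤ := nrm_aeval_ne_top hphi' p
  have hQ : nrm ρ (MvPolynomial.aeval (Phi s) q) ≠ ⊤ := nrm_aeval_ne_top hphi' q
  have hobs : nrm ρ (obs p q) ≠ ⊤ :=
    nrm_add_ne_top (nrm_diagPart_ne_top hr (by simp) hQ) ha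
  have hX0 : nrm ρ (MvPowerSeries.X 0) ≠ ⊤ := nrm_X_ne_top 0
  have hX1 : nrm ρ (MvPowerSeries.X 1) ≠ ⊤ := nrm_X_ne_top 1
  have hnX1 : nrm ρ (-MvPowerSeries.X 1) ≠ ⊤ := by rw [nrm_neg]; exact hX1
  have hone : nrm ρ 1 ≠ ⊤ := by rw [nrm_one]; exact ENNReal.one_ne_top
  have hgood := good_lim hp hq
  -- the two components
  have e0 : ∀ z : Fin 2 → ℂ, (∀ i, ‖z i‖ ≤ r) → evalS (Phi s 0) z = z 0 + evalS s.al z := by
    intro z hz
    show evalS (MvPowerSeries.X 0 + s.al) z = _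
    rw [evalS_add hr.le hX0 hal hz, evalS_X]
  have e1 : ∀ z : Fin 2 → ℂ, (∀ i, ‖z i‖ ≤ r) → evalS (Phi s 1) z = z 1 + evalS s.be z := by
    intro z hz
    show evalS (MvPowerSeries.X 1 + s.be) z = _
    rw [evalS_add hr.le hX1 hbe hz, evalS_X]
  have d0 : scale wD (Phi s 0) = MvPowerSeries.X 0 + scale wD s.al := by
    show scale wD (MvPowerSeries.X 0 + s.al) = _
    rw [scale_add, scale_wD_X0]
  have d1 : scale wD (Phi s 1) = -MvPowerSeries.X 1 + scale wD s.be := by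
    show scale wD (MvPowerSeries.X 1 + s.be) = _
    rw [scale_add, scale_wD_X1]
  have hdphi0 : nrm ρ (scale wD (Phi s 0)) ≠ ⊤ := by
    rw [d0]
    exact nrm_add_ne_top hX0 hdal
  have hdphi1 : nrm ρ (scale wD (Phi s 1)) ≠ ⊤ := by
    rw [d1]
    exact nrm_add_ne_top hnX1 hdbe
  have hΦan : ∀ z : Fin 2 → ℂ, (∀ i, ‖z i‖ < r) →
      AnalyticAt ℂ (fun z i => evalS (Phi s i) z) z := by
    intro z hz
    rw [analyticAt_pi_iff]
    exact fun i => analyticAt_evalS hr (hphi' i) hz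
  refine ⟨r, fun z i => evalS (Phi s i) z, evalS s.a, hr, hobs, ?_, ?_, ?_, ?_⟩
  · funext i
    exact evalS_zero_of_ordGe (hgood.phi i)
  · rw [hasFDerivAt_pi']
    have hz0 : ∀ᶠ z : Fin 2 → ℂ in 𝓝 0, ∀ i, ‖z i‖ ≤ r := by
      have : Metric.ball (0 : Fin 2 → ℂ) r ∈ 𝓝 0 := Metric.ball_mem_nhds _ hr
      filter_upwards [this] with z hz i
      rw [mem_ball_zero_iff] at hz
      exact (norm_le_pi_norm z i).trans hz.le
    intro i
    fin_cases i
    · have h1 := (hasFDerivAt_apply (𝕜 := ℂ) (0 : Fin 2) (0 : Fin 2 → ℂ)).add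
        (hasFDerivAt_evalS_zero hr hal hgood.al)
      rw [add_zero] at h1
      refine HasFDerivAt.congr_of_eventuallyEq h1 ?_
      filter_upwards [hz0] with z hz
      exact e0 z hz
    · have h1 := (hasFDerivAt_apply (𝕜 := ℂ) (1 : Fin 2) (0 : Fin 2 → ℂ)).add
        (hasFDerivAt_evalS_zero hr hbe hgood.be)
      rw [add_zero] at h1
      refine HasFDerivAt.congr_of_eventuallyEq h1 ?_
      filter_upwards [hz0] with z hz
      exact e1 z hz
  · intro z hz
    have hz' : ∀ i, ‖z i‖ ≤ r := fun i => (hz i).le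
    refine ⟨hΦan z hz, ?_, ?_⟩
    · refine norm_evalS_le hr.le (by norm_num) ?_ hz'
      have h4 : (4 : ℝ≥0∞) * nrm ρ s.a ≤ 4 * ENNReal.ofReal (1 / 4) := by
        have : (4 : ℝ≥0∞) * ENNReal.ofReal (1 / 4) = 1 := by
          rw [show (4 : ℝ≥0∞) = ENNReal.ofReal 4 by norm_num, ← ENNReal.ofReal_mul (by norm_num)]
          norm_num
        rw [this]
        exact hinv.a
      exact (ENNReal.mul_le_mul_iff_right (by norm_num) (by norm_num)).1 h4
    · have hfd : fderiv ℂ (fun (z : Fin 2 → ℂ) (i : Fin 2) => evalS (Phi s i) z) z ![z 0, -z 1] =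
          fun i => evalS (scale wD (Phi s i)) z := by
        have hd : ∀ i, DifferentiableAt ℂ (evalS (Phi s i)) z := fun i =>
          (analyticAt_evalS hr (hphi' i) hz).differentiableAt
        have hpi : fderiv ℂ (fun (z : Fin 2 → ℂ) (i : Fin 2) => evalS (Phi s i) z) z =
            ContinuousLinearMap.pi fun i => fderiv ℂ (evalS (Phi s i)) z := fderiv_pi hd
        rw [hpi]
        funext i
        rw [ContinuousLinearMap.pi_apply]
        refine fderiv_evalS_apply (hphi' i) ?_ hz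
        fin_cases i
        · exact hdphi0
        · exact hdphi1
      have i1 := congrArg (fun f => evalS f z) (first_identity hp hq)
      have i2 := congrArg (fun f => evalS f z) (second_identity hp hq)
      simp only [← hs] at i1 i2
      rw [evalS_mul hr.le (nrm_add_ne_top hone ha) (nrm_add_ne_top hX0 hdal) hz',
        evalS_add hr.le hone ha hz', evalS_one,
        evalS_add hr.le (nrm_add_ne_top hX0 hal) hP hz', evalS_add hr.le hX0 hal hz',
        evalS_X, evalS_aeval hr.le hphi' hz'] at i1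
      rw [evalS_mul hr.le (nrm_add_ne_top hone ha) (nrm_add_ne_top hnX1 hdbe) hz',
        evalS_add hr.le hone ha hz', evalS_one, sub_eq_add_neg,
        evalS_add hr.le (nrm_add_ne_top (by rw [nrm_neg]; exact nrm_add_ne_top hX1 hbe) hQ)
          (by rw [nrm_neg]; exact nrm_mul_ne_top hobs hX1) hz',
        evalS_add hr.le (by rw [nrm_neg]; exact nrm_add_ne_top hX1 hbe) hQ hz', evalS_neg,
        evalS_neg, evalS_add hr.le hX1 hbe hz', evalS_mul hr.le hobs hX1 hz',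
        evalS_X, evalS_aeval hr.le hphi' hz'] at i2
      rw [hfd]
      funext i
      fin_cases i
      · show evalS (Phi s 0) z + MvPolynomial.eval (fun i => evalS (Phi s i) z) p =
          (1 + evalS s.a z) * evalS (scale wD (Phi s 0)) z + 0
        rw [d0, i1, e0 z hz', add_zero]
      · show -evalS (Phi s 1) z + MvPolynomial.eval (fun i => evalS (Phi s i) z) q =
          (1 + evalS s.a z) * evalS (scale wD (Phi s 1)) z + evalS (obs p q) z * z 1
        rw [d1, i2, e1 z hz']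
        ring
  · intro z z' h
    refine evalS_congr_of_diagSupp ?_ h
    rw [hs, a_eq hp hq]
    exact diagSupp_diagPart _ _

end Pool.Agent.Work.MP_d6d6e6_ag
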