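import Pool.Agent.Work.MP_d6d6e6_ag.Affine

/-! Reduction of a reduced singularity with zero trace to the normalized form. -/

open Finsupp Filter Topology

set_option linter.unusedSectionVars false
set_option linter.unusedVariables false

namespace Pool.Agent.Work.MP_d6d6e6_ag

universe u v

section generic

variable {O : Type u} [CommRing O] {O' : Type v} [CommRing O']

/-- Keep the terms of degree at least two, the coefficient of degree `n` being multiplied by
`κ ^ (n - 2)`. -/
noncomputable def scaleHigh (κ : O) (f : MvPolynomial (Fin 2) O) : MvPolynomial (Fin 2) O :=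
  ∑ m ∈ f.support,
    if 2 ≤ m.degree then MvPolynomial.monomial m (κ ^ (m.degree - 2) * f.coeff m) else 0

theorem coeff_scaleHigh (κ : O) (f : MvPolynomial (Fin 2) O) (m : Fin 2 →₀ ℕ) :
    (scaleHigh κ f).coeff m = if 2 ≤ m.degree then κ ^ (m.degree - 2) * f.coeff m else 0 := by
  classical
  rw [scaleHigh, MvPolynomial.coeff_sum]
  by_cases hm : m ∈ f.support
  · rw [Finset.sum_eq_single m]
    · split_ifs with h
      · rw [MvPolynomial.coeff_monomial, if_pos rfl]
      · rw [MvPolynomial.coeff_zero]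
    · intro b _ hb
      split_ifs with h
      · rw [MvPolynomial.coeff_monomial, if_neg hb]
      · rw [MvPolynomial.coeff_zero]
    · intro h
      exact absurd hm h
  · have h0 : f.coeff m = 0 := MvPolynomial.notMem_support_iff.1 hm
    rw [h0, mul_zero, ite_self]
    refine Finset.sum_eq_zero fun b hb => ?_
    have hne : b ≠ m := fun h => hm (h ▸ hb)
    split_ifs with h
    · rw [MvPolynomial.coeff_monomial, if_neg hne]
    · rw [MvPolynomial.coeff_zero]

theorem ord2_scaleHigh (κ : O) (f : MvPolynomial (Fin 2) O) : Ord2 (scaleHigh κ f) := by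
  intro m hm
  rw [coeff_scaleHigh, if_neg (not_le.2 hm)]

theorem map_scaleHigh (φ : O →+* O') (κ : O) (f : MvPolynomial (Fin 2) O) :
    MvPolynomial.map φ (scaleHigh κ f) = scaleHigh (φ κ) (MvPolynomial.map φ f) := by
  apply MvPolynomial.ext
  intro m
  rw [MvPolynomial.coeff_map, coeff_scaleHigh, coeff_scaleHigh, MvPolynomial.coeff_map]
  split_ifs
  · rw [map_mul, map_pow]
  · rw [map_zero]

theorem scaleHigh_add (κ : O) (f g : MvPolynomial (Fin 2) O) :
    scaleHigh κ (f + g) = scaleHigh κ f + scaleHigh κ g := by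
  apply MvPolynomial.ext
  intro m
  rw [MvPolynomial.coeff_add, coeff_scaleHigh, coeff_scaleHigh, coeff_scaleHigh,
    MvPolynomial.coeff_add]
  split_ifs
  · rw [mul_add]
  · rw [add_zero]

/-- Jacobian matrix of `V` at `p`. -/
noncomputable def jac (V : Fin 2 → MvPolynomial (Fin 2) O) (p : Fin 2 → O) (i j : Fin 2) : O :=
  MvPolynomial.eval p (MvPolynomial.pderiv j (V i))

/-- image of a vector by the Jacobian matrix -/
noncomputable def jw (V : Fin 2 → MvPolynomial (Fin 2) O) (p w : Fin 2 → O) (i : Fin 2) : O :=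
  jac V p i 0 * w 0 + jac V p i 1 * w 1

/-- determinant of the Jacobian matrix -/
noncomputable def dl (V : Fin 2 → MvPolynomial (Fin 2) O) (p : Fin 2 → O) : O :=
  jac V p 0 0 * jac V p 1 1 - jac V p 0 1 * jac V p 1 0

/-- determinant of `(M w, w)` -/
noncomputable def qq (V : Fin 2 → MvPolynomial (Fin 2) O) (p w : Fin 2 → O) : O :=
  jw V p w 0 * w 1 - jw V p w 1 * w 0

/-- the eigenvector `(M + l) w` -/
noncomputable def vp (V : Fin 2 → MvPolynomial (Fin 2) O) (p : Fin 2 → O) (l : O) (w : Fin 2 → O)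
    (i : Fin 2) : O := jw V p w i + l * w i

/-- the eigenvector `(M - l) w` -/
noncomputable def vm (V : Fin 2 → MvPolynomial (Fin 2) O) (p : Fin 2 → O) (l : O) (w : Fin 2 → O)
    (i : Fin 2) : O := jw V p w i - l * w i

/-- the scaling factor -/
noncomputable def kap (V : Fin 2 → MvPolynomial (Fin 2) O) (p w : Fin 2 → O) : O :=
  2 * dl V p * qq V p w

/-- the linear substitution -/
noncomputable def sbst (V : Fin 2 → MvPolynomial (Fin 2) O) (p : Fin 2 → O) (l : O)
    (w : Fin 2 → O) (i : Fin 2) : MvPolynomial (Fin 2) O :=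
  MvPolynomial.C (p i) + (MvPolynomial.C (vp V p l w i) * MvPolynomial.X 0 +
    MvPolynomial.C (vm V p l w i) * MvPolynomial.X 1)

/-- the vector field in the new coordinates, up to a factor: first component -/
noncomputable def G0 (V : Fin 2 → MvPolynomial (Fin 2) O) (p : Fin 2 → O) (l : O)
    (w : Fin 2 → O) : MvPolynomial (Fin 2) O :=
  MvPolynomial.C (vm V p l w 1) * MvPolynomial.bind₁ (sbst V p l w) (V 0) -
    MvPolynomial.C (vm V p l w 0) * MvPolynomial.bind₁ (sbst V p l w) (V 1)

/-- the vector field in the new coordinates, up to a factor: second component -/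
noncomputable def G1 (V : Fin 2 → MvPolynomial (Fin 2) O) (p : Fin 2 → O) (l : O)
    (w : Fin 2 → O) : MvPolynomial (Fin 2) O :=
  MvPolynomial.C (vp V p l w 0) * MvPolynomial.bind₁ (sbst V p l w) (V 1) -
    MvPolynomial.C (vp V p l w 1) * MvPolynomial.bind₁ (sbst V p l w) (V 0)

/-- normalized first nonlinearity -/
noncomputable def H0 (V : Fin 2 → MvPolynomial (Fin 2) O) (p : Fin 2 → O) (l : O)
    (w : Fin 2 → O) : MvPolynomial (Fin 2) O := scaleHigh (kap V p w) (G0 V p l w)

/-- normalized second nonlinearity -/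
noncomputable def H1 (V : Fin 2 → MvPolynomial (Fin 2) O) (p : Fin 2 → O) (l : O)
    (w : Fin 2 → O) : MvPolynomial (Fin 2) O := scaleHigh (kap V p w) (G1 V p l w)

section natural

variable (φ : O →+* O') (V : Fin 2 → MvPolynomial (Fin 2) O) (p : Fin 2 → O) (l : O)
  (w : Fin 2 → O)

theorem map_jac (i j : Fin 2) :
    jac (fun k => MvPolynomial.map φ (V k)) (fun k => φ (p k)) i j = φ (jac V p i j) := by
  rw [jac, jac, MvPolynomial.pderiv_map, MvPolynomial.eval_map, MvPolynomial.eval₂_comp]
  rfl

theorem map_jw (i : Fin 2) :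
    jw (fun k => MvPolynomial.map φ (V k)) (fun k => φ (p k)) (fun k => φ (w k)) i =
      φ (jw V p w i) := by
  rw [jw, jw, map_jac, map_jac, map_add, map_mul, map_mul]

theorem map_dl :
    dl (fun k => MvPolynomial.map φ (V k)) (fun k => φ (p k)) = φ (dl V p) := by
  rw [dl, dl, map_jac, map_jac, map_jac, map_jac, map_sub, map_mul, map_mul]

theorem map_qq :
    qq (fun k => MvPolynomial.map φ (V k)) (fun k => φ (p k)) (fun k => φ (w k)) =
      φ (qq V p w) := by
  rw [qq, qq, map_jw, map_jw, map_sub, map_mul, map_mul]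

theorem map_vp (i : Fin 2) :
    vp (fun k => MvPolynomial.map φ (V k)) (fun k => φ (p k)) (φ l) (fun k => φ (w k)) i =
      φ (vp V p l w i) := by
  rw [vp, vp, map_jw, map_add, map_mul]

theorem map_vm (i : Fin 2) :
    vm (fun k => MvPolynomial.map φ (V k)) (fun k => φ (p k)) (φ l) (fun k => φ (w k)) i =
      φ (vm V p l w i) := by
  rw [vm, vm, map_jw, map_sub, map_mul]

theorem map_kap :
    kap (fun k => MvPolynomial.map φ (V k)) (fun k => φ (p k)) (fun k => φ (w k)) =
      φ (kap V p w) := by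
  rw [kap, kap, map_dl, map_qq, map_mul, map_mul, map_ofNat]

theorem map_sbst :
    sbst (fun k => MvPolynomial.map φ (V k)) (fun k => φ (p k)) (φ l) (fun k => φ (w k)) =
      fun i => MvPolynomial.map φ (sbst V p l w i) := by
  funext i
  rw [sbst, sbst, map_vp, map_vm]
  simp only [map_add, map_mul, MvPolynomial.map_C, MvPolynomial.map_X]

theorem map_G0 :
    G0 (fun k => MvPolynomial.map φ (V k)) (fun k => φ (p k)) (φ l) (fun k => φ (w k)) =
      MvPolynomial.map φ (G0 V p l w) := by
  rw [G0, G0, map_vm, map_vm, map_sbst, map_sub, map_mul, map_mul, MvPolynomial.map_bind₁,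
    MvPolynomial.map_bind₁, MvPolynomial.map_C, MvPolynomial.map_C]

theorem map_G1 :
    G1 (fun k => MvPolynomial.map φ (V k)) (fun k => φ (p k)) (φ l) (fun k => φ (w k)) =
      MvPolynomial.map φ (G1 V p l w) := by
  rw [G1, G1, map_vp, map_vp, map_sbst, map_sub, map_mul, map_mul, MvPolynomial.map_bind₁,
    MvPolynomial.map_bind₁, MvPolynomial.map_C, MvPolynomial.map_C]

theorem map_H0 :
    H0 (fun k => MvPolynomial.map φ (V k)) (fun k => φ (p k)) (φ l) (fun k => φ (w k)) =
      MvPolynomial.map φ (H0 V p l w) := by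
  rw [H0, H0, map_G0, map_kap, map_scaleHigh]

theorem map_H1 :
    H1 (fun k => MvPolynomial.map φ (V k)) (fun k => φ (p k)) (φ l) (fun k => φ (w k)) =
      MvPolynomial.map φ (H1 V p l w) := by
  rw [H1, H1, map_G1, map_kap, map_scaleHigh]

end natural

/-- chain rule -/
theorem pderiv_bind₁ (g : Fin 2 → MvPolynomial (Fin 2) O) (f : MvPolynomial (Fin 2) O)
    (i : Fin 2) : MvPolynomial.pderiv i (MvPolynomial.bind₁ g f) =
      ∑ j, MvPolynomial.bind₁ g (MvPolynomial.pderiv j f) * MvPolynomial.pderiv i (g j) := by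
  induction f using MvPolynomial.induction_on with
  | C a => simp
  | add p q hp hq =>
    rw [map_add, map_add, hp, hq, ← Finset.sum_add_distrib]
    refine Finset.sum_congr rfl fun j _ => ?_
    rw [map_add, map_add, add_mul]
  | mul_X p k hp =>
    rw [map_mul, MvPolynomial.pderiv_mul, hp, MvPolynomial.bind₁_X_right, Finset.sum_mul]
    have : ∀ j, MvPolynomial.bind₁ g (MvPolynomial.pderiv j (p * MvPolynomial.X k)) *
        MvPolynomial.pderiv i (g j) =
        MvPolynomial.bind₁ g (MvPolynomial.pderiv j p) * MvPolynomial.pderiv i (g j) * g k +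
        (if j = k then MvPolynomial.bind₁ g p * MvPolynomial.pderiv i (g k) else 0) := by
      intro j
      rw [MvPolynomial.pderiv_mul, map_add, map_mul, map_mul, MvPolynomial.bind₁_X_right]
      split_ifs with h
      · rw [h, MvPolynomial.pderiv_X_self, map_one]
        ring
      · rw [MvPolynomial.pderiv_X_of_ne (Ne.symm h), map_zero]
        ring
    simp only [this]
    rw [Finset.sum_add_distrib, Finset.sum_ite_eq', if_pos (Finset.mem_univ _)]

theorem eval_zero_sbst (V : Fin 2 → MvPolynomial (Fin 2) O) (p : Fin 2 → O) (l : O)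
    (w : Fin 2 → O) (f : MvPolynomial (Fin 2) O) :
    MvPolynomial.eval 0 (MvPolynomial.bind₁ (sbst V p l w) f) = MvPolynomial.eval p f := by
  induction f using MvPolynomial.induction_on with
  | C a => simp
  | add p q hp hq => rw [map_add, map_add, map_add, hp, hq]
  | mul_X p k hp =>
    rw [map_mul, map_mul, map_mul, hp, MvPolynomial.bind₁_X_right]
    simp [sbst]

theorem eval_zero_pderiv_sbst (V : Fin 2 → MvPolynomial (Fin 2) O) (p : Fin 2 → O) (l : O)
    (w : Fin 2 → O) (k : Fin 2) :
    MvPolynomial.eval 0 (MvPolynomial.pderiv 0 (MvPolynomial.bind₁ (sbst V p l w) (V k))) =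
      jac V p k 0 * vp V p l w 0 + jac V p k 1 * vp V p l w 1 ∧
    MvPolynomial.eval 0 (MvPolynomial.pderiv 1 (MvPolynomial.bind₁ (sbst V p l w) (V k))) =
      jac V p k 0 * vm V p l w 0 + jac V p k 1 * vm V p l w 1 := by
  have h0 : ∀ j, MvPolynomial.pderiv 0 (sbst V p l w j) = MvPolynomial.C (vp V p l w j) := by
    intro j
    rw [sbst]
    simp only [map_add, MvPolynomial.pderiv_mul, MvPolynomial.pderiv_C,
      MvPolynomial.pderiv_X_self, MvPolynomial.pderiv_X_of_ne (show (1 : Fin 2) ≠ 0 by decide)]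
    ring
  have h1 : ∀ j, MvPolynomial.pderiv 1 (sbst V p l w j) = MvPolynomial.C (vm V p l w j) := by
    intro j
    rw [sbst]
    simp only [map_add, MvPolynomial.pderiv_mul, MvPolynomial.pderiv_C,
      MvPolynomial.pderiv_X_self, MvPolynomial.pderiv_X_of_ne (show (0 : Fin 2) ≠ 1 by decide)]
    ring
  constructor
  · rw [pderiv_bind₁, map_sum, Fin.sum_univ_two, map_mul, map_mul, h0, h0, eval_zero_sbst,
      eval_zero_sbst, MvPolynomial.eval_C, MvPolynomial.eval_C]
    rfl
  · rw [pderiv_bind₁, map_sum, Fin.sum_univ_two, map_mul, map_mul, h1, h1, eval_zero_sbst,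
      eval_zero_sbst, MvPolynomial.eval_C, MvPolynomial.eval_C]
    rfl

end generic

end Pool.Agent.Work.MP_d6d6e6_ag
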