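import Pool.Agent.Work.MP_d6d6e6_ag.ZariskiOpen

/-! Persistence of reduced singularities under holomorphic deformations. -/

open Filter Topology MvPolynomial

set_option linter.unusedSectionVars false
set_option linter.unusedVariables false

namespace Pool.Agent.Work.MP_d6d6e6_ag

/-- the family of vector fields -/
noncomputable def fam {d : ℕ} (w : ℂ → Form d) (x : ℂ × (Fin 2 → ℂ)) : Fin 2 → ℂ :=
  pvf (poly (w x.1)) x.2

theorem eval_poly {d : ℕ} (ω : Form d) (k : Fin 2) (z : Fin 2 → ℂ) :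
    eval z (poly ω k) = ∑ m : Mon d, ω (k, m) * (z 0 ^ (m.1.1 : ℕ) * z 1 ^ (m.1.2 : ℕ)) := by
  rw [poly, map_sum]
  refine Finset.sum_congr rfl fun m _ => ?_
  rw [map_mul, map_mul, map_pow, map_pow, eval_X, eval_X, eval_C]

theorem analyticAt_eval_fam {d : ℕ} {w : ℂ → Form d} {ε : ℂ} (hw : AnalyticAt ℂ w ε) (k : Fin 2)
    (p : Fin 2 → ℂ) :
    AnalyticAt ℂ (fun x : ℂ × (Fin 2 → ℂ) => eval x.2 (poly (w x.1) k)) (ε, p) := by
  simp only [eval_poly]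
  refine Finset.analyticAt_fun_sum _ fun m _ => ?_
  have h1 : AnalyticAt ℂ (fun x : ℂ × (Fin 2 → ℂ) => w x.1) (ε, p) := by
    have h2 : AnalyticAt ℂ (fun x : ℂ × (Fin 2 → ℂ) => x.1) (ε, p) := analyticAt_fst
    exact AnalyticAt.comp (g := w) hw h2
  have h3 : AnalyticAt ℂ (fun x : ℂ × (Fin 2 → ℂ) => w x.1 (k, m)) (ε, p) :=
    (analyticAt_pi_iff.1 h1) (k, m)
  have h4 : AnalyticAt ℂ (fun x : ℂ × (Fin 2 → ℂ) => x.2) (ε, p) := analyticAt_snd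
  have h5 : ∀ i, AnalyticAt ℂ (fun x : ℂ × (Fin 2 → ℂ) => x.2 i) (ε, p) := fun i =>
    (analyticAt_pi_iff.1 h4) i
  exact h3.mul (((h5 0).pow _).mul ((h5 1).pow _))

theorem analyticAt_fam {d : ℕ} {w : ℂ → Form d} {ε : ℂ} (hw : AnalyticAt ℂ w ε)
    (p : Fin 2 → ℂ) : AnalyticAt ℂ (fam w) (ε, p) := by
  rw [analyticAt_pi_iff]
  intro i
  fin_cases i
  · exact analyticAt_eval_fam hw 0 p
  · exact analyticAt_eval_fam hw 1 p

theorem fam_eq_zero {d : ℕ} (w : ℂ → Form d) (ε : ℂ) (z : Fin 2 → ℂ) :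
    fam w (ε, z) = 0 ↔ IsSingularity (w ε) z := by
  rw [fam, pvf, IsSingularity]
  constructor
  · intro h
    exact ⟨congrFun h 0, congrFun h 1⟩
  · rintro ⟨h0, h1⟩
    ext i
    fin_cases i
    · exact h0
    · exact h1

theorem inj_of_det {V : Fin 2 → MvPolynomial (Fin 2) ℂ} {p : Fin 2 → ℂ} (h : dl V p ≠ 0)
    {v : Fin 2 → ℂ} (h0 : jac V p 0 0 * v 0 + jac V p 0 1 * v 1 = 0)
    (h1 : jac V p 1 0 * v 0 + jac V p 1 1 * v 1 = 0) : v = 0 := by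
  rw [dl] at h
  have e0 : (jac V p 0 0 * jac V p 1 1 - jac V p 0 1 * jac V p 1 0) * v 0 = 0 := by
    linear_combination jac V p 1 1 * h0 - jac V p 0 1 * h1
  have e1 : (jac V p 0 0 * jac V p 1 1 - jac V p 0 1 * jac V p 1 0) * v 1 = 0 := by
    linear_combination jac V p 0 0 * h1 - jac V p 1 0 * h0
  ext i
  fin_cases i
  · exact (mul_eq_zero.1 e0).resolve_left h
  · exact (mul_eq_zero.1 e1).resolve_left h

theorem exists_persist {d : ℕ} {w : ℂ → Form d} (hw : AnalyticAt ℂ w 0) {p : Fin 2 → ℂ}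
    (hp : IsReducedSingularity (w 0) p) :
    ∃ q : ℂ → (Fin 2 → ℂ), AnalyticAt ℂ q 0 ∧ q 0 = p ∧
      ∃ W ∈ 𝓝 p, ∀ᶠ ε in 𝓝 (0 : ℂ), q ε ∈ W ∧ ∀ z ∈ W, IsSingularity (w ε) z ↔ z = q ε := by
  obtain ⟨hV0, hdl⟩ := (isReduced_iff (w 0) p).1 hp
  -- the map `Ψ (ε, z) = (ε, F (ε, z))`
  set Ψ : ℂ × (Fin 2 → ℂ) → ℂ × (Fin 2 → ℂ) := fun x => (x.1, fam w x) with hΨ
  have hfan : AnalyticAt ℂ (fam w) (0, p) := analyticAt_fam hw p
  have hΨan : AnalyticAt ℂ Ψ (0, p) := AnalyticAt.prod analyticAt_fst hfan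
  have hfam0 : fam w (0, p) = 0 := (fam_eq_zero w 0 p).2 hp.1
  have hΨ0 : Ψ (0, p) = (0, 0) := by
    rw [hΨ]
    simp only [hfam0]
  set F' := fderiv ℂ (fam w) (0, p) with hF'
  have hΨd : HasFDerivAt Ψ ((ContinuousLinearMap.fst ℂ ℂ (Fin 2 → ℂ)).prod F') (0, p) :=
    hasFDerivAt_fst.prodMk hfan.differentiableAt.hasFDerivAt
  -- the derivative in the direction of the plane
  obtain ⟨J, hJ, hJv⟩ := hasFDerivAt_pvf (poly (w 0)) p
  have hFv : ∀ v, F' (0, v) = J v := by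
    intro v
    have h1 : HasFDerivAt (fun z : Fin 2 → ℂ => ((0 : ℂ), z))
        (ContinuousLinearMap.inr ℂ ℂ (Fin 2 → ℂ)) p := hasFDerivAt_prodMk_right 0 p
    have h2 : HasFDerivAt (fam w) F' ((0 : ℂ), p) := hfan.differentiableAt.hasFDerivAt
    have h3 : HasFDerivAt (fun z : Fin 2 → ℂ => fam w (0, z))
        (F'.comp (ContinuousLinearMap.inr ℂ ℂ (Fin 2 → ℂ))) p :=
      HasFDerivAt.comp (g := fam w) p h2 h1
    have h4 : (F'.comp (ContinuousLinearMap.inr ℂ ℂ (Fin 2 → ℂ))) = J := h3.unique hJ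
    rw [← h4]
    rfl
  set D := (ContinuousLinearMap.fst ℂ ℂ (Fin 2 → ℂ)).prod F' with hD
  have hinj : Function.Injective D := by
    rw [injective_iff_map_eq_zero]
    rintro ⟨h, v⟩ hx
    have hh : h = 0 := congrArg Prod.fst hx
    subst hh
    have hv : F' (0, v) = 0 := congrArg Prod.snd hx
    rw [hFv, hJv] at hv
    have : v = 0 := inj_of_det hdl (congrFun hv 0) (congrFun hv 1)
    rw [this]
    rfl
  let Le : (ℂ × (Fin 2 → ℂ)) ≃ₗ[ℂ] (ℂ × (Fin 2 → ℂ)) :=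
    LinearEquiv.ofInjectiveEndo (D : (ℂ × (Fin 2 → ℂ)) →ₗ[ℂ] (ℂ × (Fin 2 → ℂ))) hinj
  set Lc := Le.toContinuousLinearEquiv with hLc
  have hLcD : (Lc : (ℂ × (Fin 2 → ℂ)) →L[ℂ] (ℂ × (Fin 2 → ℂ))) = D := by
    ext x <;> rfl
  have hfd : fderiv ℂ Ψ (0, p) = (Lc : (ℂ × (Fin 2 → ℂ)) →L[ℂ] (ℂ × (Fin 2 → ℂ))) := by
    rw [hLcD]
    exact hΨd.fderiv
  have hstrict : HasStrictFDerivAt Ψ (Lc : (ℂ × (Fin 2 → ℂ)) →L[ℂ] (ℂ × (Fin 2 → ℂ))) (0, p) := by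
    rw [← hfd]
    exact hΨan.hasStrictFDerivAt
  set R := HasStrictFDerivAt.toOpenPartialHomeomorph Ψ hstrict with hR
  have hRcoe : (R : ℂ × (Fin 2 → ℂ) → ℂ × (Fin 2 → ℂ)) = Ψ :=
    HasStrictFDerivAt.toOpenPartialHomeomorph_coe hstrict
  have hsrc : ((0 : ℂ), p) ∈ R.source :=
    HasStrictFDerivAt.mem_toOpenPartialHomeomorph_source hstrict
  have htgt : ((0 : ℂ), (0 : Fin 2 → ℂ)) ∈ R.target := by
    have := R.map_source hsrc
    rwa [hRcoe, hΨ0] at this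
  have hsymm0 : R.symm (0, 0) = (0, p) := by
    have := R.left_inv hsrc
    rwa [hRcoe, hΨ0] at this
  have hSan : AnalyticAt ℂ R.symm (0, 0) := by
    refine OpenPartialHomeomorph.analyticAt_symm R (i := Lc) htgt ?_ ?_
    · rw [hsymm0, hRcoe]
      exact hΨan
    · rw [hsymm0, hRcoe]
      exact hfd
  have hemb : AnalyticAt ℂ (fun ε : ℂ => (ε, (0 : Fin 2 → ℂ))) 0 :=
    AnalyticAt.prod analyticAt_id analyticAt_const
  have hSan' : AnalyticAt ℂ (fun ε : ℂ => R.symm (ε, 0)) 0 :=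
    AnalyticAt.comp (g := R.symm) (f := fun ε : ℂ => (ε, (0 : Fin 2 → ℂ))) hSan hemb
  have hqan : AnalyticAt ℂ (fun ε : ℂ => (R.symm (ε, 0)).2) 0 := by
    have h1 : AnalyticAt ℂ (fun x : ℂ × (Fin 2 → ℂ) => x.2) (R.symm (0, 0)) := analyticAt_snd
    exact AnalyticAt.comp (g := fun x : ℂ × (Fin 2 → ℂ) => x.2)
      (f := fun ε : ℂ => R.symm (ε, 0)) h1 hSan'
  refine ⟨fun ε => (R.symm (ε, 0)).2, hqan, by simp only [hsymm0], ?_⟩
  -- product neighbourhood inside the source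
  obtain ⟨B, hB, W, hW, hBW⟩ := mem_nhds_prod_iff.1 (R.open_source.mem_nhds hsrc)
  refine ⟨W, hW, ?_⟩
  have hcont : Tendsto (fun ε : ℂ => (R.symm (ε, 0)).2) (𝓝 0) (𝓝 p) := by
    have := hqan.continuousAt.tendsto
    simpa only [hsymm0] using this
  have htg : ∀ᶠ ε in 𝓝 (0 : ℂ), (ε, (0 : Fin 2 → ℂ)) ∈ R.target :=
    hemb.continuousAt.tendsto.eventually (R.open_target.mem_nhds htgt)
  filter_upwards [hB, hcont.eventually hW, htg] with ε h1 h2 h3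
  refine ⟨h2, fun z hz => ?_⟩
  have h4 := R.right_inv h3
  rw [hRcoe] at h4
  have h5 : (R.symm (ε, 0)).1 = ε := congrArg Prod.fst h4
  have h6 : fam w (R.symm (ε, 0)) = 0 := congrArg Prod.snd h4
  rw [← fam_eq_zero]
  constructor
  · intro h
    have h7 : R.symm (R (ε, z)) = (ε, z) := R.left_inv (hBW ⟨h1, hz⟩)
    have h8 : R (ε, z) = (ε, 0) := by
      rw [hRcoe, hΨ]
      simp only [h]
    rw [h8] at h7
    rw [h7]
  · intro h
    rw [h]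
    have : (ε, (R.symm (ε, 0)).2) = R.symm (ε, 0) := by
      ext1
      · exact h5.symm
      · rfl
    rw [this]
    exact h6

end Pool.Agent.Work.MP_d6d6e6_ag
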