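import Pool.Agent.Work.MP_d6d6e6_ag.Algebraic

/-! Having at least `m` reduced singularities which are not centers is a Zariski open condition. -/

open Finsupp Filter Topology MvPolynomial

set_option linter.unusedSectionVars false
set_option linter.unusedVariables false

namespace Pool.Agent.Work.MP_d6d6e6_ag

/-- `ω` has at least `m` reduced singularities which are not centers. -/
def HasBad {d : ℕ} (m : ℕ) (ω : Form d) : Prop :=
  ∃ z : Fin m → (Fin 2 → ℂ), Function.Injective z ∧
    ∀ i, IsReducedSingularity ω (z i) ∧ ¬ IsCenter ω (z i)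

/-- the square system -/
noncomputable def sysF (d m : ℕ) (x : Fin 2 × Fin m) :
    MvPolynomial (Fin 2 × Fin m) (MvPolynomial (Fin 2 × Mon d) ℂ) :=
  rename (fun j => (j, x.2)) (upoly d x.1)

theorem inj_pair {m : ℕ} (i : Fin m) : Function.Injective (fun j : Fin 2 => (j, i)) :=
  fun a b h => congrArg Prod.fst h

theorem pderiv_sysF (d m : ℕ) (a k : Fin 2) (i j : Fin m) :
    pderiv (a, i) (sysF d m (k, j)) =
      if i = j then rename (fun j' => (j', i)) (pderiv a (upoly d k)) else 0 := by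
  classical
  split_ifs with h
  · subst h
    exact pderiv_rename (inj_pair i) a (upoly d k)
  · apply pderiv_eq_zero_of_notMem_vars
    intro hmem
    have h1 := vars_rename (fun j' : Fin 2 => (j', j)) (upoly d k) hmem
    obtain ⟨b, _, hb⟩ := Finset.mem_image.1 h1
    exact h (congrArg Prod.snd hb).symm

theorem det_sysF (d m : ℕ) :
    Matrix.det (Matrix.of fun i j => pderiv i (sysF d m j)) =
      ∏ i : Fin m, rename (fun j' => (j', i)) (udl d) := by
  have h1 : (Matrix.of fun i j => pderiv i (sysF d m j)) =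
      Matrix.blockDiagonal fun i : Fin m =>
        (Matrix.of fun a k : Fin 2 =>
          rename (fun j' : Fin 2 => (j', i)) (pderiv a (upoly d k))) := by
    apply Matrix.ext
    rintro ⟨a, i⟩ ⟨k, j⟩
    rw [Matrix.blockDiagonal_apply', Matrix.of_apply, pderiv_sysF, Matrix.of_apply]
  rw [h1, Matrix.det_blockDiagonal]
  refine Finset.prod_congr rfl fun i _ => ?_
  rw [Matrix.det_fin_two]
  simp only [Matrix.of_apply]
  rw [udl, map_sub, map_mul, map_mul]
  ring

/-- The auxiliary polynomial. -/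
noncomputable def sysH (d m : ℕ) (g : Fin m → UA d) (α : Fin m → Fin m → Fin 2) :
    MvPolynomial (Fin 2 × Fin m) (MvPolynomial (Fin 2 × Mon d) ℂ) :=
  (∏ i, rename (fun j => (j, i)) (g i)) *
    ∏ i, ∏ j, if i = j then 1 else X (α i j, i) - X (α i j, j)

theorem ev2_sysF {d m : ℕ} (ω : Form d) (z : Fin 2 × Fin m → ℂ) (x : Fin 2 × Fin m) :
    ev2 ω z (sysF d m x) = eval (fun j => z (j, x.2)) (poly ω x.1) := by
  rw [sysF, ev2_rename, ev2_upoly]
  rfl

theorem ev2_det_sysF {d m : ℕ} (ω : Form d) (z : Fin 2 × Fin m → ℂ) :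
    ev2 ω z (Matrix.det (Matrix.of fun i j => pderiv i (sysF d m j))) =
      ∏ i : Fin m, dl (poly ω) (fun j => z (j, i)) := by
  rw [det_sysF, map_prod]
  refine Finset.prod_congr rfl fun i _ => ?_
  rw [ev2_rename, ev2_udl]
  rfl

theorem ev2_sysH {d m : ℕ} (ω : Form d) (z : Fin 2 × Fin m → ℂ) (g : Fin m → UA d)
    (α : Fin m → Fin m → Fin 2) :
    ev2 ω z (sysH d m g α) = (∏ i, ev2 ω (fun j => z (j, i)) (g i)) *
      ∏ i, ∏ j, if i = j then 1 else z (α i j, i) - z (α i j, j) := by
  rw [sysH, map_mul, map_prod, map_prod]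
  refine congrArg₂ (· * ·) ?_ ?_
  · refine Finset.prod_congr rfl fun i _ => ?_
    rw [ev2_rename]
    rfl
  · refine Finset.prod_congr rfl fun i _ => ?_
    rw [map_prod]
    refine Finset.prod_congr rfl fun j _ => ?_
    split_ifs
    · rw [map_one]
    · rw [map_sub, ev2_X, ev2_X]

theorem hasBad_iff_sys {d m : ℕ} (ω : Form d) :
    HasBad m ω ↔ ∃ (g : Fin m → UA d) (_ : ∀ i, g i ∈ centerEqs d) (α : Fin m → Fin m → Fin 2)
      (z : Fin 2 × Fin m → ℂ), (∀ x, ev2 ω z (sysF d m x) = 0) ∧
      ev2 ω z (Matrix.det (Matrix.of fun i j => pderiv i (sysF d m j))) ≠ 0 ∧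
      ev2 ω z (sysH d m g α) ≠ 0 := by
  constructor
  · rintro ⟨z, hinj, hz⟩
    have h1 : ∀ i, ∃ g ∈ centerEqs d, ev2 ω (z i) g ≠ 0 := by
      intro i
      have := (isCenter_iff_eqs ω (z i) (hz i).1).not.1 (hz i).2
      push Not at this
      exact this
    choose g hg hgz using h1
    have h2 : ∀ i j, ∃ a : Fin 2, i ≠ j → z i a ≠ z j a := by
      intro i j
      by_cases hij : i = j
      · exact ⟨0, fun h => absurd hij h⟩
      · obtain ⟨a, ha⟩ := Function.ne_iff.1 (hinj.ne hij)
        exact ⟨a, fun _ => ha⟩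
    choose α hα using h2
    have hred := fun i => (isReduced_iff ω (z i)).1 (hz i).1
    refine ⟨g, hg, α, fun x => z x.2 x.1, ?_, ?_, ?_⟩
    · intro x
      rw [ev2_sysF]
      exact (hred x.2).1 x.1
    · rw [ev2_det_sysF]
      exact Finset.prod_ne_zero_iff.2 fun i _ => (hred i).2
    · rw [ev2_sysH]
      refine mul_ne_zero (Finset.prod_ne_zero_iff.2 fun i _ => hgz i)
        (Finset.prod_ne_zero_iff.2 fun i _ => Finset.prod_ne_zero_iff.2 fun j _ => ?_)
      split_ifs with h
      · exact one_ne_zero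
      · exact sub_ne_zero.2 (hα i j h)
  · rintro ⟨g, hg, α, z, h1, h2, h3⟩
    rw [ev2_det_sysF] at h2
    rw [ev2_sysH] at h3
    have h4 := left_ne_zero_of_mul h3
    have h5 := right_ne_zero_of_mul h3
    have hred : ∀ i, IsReducedSingularity ω (fun j => z (j, i)) := by
      intro i
      rw [isReduced_iff]
      refine ⟨fun k => ?_, Finset.prod_ne_zero_iff.1 h2 i (Finset.mem_univ _)⟩
      have := h1 (k, i)
      rwa [ev2_sysF] at this
    refine ⟨fun i j => z (j, i), ?_, fun i => ⟨hred i, fun hc => ?_⟩⟩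
    · intro i j hij
      by_contra hne
      have h6 := Finset.prod_ne_zero_iff.1 (Finset.prod_ne_zero_iff.1 h5 i (Finset.mem_univ _))
        j (Finset.mem_univ _)
      rw [if_neg hne] at h6
      exact h6 (sub_eq_zero.2 (congrFun hij (α i j)))
    · exact Finset.prod_ne_zero_iff.1 h4 i (Finset.mem_univ _)
        ((isCenter_iff_eqs ω _ (hred i)).1 hc (g i) (hg i))

/-- The condition is Zariski open. -/
theorem exists_poly_hasBad (d m : ℕ) : ∃ T : Set (MvPolynomial (Fin 2 × Mon d) ℂ),
    ∀ ω : Form d, HasBad m ω ↔ ∃ f ∈ T, eval ω f ≠ 0 := by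
  classical
  have h := fun (g : Fin m → UA d) (α : Fin m → Fin m → Fin 2) =>
    exists_zariski_open (sysF d m) (sysH d m g α)
  choose T hT using h
  refine ⟨{f | ∃ (g : Fin m → UA d) (_ : ∀ i, g i ∈ centerEqs d) (α : Fin m → Fin m → Fin 2),
    f ∈ T g α}, fun ω => ?_⟩
  rw [hasBad_iff_sys]
  constructor
  · rintro ⟨g, hg, α, hz⟩
    obtain ⟨f, hf, hf'⟩ := (hT g α ω).1 hz
    exact ⟨f, ⟨g, hg, α, hf⟩, hf'⟩
  · rintro ⟨f, ⟨g, hg, α, hf⟩, hf'⟩
    exact ⟨g, hg, α, (hT g α ω).2 ⟨f, hf, hf'⟩⟩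

/-! ### Scaling -/

theorem poly_smul {d : ℕ} (t : ℂ) (ω : Form d) (k : Fin 2) :
    poly (t • ω) k = C t * poly ω k := by
  rw [poly, poly, Finset.mul_sum]
  refine Finset.sum_congr rfl fun m _ => ?_
  rw [Pi.smul_apply, smul_eq_mul, C_mul, mul_assoc]

theorem isSingularity_smul {d : ℕ} {t : ℂ} (ht : t ≠ 0) (ω : Form d) (p : Fin 2 → ℂ) :
    IsSingularity (t • ω) p ↔ IsSingularity ω p := by
  rw [IsSingularity, IsSingularity, poly_smul, poly_smul, map_mul, map_mul, eval_C,
    mul_eq_zero, mul_eq_zero, or_iff_right ht, or_iff_right ht]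

theorem isReducedSingularity_smul {d : ℕ} {t : ℂ} (ht : t ≠ 0) (ω : Form d) (p : Fin 2 → ℂ) :
    IsReducedSingularity (t • ω) p ↔ IsReducedSingularity ω p := by
  rw [IsReducedSingularity, IsReducedSingularity, isSingularity_smul ht]
  refine and_congr_right fun _ => not_congr ?_
  have : eval p (pderiv 0 (poly (t • ω) 0) * pderiv 1 (poly (t • ω) 1) -
      pderiv 1 (poly (t • ω) 0) * pderiv 0 (poly (t • ω) 1)) =
      t ^ 2 * eval p (pderiv 0 (poly ω 0) * pderiv 1 (poly ω 1) -
      pderiv 1 (poly ω 0) * pderiv 0 (poly ω 1)) := by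
    rw [poly_smul, poly_smul, pderiv_C_mul, pderiv_C_mul, pderiv_C_mul, pderiv_C_mul]
    simp only [map_sub, map_mul, eval_C]
    ring
  rw [this, mul_eq_zero, or_iff_right (pow_ne_zero 2 ht)]

theorem isCenter_smul {d : ℕ} {t : ℂ} (ht : t ≠ 0) (ω : Form d) (p : Fin 2 → ℂ) :
    IsCenter (t • ω) p ↔ IsCenter ω p := by
  rw [IsCenter, IsCenter, isReducedSingularity_smul ht]
  refine and_congr_right fun _ => ?_
  refine exists_congr fun u => exists_congr fun v => and_congr_right fun _ => ?_
  refine eventually_congr (Eventually.of_forall fun z => ?_)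
  have : wedge (valueAt (t • ω) z) (differential (fun t => u t ^ 2 + v t ^ 2) z) =
      t * wedge (valueAt ω z) (differential (fun t => u t ^ 2 + v t ^ 2) z) := by
    simp only [wedge, valueAt, poly_smul, map_mul, eval_C, Matrix.cons_val_zero,
      Matrix.cons_val_one]
    ring
  rw [this, mul_eq_zero, or_iff_right ht]

theorem hasBad_smul {d m : ℕ} {t : ℂ} (ht : t ≠ 0) (ω : Form d) :
    HasBad m (t • ω) ↔ HasBad m ω := by
  rw [HasBad, HasBad]
  refine exists_congr fun z => and_congr_right fun _ => forall_congr' fun i => ?_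
  rw [isReducedSingularity_smul ht, isCenter_smul ht]

theorem hom_degree {σ : Type*} {n : ℕ} {f : MvPolynomial σ ℂ}
    (hf : f.IsHomogeneous n) {s : σ →₀ ℕ} (hs : f.coeff s ≠ 0) : s.degree = n := by
  rw [Finsupp.degree_eq_weight_one]
  exact hf hs

theorem eval_smul_of_homog {σ : Type*} [Fintype σ] {n : ℕ} {f : MvPolynomial σ ℂ}
    (hf : f.IsHomogeneous n) (t : ℂ) (x : σ → ℂ) : eval (t • x) f = t ^ n * eval x f := by
  rw [eval_eq', eval_eq', Finset.mul_sum]
  refine Finset.sum_congr rfl fun s hs => ?_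
  have h1 : s.degree = n := hom_degree hf (MvPolynomial.mem_support_iff.1 hs)
  have h2 : ∏ i, (t • x) i ^ s i = t ^ n * ∏ i, x i ^ s i := by
    rw [← h1, Finsupp.degree_eq_sum, ← Finset.prod_pow_eq_pow_sum, ← Finset.prod_mul_distrib]
    refine Finset.prod_congr rfl fun i _ => ?_
    rw [Pi.smul_apply, smul_eq_mul, mul_pow]
  rw [h2]
  ring

/-- A scaling-invariant Zariski open set is defined by homogeneous polynomials. -/
theorem homogeneous_of_scaling {σ : Type*} [Fintype σ] {B : (σ → ℂ) → Prop}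
    (hB : ∀ t : ℂ, t ≠ 0 → ∀ x, B (t • x) ↔ B x)
    (hT : ∃ T : Set (MvPolynomial σ ℂ), ∀ x, B x ↔ ∃ f ∈ T, eval x f ≠ 0) :
    ∃ T : Set (MvPolynomial σ ℂ), (∀ f ∈ T, ∃ n, f.IsHomogeneous n) ∧
      ∀ x, B x ↔ ∃ f ∈ T, eval x f ≠ 0 := by
  obtain ⟨T, hT⟩ := hT
  refine ⟨{f | ∃ g ∈ T, ∃ n, f = homogeneousComponent n g}, ?_, ?_⟩
  · rintro f ⟨g, _, n, rfl⟩
    exact ⟨n, homogeneousComponent_isHomogeneous n g⟩
  · intro x
    constructor
    · intro hx
      obtain ⟨g, hg, hgx⟩ := (hT x).1 hx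
      by_contra hno
      push Not at hno
      apply hgx
      rw [← sum_homogeneousComponent g, map_sum]
      exact Finset.sum_eq_zero fun n _ => hno _ ⟨g, hg, n, rfl⟩
    · rintro ⟨f, ⟨g, hg, n, rfl⟩, hf⟩
      -- the polynomial `t ↦ g (t x)`
      set q : Polynomial ℂ := ∑ k ∈ Finset.range (g.totalDegree + 1),
        Polynomial.C (eval x (homogeneousComponent k g)) * Polynomial.X ^ k with hq
      have hqe : ∀ t, q.eval t = eval (t • x) g := by
        intro t
        conv_rhs => rw [← sum_homogeneousComponent g]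
        rw [hq, Polynomial.eval_finsetSum, map_sum]
        refine Finset.sum_congr rfl fun k _ => ?_
        rw [eval_smul_of_homog (homogeneousComponent_isHomogeneous k g), Polynomial.eval_mul,
          Polynomial.eval_C, Polynomial.eval_pow, Polynomial.eval_X, mul_comm]
      have hn : n ∈ Finset.range (g.totalDegree + 1) := by
        rw [Finset.mem_range]
        by_contra hlt
        apply hf
        rw [homogeneousComponent_eq_zero n g (by omega), map_zero]
      have hq0 : q ≠ 0 := by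
        intro h0
        have h1 : q.coeff n = eval x (homogeneousComponent n g) := by
          rw [hq, Polynomial.finsetSum_coeff, Finset.sum_eq_single n]
          · simp
          · intro b _ hb
            rw [Polynomial.coeff_C_mul_X_pow, if_neg (Ne.symm hb)]
          · intro h
            exact absurd hn h
        rw [h0, Polynomial.coeff_zero] at h1
        exact hf h1.symm
      have hq1 : q * Polynomial.X ≠ 0 := mul_ne_zero hq0 Polynomial.X_ne_zero
      obtain ⟨t, ht⟩ : ∃ t, (q * Polynomial.X).eval t ≠ 0 := by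
        by_contra hno
        push Not at hno
        exact hq1 (Polynomial.funext (fun t => by rw [hno t, Polynomial.eval_zero]))
      rw [Polynomial.eval_mul, Polynomial.eval_X] at ht
      have ht0 : t ≠ 0 := right_ne_zero_of_mul ht
      have htq := left_ne_zero_of_mul ht
      rw [hqe] at htq
      exact (hB t ht0 x).1 ((hT (t • x)).2 ⟨g, hg, htq⟩)

/-- The projective version. -/
theorem isZariskiClosed_not_hasBad (d m : ℕ) :
    IsZariskiClosed {F : PForm d | ¬ HasBad m F.rep} := by
  obtain ⟨T, hT, h⟩ := homogeneous_of_scaling (B := fun ω : Form d => HasBad m ω)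
    (fun t ht ω => hasBad_smul ht ω) (exists_poly_hasBad d m)
  refine ⟨T, hT, ?_⟩
  ext F
  rw [Set.mem_ofPred_eq, Set.mem_ofPred_eq, h]
  push Not
  rfl

end Pool.Agent.Work.MP_d6d6e6_ag
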